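import Pool.Agent.Lib.MP_751085_ag.ZF.W.Cd

/-! Corestriction and specialisation. -/

namespace Pool.Agent.ZCy.F

open scoped Classical WithZero
open groupCohomology Module

variable {L F Z E K : Type} [Field L] [Field F] [Field Z] [Field E] [Field K] [Algebra L F]
  {v : Vl L}

/-- One place. -/
theorem cor_place [Algebra L Z] [Algebra L E] [Algebra Z E] [IsScalarTower L Z E]
    [FiniteDimensional L E] [IsGalois L E] [FiniteDimensional Z E] [IsGalois Z E] {w : Vl E}
    {v' : Vl Z} (hD : Dec Z w = ⊤) (hZ : ∀ g ∈ Dec L w, ∀ z, g (algebraMap Z E z) = algebraMap Z E z)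
    (hv : Nrm v) (hv' : Nrm v') (h1 : Idq (algebraMap L Z) v v' 1)
    (hd : ∀ z, Dns (algebraMap L Z) v' z) (hw : Over (algebraMap Z E) v' w) {P : Vl F} (hP : Nrm P)
    (s : F →ₐ[L] E) (hs : Over (s : F →+* E) P w) (U : UC P.integer) (q : U.A →+* E)
    (hq : ∀ o, q (U.i o) = s o) : ∃ V : UC v'.integer, V.val v'.integer.subtype =
      cor Z (cmF Z (s : F →+* E)) (rs (cmH Z (s : F →+* E)) (U.val P.integer.subtype)) ∧
      ∀ (K κ : Type) [Field K] [Field κ] [Algebra K κ] (ρ : v.integer →+* K)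
        (ρ' : v'.integer →+* K) (π : P.integer →+* κ) (e : ℕ), Function.Surjective ρ →
        IsRed v' ρ' → Cmp (algebraMap L Z) ρ ρ' id → IsRed P π → Function.Surjective π →
        Cmp (algebraMap L F) ρ π (algebraMap K κ) → Idq (algebraMap L F) v P e →
        V.val ρ' = e • corN K κ (U.val π) := by
  have _ := hd
  let T := cmF Z (s : F →+* E)
  let φ : F →+* T := cmH Z (s : F →+* E)
  have hfix : ∀ g ∈ Dec L w, (∀ a, g (s a) = s a) → ∀ x ∈ T, g x = x := fun g hg ha x hx => by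
    induction hx using IntermediateField.adjoin_induction with
    | mem x hx =>
      obtain ⟨a, rfl⟩ := hx
      exact ha a
    | algebraMap z => exact hZ g hg z
    | add x y _ _ hx hy => rw [map_add, hx, hy]
    | inv x _ hx => rw [map_inv₀, hx]
    | mul x y _ _ hx hy => rw [map_mul, hx, hy]
  obtain ⟨u, hu, hiff, hI, hdu⟩ := dns_up (φ := φ) (u₀ := w.comap (algebraMap T E)) hP hs
    fun x => dns_emb s fun g hg ha => hfix g hg ha x x.2
  have o1 : Over (algebraMap T E) u w := fun x => (hiff x).symm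
  have o2 : Over (algebraMap Z T) v' u := fun x => (hiff _).trans (hw x)
  have o3 : Over φ P u := fun x => (hiff _).trans (hs x)
  have o4 : Over (algebraMap L Z) v v' := h1.isOver one_pos
  have sq : ∀ a, algebraMap Z T (algebraMap L Z a) = φ (algebraMap L F a) := fun a =>
    Subtype.ext ((IsScalarTower.algebraMap_apply L Z E a).symm.trans (s.commutes a).symm)
  have o5 : Over (algebraMap L F) v P := fun a => by
    rw [← o3, ← sq, o2, o4]
  obtain ⟨V, hV, hval⟩ := cor_loc (T := T) hD T.val o2 o1 U o3.int q hq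
  refine ⟨V, hV.trans (congrArg _ (U.val_comp P.integer.subtype φ)), ?_⟩
  intro K κ _ _ _ ρ ρ' π e sρ hρ' c1 hπ sπ c2 he
  obtain ⟨π', hπ', c3⟩ := dns_red o3 (fun x _ => (hdu x).exists_lt one_ne_zero) hπ
  have e3 : π'.comp o3.int = π := RingHom.ext fun x => c3 x _ rfl
  have sρ' : Function.Surjective ρ' := fun k => by
    obtain ⟨a, rfl⟩ := sρ k
    exact ⟨o4.int a, c1 a _ rfl⟩
  have sπ' : Function.Surjective π' := fun k => by
    obtain ⟨a, rfl⟩ := sπ k
    exact ⟨o3.int a, c3 a _ rfl⟩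
  have c4 : Cmp (algebraMap Z T) ρ' π' (algebraMap K κ) := fun x y hy => by
    obtain ⟨a, ha⟩ := sρ (ρ' x)
    have h2 : v' (x - o4.int a : v'.integer) < 1 :=
      (hρ' _).1 (by rw [map_sub, c1 a (o4.int a) rfl, id, ha, sub_self])
    have h3 : y - o3.int (o5.int a) = o2.int (x - o4.int a) := by
      rw [map_sub]
      exact congrArg₂ _ (Subtype.ext hy) (Subtype.ext (sq a).symm)
    have h4 : π' (y - o3.int (o5.int a)) = 0 := by
      rw [h3]
      exact (hπ' _).2 ((o2.lt _).2 h2)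
    rw [map_sub, sub_eq_zero] at h4
    rw [h4, c3 (o5.int a) _ rfl, id, c2 a _ rfl, ha]
  obtain ⟨e', -, he'⟩ := o2.idq_nat hv'
  have h5 := h1.comp he'
  rw [show (algebraMap Z T).comp (algebraMap L Z) = φ.comp (algebraMap L F) from RingHom.ext sq]
    at h5
  have h6 := h5.unique (he.comp hI) hv
  rw [mul_one, one_mul, Nat.cast_inj] at h6
  subst h6
  rw [← e3]
  exact hval K κ ρ' π' e' hρ' sρ' hπ' sπ' c4 (ef_top hv' hu he' o2 o1 hD hρ' sρ' hπ' sπ' c4)

variable [FiniteDimensional L F] [Algebra.IsSeparable L F]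

/-- `exists_common`, `w` above `v`, `exists_decf`, `v'` from `dns_up` (`dns_of_dec`), `s i` from
`exists_emb_over`; `cor_split` (normalise `w.comap s'`, `emb_conj`, `vn_eq`), `cor_place`,
`UC.sum_val`. -/
theorem cor_main (hv : Nrm v) {ι : Type} [Fintype ι] {P : ι → Vl F} (hn : ∀ i, Nrm (P i))
    (ho : ∀ i, Over (algebraMap L F) v (P i)) (hi : Function.Injective P)
    (hx : ∀ Q, Nrm Q → Over (algebraMap L F) v Q → ∃ i, Q = P i) (U : ∀ i, UC (P i).integer)
    {α : BR F} (hU : ∀ i, (U i).val (P i).integer.subtype = α) :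
    ∃ (Z : Type) (_ : Field Z) (_ : Algebra L Z) (_ : FiniteDimensional L Z)
      (_ : Algebra.IsSeparable L Z) (v' : Vl Z) (V : UC v'.integer),
      Over (algebraMap L Z) v v' ∧ (∀ z, Dns (algebraMap L Z) v' z) ∧
      V.val v'.integer.subtype = rs (algebraMap L Z) (cor L F α) ∧
      ∀ (K : Type) [Field K] (κ : ι → Type) [∀ i, Field (κ i)] [∀ i, Algebra K (κ i)]
        (ρ : v.integer →+* K) (ρ' : v'.integer →+* K) (π : ∀ i, (P i).integer →+* κ i) (e : ι → ℕ),
        Function.Surjective ρ → IsRed v' ρ' → Cmp (algebraMap L Z) ρ ρ' id →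
        (∀ i, IsRed (P i) (π i) ∧ Function.Surjective (π i) ∧
          Cmp (algebraMap L F) ρ (π i) (algebraMap K (κ i)) ∧ Idq (algebraMap L F) v (P i) (e i)) →
        V.val ρ' = ∑ i, e i • corN K (κ i) ((U i).val (π i)) := by
  obtain ⟨E, _, _, _, _, j, hq⟩ := exists_common (L := L) U fun i => (P i).integer.subtype
  obtain ⟨w, hw⟩ := vn_exists (E := E) v
  obtain ⟨Z, hD, hZ⟩ := exists_decf (L := L) w
  have hwZ : Over (algebraMap L Z) v (w.comap (algebraMap Z E)) := fun x => hw x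
  have hdZ : ∀ z : Z, Dns (algebraMap L Z) (w.comap (algebraMap Z E)) z := fun z n => by
    obtain ⟨a, ha⟩ := dns_of_dec (fun g hg => hZ g hg z z.2) n
    exact ⟨a, ha⟩
  obtain ⟨v', hv', hiff, h1, hd⟩ := dns_up hv hwZ hdZ
  have hw' : Over (algebraMap Z E) v' w := fun x => (hiff x).symm
  choose s hs using fun i => exists_emb_over j (ho i) hw
  have hsp : ∀ s' : F →ₐ[L] E, ∃! i, ∃ g : E ≃ₐ[Z] E, ∀ x, s' x = g (s i x) := fun s' => by
    have h0 : Over (algebraMap L F) v (w.comap (s' : F →+* E)) := fun x => by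
      rw [← hw x, ← s'.commutes x]
      rfl
    obtain ⟨π, hπ0, hπ⟩ := hv.exists_ord
    obtain ⟨Q, hQ, hQ'⟩ := vn_nrm ((map_ne_zero (algebraMap L F)).2 hπ0)
      ((h0.lt π).2 ((ord_pos hπ0).1 (by rw [hπ]; exact one_pos)))
    obtain ⟨i, rfl⟩ := hx Q hQ fun x => (hQ' _).trans (h0 x)
    obtain ⟨g, hg, e⟩ := emb_conj (s' := s') (hs i) fun x => (hQ' x).symm
    refine ⟨i, ⟨AlgEquiv.ofRingEquiv (f := g.toRingEquiv) fun z => hZ g hg z z.2, e⟩, ?_⟩
    rintro k ⟨g', e'⟩
    have hg' : g' ∈ Dec Z w := hD ▸ Subgroup.mem_top g'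
    refine hi (vn_eq (hn i) (hn k) fun x => ?_)
    rw [hQ', ← hs k x, ← hg' _]
    exact Iff.of_eq (congrArg (fun y => w y ≤ 1) (e' x).symm)
  choose q hq' using fun i => hq i (s i)
  choose V hV using fun i => cor_place hD (fun g hg z => hZ g hg z z.2) hv hv' h1 hd hw' (hn i)
    (s i) (hs i) (U i) (q i) (hq' i)
  obtain ⟨W, hW⟩ := UC.sum_val Finset.univ V
  refine ⟨Z, _, _, inferInstance, inferInstance, v', W, h1.isOver one_pos, hd, ?_, ?_⟩
  · rw [hW, cor_split j s hsp]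
    exact Finset.sum_congr rfl fun i _ => by rw [(hV i).1, hU]
  · intro K _ κ _ _ ρ ρ' π e sρ hρ' hc h
    rw [hW]
    exact Finset.sum_congr rfl fun i _ => (hV i).2 K (κ i) ρ ρ' (π i) (e i) sρ hρ' hc (h i).1
      (h i).2.1 (h i).2.2.1 (h i).2.2.2

/-- `triv_or_nrm`, `unram_triv`, `Unram.congr`; `cor_main` for the family of `fin_over`, `mem_loc`,
`unram_of_loc` -/
theorem unram_cor {α : BR F} (h : ∀ P : Vl F, Over (algebraMap L F) v P → α ∈ Loc P.integer) :
    Unram v (cor L F α) := by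
  rcases triv_or_nrm v with ht | ⟨v₀, hv₀, h1, h2⟩
  · exact unram_triv ht _
  · refine Unram.congr ?_ h2
    have : Fintype {P : Vl F // Nrm P ∧ Over (algebraMap L F) v₀ P} := (fin_over v₀).fintype
    choose U hU using fun i : {P : Vl F // Nrm P ∧ Over (algebraMap L F) v₀ P} =>
      mem_loc.1 (h i.1 fun x => (i.2.2 x).trans (h1 x))
    obtain ⟨Z, _, _, _, _, v', V, ho, hd, hV, -⟩ := cor_main hv₀ (fun i => i.2.1) (fun i => i.2.2)
      Subtype.val_injective (fun Q h1 h2 => ⟨⟨Q, h1, h2⟩, rfl⟩) U hU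
    exact unram_of_loc ho hd (mem_loc.2 ⟨V, hV⟩)

/-- `cor_main`, `dns_red`, `UC.bc_val` for `Over.int`, `UC.val_comp`, `UC.injv_eq` -/
theorem cor_val (hv : Nrm v) {ι : Type} [Fintype ι] {P : ι → Vl F} (hn : ∀ i, Nrm (P i))
    (hi : Function.Injective P) (hx : ∀ Q, Nrm Q → Over (algebraMap L F) v Q → ∃ i, Q = P i)
    (U : ∀ i, UC (P i).integer) {α : BR F} (hU : ∀ i, (U i).val (P i).integer.subtype = α)
    {κ : ι → Type} [∀ i, Field (κ i)] [∀ i, Algebra K (κ i)] {ρ : v.integer →+* K}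
    {π : ∀ i, (P i).integer →+* κ i} {e : ι → ℕ} (hρ : IsRed v ρ) (sρ : Function.Surjective ρ)
    (he : ∀ i, 0 < e i) (hπ : ∀ i, IsRed (P i) (π i) ∧ Function.Surjective (π i) ∧
      Cmp (algebraMap L F) ρ (π i) (algebraMap K (κ i)) ∧ Idq (algebraMap L F) v (P i) (e i))
    (W : UC v.integer) (hW : W.val v.integer.subtype = cor L F α) :
    W.val ρ = ∑ i, e i • corN K (κ i) ((U i).val (π i)) := by
  obtain ⟨Z, _, _, _, _, v', V, ho, hd, hV, hval⟩ := cor_main hv hn
    (fun i => (hπ i).2.2.2.isOver (Nat.cast_pos.2 (he i))) hi hx U hU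
  obtain ⟨ρ', hρ', c⟩ := dns_red ho (fun x _ => (hd x).exists_lt one_ne_zero) hρ
  obtain ⟨W', hW'⟩ := W.bc_val ho.int
  have e1 : ρ'.comp ho.int = ρ := RingHom.ext fun x => c x _ rfl
  rw [← hval K κ ρ ρ' π e sρ hρ' c hπ, ← e1, ← hW']
  refine W'.injv_eq V hρ' ?_
  rw [hW', hV, ← hW]
  exact W.val_comp v.integer.subtype (algebraMap L Z)

end Pool.Agent.ZCy.F
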