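import Pool.Agent.Lib.MP_751085_ag.ZF.W.Pe
import Pool.Agent.Lib.MP_751085_ag.ZF.EIf

/-! A class on the projective line without residues is constant. -/

namespace Pool.Agent.ZCy.F

open scoped Classical WithZero Polynomial
open groupCohomology

theorem pf_core {K K' K₀ T : Type} [Field K] [Field K'] [Field K₀] [Field T]
    [Algebra K K'] [FiniteDimensional K K'] [IsGalois K K'] [Algebra K[X] K₀] [Algebra K'[X] T]
    [IsFractionRing K'[X] T] [Algebra K₀ T] [FiniteDimensional K₀ T] [IsGalois K₀ T]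
    (r : (T ≃ₐ[K₀] T) ≃* (K' ≃ₐ[K] K'))
    (h1 : ∀ p : K[X], algebraMap K₀ T (algebraMap K[X] K₀ p) =
      algebraMap K'[X] T (p.map (algebraMap K K')))
    (h2 : ∀ g (p : K'[X]), g (algebraMap K'[X] T p) = algebraMap K'[X] T (p.map (r g : K' →+* K')))
    {c : (T ≃ₐ[K₀] T) × (T ≃ₐ[K₀] T) → Tˣ} (hc : IsMulCocycle₂ c)
    (h : ∀ (P : K[X]) (v : Vl K₀), Prime P → Cen (algebraMap K[X] K₀) v P → Unram v (cls K₀ c)) :
    ∃ b₀ : BR K, cls K₀ c = rs ((algebraMap K[X] K₀).comp Polynomial.C) b₀ := by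
  obtain ⟨_, ha⟩ := w2_act r.toMonoidHom
  obtain ⟨w, w1, w2, w3, w4, w5⟩ := poly_div K' T
  have hw : ∀ (g : T ≃ₐ[K₀] T) (P : MI K') (x : T), w (g • P) (g x) = w P x := fun g P x => by
    refine DFunLike.congr_fun (w3 P ((w (g • P)).comap (g : T →+* T)) ⟨fun a => ?_, fun a => ?_⟩ ?_) x
    · exact (congrArg _ (h2 g a)).trans_le ((w1 _).1 _)
    · change w _ (g _) < 1 ↔ _
      rw [h2, (w1 _).2, ha]
      exact Polynomial.map_dvd_map' _
    · change ord (w _) (g _) = 1
      rw [h2]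
      exact (congrArg (fun z => ord _ (algebraMap _ T z)) (ha g P)).symm.trans
        ((w2 _ _).trans (if_pos rfl))
  have ho : ∀ (g : T ≃ₐ[K₀] T) (P : MI K') (x : T), ord (w P) (g x) = ord (w (g⁻¹ • P)) x :=
    fun g P x => ord_congr (by rw [← hw g (g⁻¹ • P), smul_inv_smul])
  have hI : ∀ P, Ine K₀ (w P) = ⊥ := fun P => (Subgroup.eq_bot_iff_forall _).2 fun g hg =>
    r.map_eq_one_iff.1 (AlgEquiv.ext fun z => by
      have := hg.2 _ ((w1 P).1 (Polynomial.C z))
      rw [h2, Polynomial.map_C, ← map_sub, ← map_sub, (w1 P).2] at this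
      by_contra u
      exact P.2.2.not_isUnit (isUnit_of_dvd_unit this
        (Polynomial.isUnit_C.2 (sub_ne_zero.2 u).isUnit)))
  obtain ⟨D, hD⟩ := sh2z (G := T ≃ₐ[K₀] T) (S := MI K')
    (x := fun p => Finsupp.ofSupportFinite (fun P => ord (w P) (c p : T)) (w4 _))
    (fun g g' j s => by
      simp only [Finsupp.ofSupportFinite_coe]
      rw [← ho, ← ord_mul (Units.ne_zero _) (Units.ne_zero _),
        ← ord_mul ((map_ne_zero g).2 (Units.ne_zero _)) (Units.ne_zero _)]
      exact congrArg (fun z : Tˣ => ord (w s) (z : T)) (hc g g' j))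
    fun s => by
      obtain ⟨P, hP, e⟩ := exists_below (K := K) s
      obtain ⟨l, hl⟩ := (h P ((w s).comap (algebraMap K₀ T)) hP
        ⟨fun a => (congrArg _ (h1 a)).trans_le ((w1 s).1 _), fun a => by
          rw [Valuation.comap_apply, h1, (w1 s).2, e]⟩).int (over_comap _ _) (hI s) hc rfl
      have d : ∀ g ∈ MulAction.stabilizer (T ≃ₐ[K₀] T) s, g ∈ Dec K₀ (w s) := fun g hg x =>
        (congrArg (fun P => w P (g x)) hg).symm.trans (hw g s x)
      exact ⟨l, fun g hg g' hg' => hl g (d g hg) g' (d g' hg')⟩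
  choose e he using fun g => w2_div (u := fun Q : MI K' => algebraMap K'[X] T Q.1)
    (fun Q => (map_ne_zero_iff _ (IsFractionRing.injective _ _)).2 Q.2.1.ne_zero) w2 (D g)
  have hz : ∀ p, ∃ z : K'ˣ, ((c / dd e) p : T) = algebraMap K'[X] T (Polynomial.C (z : K')) :=
    fun p => by
      obtain ⟨z, hz⟩ := w5 _ ((c / dd e) p).ne_zero fun s => by
        have := hD p.1 p.2 s
        simp only [Finsupp.ofSupportFinite_coe] at this
        rw [Pi.div_apply, Units.val_div_eq_div_val, ord_div (Units.ne_zero _) (Units.ne_zero _), dd,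
          Units.val_mul, Units.val_div_eq_div_val,
          ord_mul (div_ne_zero (Units.ne_zero _) (Units.ne_zero _)) (Units.ne_zero _),
          ord_div (Units.ne_zero _) (Units.ne_zero _), he, he, this, ← he p.2, ← ho]
        exact sub_self _
      exact ⟨Units.mk0 z fun u => ((c / dd e) p).ne_zero (by rw [hz, u, map_zero, map_zero]), hz⟩
  choose z hz using hz
  let j : K' →+* T := (algebraMap K'[X] T).comp Polynomial.C
  have hr : ∀ (g : T ≃ₐ[K₀] T) (x : K'), j (r g x) = g (j x) := fun g x => by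
    rw [RingHom.comp_apply, RingHom.comp_apply, h2, Polynomial.map_C]
    rfl
  have hc' := coc_div hc (dd_coc e)
  have hc0 : IsMulCocycle₂ fun q : (K' ≃ₐ[K] K') × (K' ≃ₐ[K] K') => z (r.symm q.1, r.symm q.2) :=
    fun g g' i => Units.ext (j.injective (by
      obtain ⟨g, rfl⟩ := r.surjective g
      have hz' : ∀ p, j (z p) = ((c / dd e) p : T) := fun p => (hz p).symm
      change j (_ * _) = j (r g _ * _)
      simp only [map_mul, hr, hz', r.symm_apply_apply]
      exact congrArg Units.val (hc' _ _ _)))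
  refine ⟨cls K _, Eq.symm ((rs_cls _ (j := j) (fun a => ?_) (r := r) hr hc0).trans ?_)⟩
  · rw [RingHom.comp_apply, RingHom.comp_apply, h1, Polynomial.map_C]
  · rw [show pull j r _ = c / dd e from funext fun p => Units.ext (by
      simp only [pull, r.symm_apply_apply]
      exact (hz p).symm)]
    exact (cls_mul_dd hc' e).symm.trans (congrArg _ (div_mul_cancel _ _))

theorem p1 : P1 := fun K K₀ _ _ _ t ht hF b hb => by
  obtain ⟨K', _, _, H⟩ := p1_dies ht hF hb
  obtain ⟨_, _, e⟩ := w3b_frac ht hF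
  have e' : (algebraMap K[X] K₀).comp Polynomial.C = algebraMap K K₀ := RingHom.ext fun a => by
    rw [RingHom.comp_apply, e, Polynomial.aeval_C]
  obtain ⟨_, _, _, r, h1, h2⟩ := poly_gal K K' K₀
  obtain ⟨c, hc, rfl⟩ := exists_cls_of_rs _ (Fr K'[X] ≃ₐ[K₀] Fr K'[X])
    (H _ (algebraMap K₀ (Fr K'[X])) ((algebraMap K'[X] _).comp Polynomial.C) fun x => by
      rw [RingHom.comp_apply, ← Polynomial.map_C, ← h1, ← e']
      rfl)
  rw [← e']
  refine pf_core r h1 h2 hc fun P v hP hv => hb v fun x hx => ?_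
  rw [← e', RingHom.comp_apply]
  refine le_antisymm (hv.1 _) (not_lt.1 fun hl => hP.not_isUnit ?_)
  exact isUnit_of_dvd_unit ((hv.2 _).1 hl) (Polynomial.isUnit_C.2 (Ne.isUnit hx))

end Pool.Agent.ZCy.F
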