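import Pool.Agent.Lib.MP_751085_ag.ZF.W.Wa
import Pool.Agent.Lib.MP_751085_ag.ZF.W.Ce
import Pool.Agent.Lib.MP_751085_ag.ZF.W.Pf

/-! Reciprocity on curves. -/

namespace Pool.Agent.ZCy.F

open scoped Classical WithZero IntermediateField
open Module

variable {k K L F : Type} [Field k] [Field K] [Field L] [Field F] [Algebra K F] {X : Var k}
  [Algebra k K] [Algebra k F] [IsScalarTower k K F] {a : BR X.F} {g : Fin (X.N + 1) → F}
  {s : Finset (ZeroCyc.Place K F (AlgebraicClosure K))}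
  {x : ZeroCyc.Place K F (AlgebraicClosure K) → Fin (X.N + 1) → AlgebraicClosure K}

theorem wr_sum1 {A ι : Type} [AddCommGroup A] {s : Finset ι} {n : ι → ℤ} {y : ι → A} {b : A}
    (e : ∑ i ∈ s with 0 < n i, n i • y i = b) (e' : ∑ i ∈ s with 0 < -n i, -n i • y i = b) :
    ∑ i ∈ s, n i • y i = 0 := by
  rw [Finset.sum_filter] at e e'
  rw [← sub_self b, ← congrArg₂ (· - ·) e e', ← Finset.sum_sub_distrib]
  refine Finset.sum_congr rfl fun i _ => ?_
  rcases lt_trichotomy (n i) 0 with h | h | h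
  · rw [if_neg h.not_gt, if_pos (neg_pos.2 h), neg_smul, zero_sub, neg_neg]
  · simp [h]
  · rw [if_pos h, if_neg (neg_neg_iff_pos.2 h).not_gt, sub_zero]

theorem wr_sum2 {A ι : Type} [AddCommGroup A] {s s' : Finset ι} {n m l : ι → ℤ} {y z : ι → A}
    (h : s ⊆ s') (h0 : ∀ i ∈ s', i ∉ s → n i = 0) (hl : ∀ i, l i = n i + m i)
    (hz : ∀ i ∈ s, y i = z i) (e : ∑ i ∈ s', l i • y i = 0) (e' : ∑ i ∈ s', m i • y i = 0) :
    ∑ i ∈ s, n i • z i = 0 := by
  simp only [hl, add_smul, Finset.sum_add_distrib, e', add_zero] at e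
  rw [← e, ← Finset.sum_subset h fun i hi hn => by rw [h0 i hi hn, zero_smul]]
  exact Finset.sum_congr rfl fun i hi => by rw [hz i hi]

theorem wr_sum3 {A ι : Type} [AddCommGroup A] {s : Finset ι} {n : ι → ℤ} {y : ι → A} {z : s → A}
    (h : ∀ i ∈ s, 0 < n i) (hz : ∀ i, z i = y i) :
    ∑ i ∈ s, n i • y i = ∑ i : s, (n i).toNat • z i := by
  rw [← Finset.sum_coe_sort]
  exact Finset.sum_congr rfl fun i _ => by
    rw [hz, ← natCast_zsmul, Int.toNat_of_nonneg (h i i.2).le]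

theorem wr_half (h : EvApi X) (ha : a ∈ X.Bw) (hg : X.On g) [Algebra K L] [Algebra L F]
    [IsScalarTower K L F] [FiniteDimensional L F] [Algebra.IsSeparable L F] {τ : L}
    (hτ : Transcendental K τ) (hL : K⟮τ⟯ = ⊤) {b : BR K}
    (hb : cor L F (X.vl a F g) = rs (algebraMap K L) b)
    (hi : Set.InjOn (fun P => P.v) (s : Set (ZeroCyc.Place K F (AlgebraicClosure K))))
    (hs : ∀ P' : ZeroCyc.Place K F (AlgebraicClosure K), ord P'.v (algebraMap L F τ) ≠ 0 →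
      ∃ P ∈ s, P'.v = P.v) (hx : ∀ P ∈ s, x P ≠ 0 ∧ ∃ c, ∀ i, P.Val (c * g i) (x P i)) :
    ∑ P ∈ s with 0 < ord P.v (algebraMap L F τ),
      ord P.v (algebraMap L F τ) • X.ptv a (plF P) (x P) = b := by
  obtain ⟨v, ρ, hv, hT, hρ, hK, hu⟩ := exists_v0 hτ hL
  have h0 : algebraMap L F τ ≠ 0 := (map_ne_zero _).2 fun e => hτ (e ▸ isAlgebraic_zero)
  have tow := IsScalarTower.algebraMap_apply K L F
  choose hK hK' using hK
  obtain ⟨ι, hι⟩ : ∃ ι, ι = s.filter fun P => 0 < ord P.v (algebraMap L F τ) := ⟨_, rfl⟩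
  have m1 : ∀ i : ι, i.1 ∈ s := fun i => (Finset.mem_filter.1 (hι.le i.2)).1
  have m2 : ∀ i : ι, 0 < ord i.1.v (algebraMap L F τ) := fun i => (Finset.mem_filter.1 (hι.le i.2)).2
  have ho : ∀ i : ι, Over (algebraMap L F) v i.1.v := fun i =>
    hu (i.1.v.comap (algebraMap L F)) (fun z hz => (congrArg i.1.v (tow z)).symm.trans
      ((place_facts i.1).2.2 z hz)) ((ord_pos h0).1 (m2 i))
  choose c hc using fun i : ι => (hx _ (m1 i)).2
  choose U hU hU' using fun i : ι => h.place_uc ha hg i.1 (hx _ (m1 i)).1 (hc i)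
  obtain ⟨W, hW⟩ := exists_uc_const b ((algebraMap K L).codRestrict v.integer hK)
  have e := cor_val (K := K) ⟨τ, hv⟩ (fun i : ι => (place_facts i.1).1)
    (fun i j e => Subtype.ext (hi (m1 i) (m1 j) e)) (fun Q hQ hvQ => ?_) U hU
    (π := fun i => plH i.1) (e := fun i => (ord i.1.v (algebraMap L F τ)).toNat) hρ
    (fun z => ⟨_, hK' z⟩) (fun i => Int.lt_toNat.2 (m2 i)) (fun i => ⟨(plH_spec _).1,
      (plH_spec _).2.1, fun y z hz => ?_, idx_iff.1 (vord_idx (ho i) hv ?_)⟩) W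
    ((hW _ _).trans hb.symm)
  · rw [hW, show ρ.comp ((algebraMap K L).codRestrict v.integer hK) = RingHom.id K from
      RingHom.ext hK'] at e
    rw [← hι]
    exact (wr_sum3 (A := BR K) (fun i hi => m2 ⟨i, hi⟩) hU').trans (e.symm.trans (res_id b))
  · obtain ⟨ρ', -, h2⟩ := vn_redext hvQ (ρ := (algebraMap K (AlgebraicClosure K)).comp ρ)
      fun y => (map_eq_zero (algebraMap K _)).trans (hρ y)
    have h3 : 0 < ord Q (algebraMap L F τ) := (ord_pos h0).2 ((hvQ.lt_one τ).2 (by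
      rw [hv, ← WithZero.exp_zero, WithZero.exp_lt_exp]
      norm_num))
    obtain ⟨P, hP, e⟩ := hs ⟨Q, hQ.surj, ρ', fun z => ⟨tow z ▸ (hvQ _).2 (hK z),
      (h2 ⟨_, hK z⟩ _ (tow z)).trans (congrArg (algebraMap K _) (hK' z))⟩⟩ h3.ne'
    exact ⟨⟨P, hι.ge (Finset.mem_filter.2 ⟨hP, (show Q = P.v from e) ▸ h3⟩)⟩, e⟩
  · obtain ⟨h1, h2⟩ := (plH_spec i.1).2.2 (ρ y)
    rw [← h2, ← sub_eq_zero, ← map_sub, (plH_spec i.1).1]
    have := ((ho i).lt_one _).2 ((hρ (y - ⟨_, hK (ρ y)⟩)).1 (by rw [map_sub, hK', sub_self]))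
    rwa [AddSubgroupClass.coe_sub, map_sub, ← hz, ← tow] at this
  · rw [Int.toNat_of_nonneg (m2 i).le, ← ord_eq h0]

theorem wr_sep (h : EvApi X) (ha : a ∈ X.Bw) (hg : X.On g) {f : F} (hf : Transcendental K f)
    [FiniteDimensional K⟮f⟯ F] [Algebra.IsSeparable K⟮f⟯ F]
    (hi : Set.InjOn (fun P => P.v) (s : Set (ZeroCyc.Place K F (AlgebraicClosure K))))
    (hs : ∀ P' : ZeroCyc.Place K F (AlgebraicClosure K), ord P'.v f ≠ 0 → ∃ P ∈ s, P'.v = P.v)
    (hx : ∀ P ∈ s, x P ≠ 0 ∧ ∃ c, ∀ i, P.Val (c * g i) (x P i)) :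
    ∑ P ∈ s, ord P.v f • X.ptv a (plF P) (x P) = 0 := by
  have ht : Transcendental K (IntermediateField.AdjoinSimple.gen K f) := fun h =>
    hf (h.algebraMap (A := F))
  obtain ⟨b, hb⟩ := p1 K K⟮f⟯ _ ht (w3b_gen_top f) (cor K⟮f⟯ F (X.vl a F g)) fun v hv =>
    unram_cor fun P hP => h.mem_loc (K := K) ha hg fun z hz => (hP.eq_one _).2 (hv z hz)
  have u' : algebraMap K⟮f⟯ F (IntermediateField.AdjoinSimple.gen K f)⁻¹ = f⁻¹ := map_inv₀ _ _
  have e := wr_half h ha hg ht (w3b_gen_top f) hb hi hs hx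
  have e' := wr_half h ha hg (fun h => ht (IsAlgebraic.inv_iff.1 h)) (w3b_inv_top (w3b_gen_top f))
    hb hi (by simpa only [u', ord_inv, neg_ne_zero] using hs) hx
  simp only [u', ord_inv] at e'
  exact wr_sum1 (A := BR K) e e'

theorem wr : WR := by
  intro k _ X h a ha K E _ _ _ _ _ _ t ht _ _ g f s x hg hf hi hs hx
  rcases sep_or (K := K) (t := t) hf with h1 | h1
  · have h2 := transc_of_sep (f := f) ht
    have := finite_of_transc (t := t) h2
    exact wr_sep h ha hg h2 hi hs hx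
  have h2 := transc_of_sep (f := f * t) ht
  have := finite_of_transc (t := t) h2
  have h0 : t ≠ 0 := fun e => ht (e ▸ isAlgebraic_zero)
  obtain ⟨s', h3, h4, h5⟩ := exists_enl (fun P : ZeroCyc.Place K E (AlgebraicClosure K) => P.v) s hi
    (fin_ord ht)
  have h6 : ∀ P : ZeroCyc.Place K E (AlgebraicClosure K), ∃ y : Fin (X.N + 1) → AlgebraicClosure K,
      (P ∈ s → y = x P) ∧ y ≠ 0 ∧ ∃ c, ∀ i, P.Val (c * g i) (y i) := fun P => by
    by_cases hP : P ∈ s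
    · exact ⟨x P, fun _ => rfl, hx P hP⟩
    obtain ⟨c, hc, i, e⟩ := exists_scale P.v hg.1
    exact ⟨fun i => P.ev ⟨_, hc i⟩, fun h => (hP h).elim, fun e' => e.not_lt
      (((place_facts P).2.1 _).1 (congrFun e' i)), c, fun i => ⟨hc i, rfl⟩⟩
  choose y hy hy' using h6
  have h7 : ∀ P' : ZeroCyc.Place K E (AlgebraicClosure K), ord P'.v t ≠ 0 → ∃ P ∈ s', P'.v = P.v :=
    fun P hP => h5 P ⟨(place_facts P).1, (place_facts P).2.2, hP⟩
  refine wr_sum2 (A := BR K) (y := fun P => X.ptv a (plF P) (y P)) h3 (fun P hP hn => by_contra fun h8 => ?_) (fun _ => ord_mul hf h0)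
    (fun P hP => by rw [hy P hP]) (wr_sep h ha hg h2 h4 (fun P hP => ?_) fun P _ => hy' P)
    (wr_sep h ha hg ht h4 h7 fun P _ => hy' P)
  · obtain ⟨Q, hQ, e⟩ := hs P h8
    exact hn (h4 hP (h3 hQ) e ▸ hQ)
  · by_cases h8 : ord P.v t = 0
    · rw [ord_mul hf h0, h8, add_zero] at hP
      exact (hs P hP).imp fun _ h => ⟨h3 h.1, h.2⟩
    · exact h7 P h8

end Pool.Agent.ZCy.F
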