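import Pool.Agent.Lib.MP_751085_ag.ZF.E.U3
import Pool.Agent.Lib.MP_751085_ag.ZF.A2b
import Pool.Agent.Lib.MP_751085_ag.ZC.V.Gal

/-! Families of points of a covering; corestriction as a product over embeddings. -/

namespace Pool.Agent.ZCy.F

open scoped Classical
open groupCohomology Module

section fam

variable {O Γ S T : Type} [CommRing O] [Group Γ] [MulAction Γ S] [Field T]
  [MulSemiringAction Γ T] (U : UC O)

/-- `γ` describes the action of `Γ` on the family of points `ρ` -/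
def UC.Fam (ρ : S → U.A →+* T) (γ : Γ → S → U.G) : Prop :=
  ∀ g s y, ρ s (γ g s • y) = g • ρ (g⁻¹ • s) y

/-- the cocycle of a family of points -/
def UC.fam (ρ : S → U.A →+* T) (γ : Γ → S → U.G) (p : Γ × Γ) : Ind Tˣ S :=
  fun s => Units.map (ρ s : U.A →* T) (U.c (γ p.1 s, γ p.2 (p.1⁻¹ • s)))

variable {U} {ρ : S → U.A →+* T} {γ : Γ → S → U.G}

theorem UC.exists_fam (h : ∀ (g : Γ) s o, ρ s (U.i o) = g • ρ (g⁻¹ • s) (U.i o)) :
    ∃ γ : Γ → S → U.G, U.Fam ρ γ := by
  choose γ hγ using fun (g : Γ) s => U.conj (ρ s)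
    ((MulSemiringAction.toRingHom Γ T g).comp (ρ (g⁻¹ • s))) fun o => (h g s o).symm
  exact ⟨γ, fun g s y => (hγ g s y).symm⟩

theorem UC.eq_of {T' : Type} [CommRing T'] [Nontrivial T'] (q : U.A →+* T') {a b : U.G}
    (h : ∀ y, q (a • y) = q (b • y)) : a = b :=
  mul_inv_eq_one.1 (U.eq_one q fun y => by rw [mul_smul, h, smul_inv_smul])

theorem UC.Fam.mul (h : U.Fam ρ γ) (g g' : Γ) (s : S) :
    γ (g * g') s = γ g s * γ g' (g⁻¹ • s) :=
  UC.eq_of (ρ s) fun y => by rw [mul_smul, h, h, h, mul_smul, mul_inv_rev, mul_smul]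

theorem UC.Fam.coc (h : U.Fam ρ γ) : IsMulCocycle₂ (U.fam ρ γ) := fun g g' k => funext fun s => by
  have e := congrArg (Units.map (ρ s : U.A →* T))
    (U.coc (γ g s) (γ g' (g⁻¹ • s)) (γ k (g'⁻¹ • g⁻¹ • s)))
  rw [map_mul, map_mul] at e
  simp only [Ind.mul_apply, Ind.smul_apply, UC.fam, h.mul, mul_inv_rev, mul_smul]
  exact e.trans (congrArg (· * _) (Units.ext (h g s _)))

end fam

variable {L Z F T E : Type} [Field L] [Field Z] [Field F] [Field T] [Field E]

/-- corestriction is the product over the embeddings -/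
theorem UC.Fam.cor_eq [Algebra L F] [FiniteDimensional L F] [Algebra.IsSeparable L F] {O : Type}
    [CommRing O] {U : UC O} {ρ : Em L F → U.A →+* SC L} {γ : Gm L → Em L F → U.G} (h : U.Fam ρ γ)
    {ψ : O →+* F} (h0 : ∀ s o, ρ s (U.i o) = s.hom (ψ o)) :
    (fun p => ∏ s, U.fam ρ γ p s) ∈ Z2 L (SC L) ∧
      cor L F (U.val ψ) = cl L _ fun p => ∏ s, U.fam ρ γ p s := by
  obtain ⟨t, ht⟩ := U.exists_dec
  have hγ : IsLocallyConstant γ := lc_pi fun s =>
    IsLocallyConstant.desc (fun g => γ g s) (fun (a : U.G) (y : t) => ρ s (a • y.1))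
      (lc_pi fun y => (funext fun g => h g s y.1 : (fun g => ρ s (γ g s • y.1)) = _) ▸
        (lc_pi fun u => lc_apply (K := L) (ρ u y.1)).comp₂
          ((em_lc s).comp_continuous continuous_inv) fun a u => a u)
      fun a b e => ht _ (ρ s) a b fun y hy => congrFun e ⟨y, hy⟩
  have hl : IsLocallyConstant (U.fam ρ γ) := lc_pi fun s =>
    (hγ.comp_continuous continuous_fst).comp₂ ((hγ.comp_continuous continuous_snd).comp₂
      (a3_lc_smul continuous_fst.inv (IsLocallyConstant.const s)) fun a u => a u)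
      fun a b => Units.map (ρ s : U.A →* SC L) (U.c (a s, b))
  obtain ⟨j⟩ : Nonempty (Em L F) := ⟨(IsSepClosed.lift : F →ₐ[L] SC L)⟩
  obtain ⟨J, r, -, hJ, hr, hm, -⟩ := em_link j
  have hj : ∀ g, (r g)⁻¹ • j = j := fun g => (inv_mem (hm g) :)
  have ha : U.At ψ ((J : SC L →+* SC F).comp (ρ j)) fun g => γ (r g) j :=
    ⟨fun o => (congrArg J (h0 j o)).trans (hJ _), fun g y =>
      (congrArg J ((h (r g) j y).trans (by rw [hj]; rfl))).trans (hr g _)⟩
  have hs : Shap (U.fam ρ γ) (U.val ψ) := shap_of_cmp h.coc hl (J := (J : SC L →+* SC F)) hJ hr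
    (ha.val_eq.trans (congrArg _ (funext fun p => by
      simp only [pull, UC.fam, hj]
      rfl)))
  exact ⟨hs.prod_mem, hs.corF_eq⟩

variable [Algebra Z T] [Algebra Z E]

variable (Z T E) in
/-- the embeddings of `T` into `E` over `Z` -/
def EmE : Type := T →ₐ[Z] E

instance : MulAction (E ≃ₐ[Z] E) (EmE Z T E) where
  smul g j := (g : E →ₐ[Z] E).comp j
  one_smul _ := rfl
  mul_smul _ _ _ := rfl

noncomputable instance [FiniteDimensional Z T] : Fintype (EmE Z T E) :=
  inferInstanceAs (Fintype (T →ₐ[Z] E))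

/-- the underlying homomorphism -/
def EmE.hom (j : EmE Z T E) : T →ₐ[Z] E := j

theorem EmE.smul_hom (g : E ≃ₐ[Z] E) (j : EmE Z T E) (x : T) : (g • j).hom x = g (j.hom x) := rfl

theorem EmE.ext {j j' : EmE Z T E} (h : ∀ x, j.hom x = j'.hom x) : j = j' := AlgHom.ext h

/-- the action is transitive -/
theorem eme_trans [Normal Z E] (s s' : EmE Z T E) : ∃ g : E ≃ₐ[Z] E, s' = g • s := by
  let : Algebra T E := (s.hom : T →+* E).toAlgebra
  have : IsScalarTower Z T E := IsScalarTower.of_algebraMap_eq fun a => (s.hom.commutes a).symm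
  exact ⟨AlgEquiv.ofBijective (s'.hom.liftNormal E) (Algebra.IsAlgebraic.algHom_bijective _),
    EmE.ext fun x => (s'.hom.liftNormal_commutes E x).symm⟩

theorem eme_card [FiniteDimensional Z T] [Algebra.IsSeparable Z T] [Normal Z E] (s : EmE Z T E) :
    Fintype.card (EmE Z T E) = finrank Z T := by
  refine AlgHom.card_of_splits Z T E fun x => ?_
  rw [← minpoly.algHom_eq s.hom s.hom.injective x]
  exact Normal.splits inferInstance _

/-- the same at a finite level -/
theorem UC.Fam.cor_fin [FiniteDimensional Z T] [Algebra.IsSeparable Z T] [FiniteDimensional Z E]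
    [IsGalois Z E] (s₀ : EmE Z T E) {O : Type} [CommRing O] {U : UC O}
    {ρ : EmE Z T E → U.A →+* E} {γ : (E ≃ₐ[Z] E) → EmE Z T E → U.G} (h : U.Fam ρ γ) {ψ : O →+* T}
    (h0 : ∀ s o, ρ s (U.i o) = s.hom (ψ o)) :
    cor Z T (U.val ψ) = cls Z fun p => ∏ s, U.fam ρ γ p s := by
  obtain ⟨⟨j, r⟩, hr⟩ := a2_ex Z E (E ≃ₐ[Z] E)
  let f : EmE Z T E → Em Z T := fun s => j.comp s.hom
  have hf : Function.Bijective f := (Fintype.bijective_iff_injective_and_card f).2
    ⟨fun s s' e => EmE.ext fun x => j.injective (congrArg (fun u : Em Z T => u.hom x) e), by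
      rw [eme_card s₀, ← a3c_card_em, Nat.card_eq_fintype_card]⟩
  let e := Equiv.ofBijective f hf
  have he : ∀ g s, e (r g • s) = g • e s := fun g s => a3c_em_ext fun x => hr g (s.hom x)
  have hs : ∀ g t, e.symm (g⁻¹ • t) = (r g)⁻¹ • e.symm t := fun g t =>
    eq_inv_smul_iff.2 (e.injective (by
      rw [he, e.apply_symm_apply, e.apply_symm_apply, smul_inv_smul]))
  have h' : U.Fam (fun t => (j : E →+* SC Z).comp (ρ (e.symm t))) fun g t => γ (r g) (e.symm t) :=
    fun g t y => by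
      beta_reduce
      rw [hs]
      exact (congrArg j (h (r g) _ y)).trans (hr g _)
  rw [(h'.cor_eq (ψ := ψ) fun t o => (congrArg j (h0 _ o)).trans
      (congrArg (fun u : Em Z T => u.hom (ψ o)) (e.apply_symm_apply t))).2,
    cls_eq_cl (j := (j : E →+* SC Z)) (fun a => j.commutes a) hr (ind_prod_coc h.coc)]
  refine congrArg _ (funext fun p => ?_)
  rw [pull, map_prod]
  refine Fintype.prod_equiv e.symm _ _ fun t => ?_
  simp only [UC.fam, hs]
  rfl

theorem UC.sum_val {O ι : Type} [CommRing O] (s : Finset ι) (V : ι → UC O) : ∃ W : UC O,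
    ∀ (M : Type) [Field M] (ψ : O →+* M), W.val ψ = ∑ i ∈ s, (V i).val ψ := by
  induction s using Finset.induction_on with
  | empty => exact (UC.zero_val O).imp fun W hW M _ ψ => (hW M ψ).trans rfl
  | insert a s ha ih =>
    obtain ⟨W, hW⟩ := ih
    refine ((V a).add_val W).imp fun W' h M _ ψ => ?_
    rw [h, hW, Finset.sum_insert ha]

/-- Work in `SC L`: `j₀` from `IsSepClosed.lift`, points `ρ i` above `j₀ ∘ ψ i` (`UC.exists_pt` with
`M = Ω = SC L`); by `UC.expand` the values of `ρ i` lie in every subfield that contains the image of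
`j₀` and the finitely many `ρ i (x k)`; `a2b_level`, `exists_level`. For other `s` use
`eme_trans`. -/
theorem exists_common [Algebra L F] [FiniteDimensional L F] [Algebra.IsSeparable L F] {ι : Type}
    [Finite ι] {O : ι → Type} [∀ i, CommRing (O i)] (U : ∀ i, UC (O i)) (ψ : ∀ i, O i →+* F) :
    ∃ (E : Type) (_ : Field E) (_ : Algebra L E) (_ : FiniteDimensional L E) (_ : IsGalois L E)
      (_ : F →ₐ[L] E), ∀ i (s : F →ₐ[L] E), ∃ q : (U i).A →+* E,
        ∀ o, q ((U i).i o) = s (ψ i o) := by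
  let j₀ : F →ₐ[L] SC L := IsSepClosed.lift
  choose ρ hρ using fun i => (U i).exists_pt ((j₀ : F →+* SC L).comp (ψ i)) (SC L)
  choose m x y hc using fun i => (U i).crd
  obtain ⟨s₀, hs₀⟩ := a2b_level j₀
  have := Fintype.ofFinite ι
  obtain ⟨E, hf, hg, hE⟩ := exists_level (K := L)
    (s₀ ∪ Finset.univ.image fun p : Σ i, Fin (m i) => ρ p.1 (x p.1 p.2))
  obtain ⟨φ, hφ⟩ := hs₀ E fun y hy => hE y (Finset.mem_union_left _ hy)
  have h1 : ∀ i o, ρ i ((U i).i o) = (φ (ψ i o) : SC L) := fun i o => (hρ i o).trans (hφ _).symm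
  have h2 : ∀ i a, ρ i a ∈ E := fun i a => by
    rw [(U i).expand (hc i) a, map_sum]
    refine sum_mem fun k _ => ?_
    obtain ⟨o, ho⟩ := (U i).exists_tr (y i k * a)
    rw [map_mul, ← ho, h1]
    exact mul_mem (hE _ (Finset.mem_union_right _
      (Finset.mem_image_of_mem _ (Finset.mem_univ (⟨i, k⟩ : Σ i, Fin (m i)))))) (φ _).2
  refine ⟨E, inferInstance, inferInstance, hf, hg, φ, fun i s => ?_⟩
  obtain ⟨g, hg⟩ := eme_trans (Z := L) (T := F) (E := E) φ s
  refine ⟨(g : E →+* E).comp ((ρ i).codRestrict E (h2 i)), fun o => ?_⟩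
  rw [show s (ψ i o) = g (φ (ψ i o)) from congrArg (fun t => EmE.hom t (ψ i o)) hg]
  exact congrArg g (Subtype.ext (h1 i o))

variable (Z) in
/-- the compositum of `Z` and the image of `s` -/
noncomputable def cmF (s : F →+* E) : IntermediateField Z E :=
  IntermediateField.adjoin Z (Set.range s)

variable (Z) in
/-- the map to the compositum -/
noncomputable def cmH (s : F →+* E) : F →+* cmF Z s :=
  s.codRestrict (cmF Z s) fun x => IntermediateField.subset_adjoin _ _ ⟨x, rfl⟩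

theorem coe_cmH (s : F →+* E) (x : F) : (cmH Z s x : E) = s x := rfl

/-- `cor_mk` with `n = 1`. Fix `J : E →ₐ[Z] SC Z`. Every `τ : F →+* SC Z` over `L` is `J ∘ s'`
(`exists_twist_sub` over `L` with `j`), every `ψ : Em Z (cmF Z (s i))` is `J ∘ g` on the compositum
(`exists_twist_sub` over `Z`), and `ψ` is determined by `ψ ∘ cmH`
(`IntermediateField.adjoin_algHom_ext`). -/
theorem cor_split [Algebra L F] [FiniteDimensional L F] [Algebra.IsSeparable L F] [Algebra L Z]
    [Algebra L E] [IsScalarTower L Z E] [Normal L E] [FiniteDimensional Z E] [IsGalois Z E]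
    (j : F →ₐ[L] E) {ι : Type} [Fintype ι] (s : ι → F →ₐ[L] E)
    (h : ∀ s' : F →ₐ[L] E, ∃! i, ∃ g : E ≃ₐ[Z] E, ∀ x, s' x = g (s i x)) (α : BR F) :
    rs (algebraMap L Z) (cor L F α) =
      ∑ i, cor Z (cmF Z (s i : F →+* E)) (rs (cmH Z (s i : F →+* E)) α) := by
  let J : E →ₐ[Z] SC Z := IsSepClosed.lift
  refine ((cor_mk (algebraMap L Z) (fun i => cmF Z (s i : F →+* E))
    (fun i => cmH Z (s i : F →+* E)) (fun i a => Subtype.ext (((s i).commutes a).trans
      (IsScalarTower.algebraMap_apply L Z E a))) 1 (fun τ hτ => ?_) α).trans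
      (@one_nsmul _ (brMonoid Z (SC Z)).toAddMonoid _)).symm
  obtain ⟨g₀, h₀⟩ := exists_twist_sub (K := L) (j : F →+* E) j.commutes (J : E →+* SC Z) τ
    fun a => by
      rw [hτ, IsScalarTower.algebraMap_apply L Z E a]
      exact (J.commutes _).symm
  obtain ⟨i, ⟨g, hg⟩, hu⟩ := h ((g₀ : E →ₐ[L] E).comp j)
  refine Nat.card_eq_one_iff_exists.2 ⟨⟨⟨i, J.comp ((g : E →ₐ[Z] E).comp
    (cmF Z (s i : F →+* E)).val)⟩, fun x => ((h₀ x).trans (congrArg J (hg x))).symm⟩, ?_⟩
  rintro ⟨⟨i', ψ⟩, hψ⟩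
  obtain ⟨g', hg'⟩ := exists_twist_sub (K := Z) (cmF Z (s i' : F →+* E)).val.toRingHom
    (fun _ => rfl) (J : E →+* SC Z) ψ.hom.toRingHom fun a =>
      (ψ.hom.commutes a).trans (J.commutes a).symm
  obtain rfl : i' = i := hu i' ⟨g', fun x => J.injective
    ((h₀ x).symm.trans ((hψ x).symm.trans (hg' _)))⟩
  refine Subtype.ext (congrArg (Sigma.mk i') ?_)
  refine IntermediateField.adjoin_algHom_ext Z ?_
  rintro _ ⟨x, rfl⟩
  exact (hψ x).trans ((h₀ x).trans (congrArg J (hg x)))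

end Pool.Agent.ZCy.F
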