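import Pool.Agent.Lib.MP_751085_ag.ZF.R6b
import Pool.Agent.Lib.MP_751085_ag.ZC.W1
import Pool.Agent.Lib.MP_751085_ag.ZC.V.DecB

/-! Places above a place: embeddings, decomposition fields, the degree formula. -/

namespace Pool.Agent.ZCy.F

open scoped Classical WithZero
open Module

variable {L F T Z E K κ : Type} [Field L] [Field F] [Field T] [Field Z] [Field E] [Field K]
  [Field κ]

/-- normalise a valuation in which `F` is dense -/
theorem dns_up {φ : F →+* T} {P : Vl F} {u₀ : Vl T} (hP : Nrm P) (ho : Over φ P u₀)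
    (hd : ∀ x, Dns φ u₀ x) :
    ∃ u : Vl T, Nrm u ∧ (∀ x, u x ≤ 1 ↔ u₀ x ≤ 1) ∧ Idq φ P u 1 ∧ ∀ x, Dns φ u x := by
  obtain ⟨π, h0, hπ⟩ := hP.exists_ord
  obtain ⟨u, hu, e⟩ := vn_nrm ((map_ne_zero φ).2 h0) ((ho.lt π).2 ((ord_pos h0).1 (by omega)))
  have h1 : Over (RingHom.id T) u₀ u := e
  obtain ⟨t, ht⟩ := id hu
  have t0 : t ≠ 0 := u.ne_zero_iff.1 (ht ▸ WithZero.exp_ne_zero)
  obtain ⟨a, ha⟩ := (hd t).exists_lt (r0_ne u₀ t0)
  obtain ⟨n, -, hn⟩ := Over.idx (φ := φ) (v' := u) (fun x => (e _).trans (ho x)) hP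
  have h2 := hn.ord a
  rw [ord_eq_of u ((u.map_eq_of_sub_lt ((u.map_sub_swap _ _).trans_lt
    ((h1.lt_iff _ _).2 ha))).trans ht)] at h2
  obtain rfl : n = 1 := by exact_mod_cast Int.eq_one_of_mul_eq_one_right n.cast_nonneg h2.symm
  refine ⟨u, hu, e, by simpa using idx_iff.1 hn, fun x n => ?_⟩
  obtain ⟨b, hb⟩ := (hd x).exists_lt (r0_ne u₀ (pow_ne_zero n t0))
  refine ⟨b, ((h1.lt_iff _ _).2 hb).le.trans_eq ?_⟩
  rw [RingHom.id_apply, map_pow, ht, ← WithZero.exp_nsmul]
  simp

/-- a residue map extends if the residue field does not grow -/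
theorem dns_red {φ : F →+* T} {P : Vl F} {u : Vl T} (ho : Over φ P u)
    (hd : ∀ x, u x ≤ 1 → ∃ a, u (x - φ a) < 1) {π : P.integer →+* κ} (hπ : IsRed P π) :
    ∃ π' : u.integer →+* κ, IsRed u π' ∧ Cmp φ π π' id := by
  obtain ⟨κ', _, ρ, hρ, hs⟩ := exists_resf u
  obtain ⟨i, hi⟩ := (hρ.comp_int ho).factor (fun y => by
    obtain ⟨x, rfl⟩ := hs y
    obtain ⟨a, ha⟩ := hd x x.2
    have h1 : u (φ a) ≤ 1 := by simpa using u.map_sub_le x.2 ha.le
    exact ⟨⟨a, (ho a).1 h1⟩, ((hρ.eq_iff x (ho.int ⟨a, (ho a).1 h1⟩)).2 ha).symm⟩) hπ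
  exact ⟨i.comp ρ, hρ.comp i, fun x y e => (show y = ho.int x from Subtype.ext e) ▸ hi x⟩

section gal

variable [Algebra L F] [Algebra L E] [FiniteDimensional L E] [IsGalois L E] {v : Vl L} {P : Vl F}
  {w : Vl E}

theorem exists_emb_over (j : F →ₐ[L] E) (hP : Over (algebraMap L F) v P)
    (hw : Over (algebraMap L E) v w) : ∃ s : F →ₐ[L] E, Over (s : F →+* E) P w := by
  let := j.toRingHom.toAlgebra
  have : IsScalarTower L F E := .of_algebraMap_eq fun a => (j.commutes a).symm
  have : FiniteDimensional F E := .right L F E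
  obtain ⟨w', hw'⟩ := vn_exists (E := E) P
  obtain ⟨g, hg⟩ := vn_conj hw (IsScalarTower.algebraMap_eq L F E ▸ hP.comp hw')
  exact ⟨(g : E →ₐ[L] E).comp j, fun x => (hg _).symm.trans (hw' x)⟩

theorem emb_conj {s s' : F →ₐ[L] E} (h : Over (s : F →+* E) P w) (h' : Over (s' : F →+* E) P w) :
    ∃ g ∈ Dec L w, ∀ x, s' x = g (s x) := by
  obtain ⟨g, hg⟩ := exists_twist_sub (s : F →+* E) s.commutes (RingHom.id E) (s' : F →+* E)
    s'.commutes
  let := s.toRingHom.toAlgebra
  have : IsScalarTower L F E := .of_algebraMap_eq fun a => (s.commutes a).symm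
  have : FiniteDimensional F E := .right L F E
  have : IsGalois F E := .tower_top_of_isGalois L F E
  obtain ⟨t, ht⟩ := vn_conj (K := F) (w := w.comap (g : E →+* E))
    (fun x => (iff_of_eq (congrArg (w · ≤ 1) (hg x))).symm.trans (h' x)) h
  exact ⟨g * t.restrictScalars L, vn_dec fun x => (ht x).symm, fun x =>
    (hg x).trans (congrArg g (t.commutes x).symm)⟩

/-- the fixed field of `Dec L w` -/
theorem exists_decf (w : Vl E) : ∃ Z : IntermediateField L E, Dec Z w = ⊤ ∧
    ∀ g ∈ Dec L w, ∀ z ∈ Z, g z = z := by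
  refine ⟨.fixedField (Dec L w), eq_top_iff.2 fun g _ => ?_, fun g hg z hz => hz ⟨g, hg⟩⟩
  exact (IntermediateField.fixingSubgroup_fixedField (Dec L w)).le
    (show g.restrictScalars L ∈ _ from g.commutes)

/-- `dns_of_dec` for `E` as an extension of `F` by `s` -/
theorem dns_emb (s : F →ₐ[L] E) {x : E} (h : ∀ g ∈ Dec L w, (∀ a, g (s a) = s a) → g x = x) :
    Dns (s : F →+* E) w x := by
  let := s.toRingHom.toAlgebra
  have : IsScalarTower L F E := .of_algebraMap_eq fun a => (s.commutes a).symm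
  have : FiniteDimensional F E := .right L F E
  have : IsGalois F E := .tower_top_of_isGalois L F E
  exact dns_of_dec (K := F) fun g hg => h (g.restrictScalars L) hg g.commutes

end gal

/-- the embedding into a Galois extension determines `P` -/
theorem fin_over [Algebra L F] [FiniteDimensional L F] [Algebra.IsSeparable L F] (v : Vl L) :
    {P : Vl F | Nrm P ∧ Over (algebraMap L F) v P}.Finite := by
  obtain ⟨E, _, _, _, _, j, hj⟩ := exists_big0 (E := F) (RingHom.id L)
  obtain ⟨w, hw⟩ := vn_exists (E := E) v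
  refine (Set.finite_iUnion fun s : F →ₐ[L] E => Set.Subsingleton.finite
    (s := {P | Nrm P ∧ Over (s : F →+* E) P w}) fun P h P' h' =>
      vn_eq h'.1 h.1 fun x => (h.2 x).symm.trans (h'.2 x)).subset fun P h => ?_
  obtain ⟨s, hs⟩ := exists_emb_over ⟨j, hj⟩ h.2 hw
  exact Set.mem_iUnion.2 ⟨s, h.1, hs⟩

theorem cb2_int [Algebra Z T] [Algebra T E] [Algebra Z E] [IsScalarTower Z T E]
    [FiniteDimensional Z E] [IsGalois Z E] {v : Vl Z} {u : Vl T} {w : Vl E}
    (hvu : Over (algebraMap Z T) v u) (ho : Over (algebraMap T E) u w) (hD : Dec Z w = ⊤) {x : T}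
    (hx : u x ≤ 1) : IsIntegral v.integer x := by
  have hw' := hvu.comp ho
  rw [← IsScalarTower.algebraMap_eq] at hw'
  obtain ⟨p, hp, -, hm⟩ := Polynomial.lifts_and_natDegree_eq_and_monic
    ((Polynomial.lifts_iff_coeff_lifts (f := algebraMap Z E) _).2 fun i =>
      (IsGalois.mem_range_algebraMap_iff_fixed _).2
        (MulSemiringAction.smul_coeff_charpoly (algebraMap T E x) i))
    (MulSemiringAction.monic_charpoly _ _)
  refine (r6b_int hvu x).2 ⟨p, hm, fun i => (hw' _).1 ?_, (algebraMap T E).injective ?_⟩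
  · have h1 : ∀ g : E ≃ₐ[Z] E, g • algebraMap T E x ∈ w.integer := fun g =>
      ((hD.ge (Subgroup.mem_top g)) _).trans_le ((ho x).2 hx)
    have h2 : MulSemiringAction.charpoly (E ≃ₐ[Z] E) (algebraMap T E x) =
        (∏ g : E ≃ₐ[Z] E, (Polynomial.X - Polynomial.C (⟨_, h1 g⟩ : w.integer))).map
          w.integer.subtype := by
      simp only [MulSemiringAction.charpoly_eq, Polynomial.map_prod, Polynomial.map_sub,
        Polynomial.map_X, Polynomial.map_C]
      rfl
    rw [← Polynomial.coeff_map, hp, h2, Polynomial.coeff_map]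
    exact SetLike.coe_mem (p := w.integer) _
  · rw [← Polynomial.aeval_algebraMap_apply, ← Polynomial.eval_map_algebraMap, hp,
      MulSemiringAction.eval_charpoly, map_zero]

theorem cb2_res {v : Vl Z} [IsLocalRing v.integer] {ρ : v.integer →+* K} (h : IsRed v ρ)
    (s : Function.Surjective ρ) : ∃ i : (v.integer ⧸ IsLocalRing.maximalIdeal v.integer) ≃+* K,
      ∀ x, i (Ideal.Quotient.mk _ x) = ρ x :=
  ⟨(Ideal.quotEquivOfEq (Ideal.ext fun x => by
    rw [IsLocalRing.mem_maximalIdeal, mem_nonunits_iff,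
      Valuation.Integer.not_isUnit_iff_valuation_lt_one, RingHom.mem_ker, h x])).trans
    (ρ.quotientKerEquivOfSurjective s), fun _ => rfl⟩

theorem ef_top [Algebra Z T] [Algebra T E] [Algebra Z E] [IsScalarTower Z T E]
    [FiniteDimensional Z E] [IsGalois Z E] {v : Vl Z} {u : Vl T} {w : Vl E} (hv : Nrm v)
    (hu : Nrm u) {e : ℕ} (he : Idq (algebraMap Z T) v u e) (hvu : Over (algebraMap Z T) v u)
    (ho : Over (algebraMap T E) u w) (hD : Dec Z w = ⊤) [Algebra K κ] {ρ : v.integer →+* K}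
    {π : u.integer →+* κ} (hρ : IsRed v ρ) (sρ : Function.Surjective ρ) (hπ : IsRed u π)
    (sπ : Function.Surjective π) (hc : Cmp (algebraMap Z T) ρ π (algebraMap K κ)) :
    finrank Z T = e * finrank K κ := by
  have := Module.Finite.left Z T E
  have := Algebra.isSeparable_tower_bot_of_isSeparable Z T E
  have := hv.dvr
  have := hu.dvr
  have := (Valuation.integer.integers v).isFractionRing
  have := (Valuation.integer.integers u).isFractionRing
  let : Algebra v.integer u.integer := hvu.int.toAlgebra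
  have : IsScalarTower v.integer u.integer T := IsScalarTower.of_algebraMap_eq fun _ => rfl
  have : IsIntegralClosure u.integer v.integer T := ⟨Subtype.val_injective, fun {x} =>
    ⟨fun h => ⟨⟨x, (Valuation.integer.integers u).isIntegral_iff_v_le_one.1 h.tower_top⟩, rfl⟩,
      fun ⟨y, hy⟩ => hy ▸ cb2_int hvu ho hD y.2⟩⟩
  have := IsIntegralClosure.finite v.integer Z T u.integer
  have : (IsLocalRing.maximalIdeal u.integer).LiesOver (IsLocalRing.maximalIdeal v.integer) :=
    ⟨Ideal.ext fun x => by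
      rw [Ideal.mem_under, IsLocalRing.mem_maximalIdeal, IsLocalRing.mem_maximalIdeal,
        mem_nonunits_iff, mem_nonunits_iff, Valuation.Integer.not_isUnit_iff_valuation_lt_one,
        Valuation.Integer.not_isUnit_iff_valuation_lt_one]
      exact (hvu.lt x).symm⟩
  obtain ⟨a, ha⟩ := hv
  obtain ⟨b, hb⟩ := hu
  have h1 : WithZero.exp (-1 : ℤ) ≤ 1 := by
    rw [← WithZero.exp_zero, WithZero.exp_le_exp]
    decide
  have h0 : a ≠ 0 := v.ne_zero_iff.1 (ha ▸ WithZero.exp_ne_zero)
  have hval : u (algebraMap Z T a) = WithZero.exp (-(e : ℤ)) := by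
    have := he a h0
    rw [show ord v a = 1 by rw [ord, ha, WithZero.log_exp, neg_neg], Int.cast_one, mul_one] at this
    rw [ord_eq ((map_ne_zero _).2 h0), show ord u (algebraMap Z T a) = e by exact_mod_cast this]
  have hle : ∀ n : ℕ, (IsLocalRing.maximalIdeal v.integer).map (algebraMap v.integer u.integer) ≤
      IsLocalRing.maximalIdeal u.integer ^ n ↔ n ≤ e := fun n => by
    rw [r6b_max (π := ⟨a, ha.trans_le h1⟩) ha, r6b_max (π := ⟨b, hb.trans_le h1⟩) hb,
      Ideal.map_span, Set.image_singleton, Ideal.span_singleton_pow,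
      Ideal.span_singleton_le_span_singleton, (Valuation.integer.integers u).dvd_iff_le]
    change u (algebraMap Z T a) ≤ u (b ^ n) ↔ _
    rw [hval, map_pow, hb, ← WithZero.exp_nsmul, WithZero.exp_le_exp]
    simp
  have hef := Ideal.ramificationIdx_mul_inertiaDeg_of_isLocalRing u.integer Z T
    (IsDiscreteValuationRing.not_a_field v.integer)
  rw [Ideal.ramificationIdx'_spec ((hle e).2 le_rfl) (mt (hle _).1 (Nat.not_succ_le_self e)),
    Ideal.inertiaDeg'_algebraMap] at hef
  obtain ⟨i, hi⟩ := cb2_res hρ sρ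
  obtain ⟨j, hj⟩ := cb2_res hπ sπ
  rw [← hef, Algebra.finrank_eq_of_equiv_equiv i j (Ideal.Quotient.ringHom_ext
    (RingHom.ext fun x => (congrArg (algebraMap K κ) (hi x)).trans
      ((hc x (hvu.int x) rfl).symm.trans (hj _).symm)))]

end Pool.Agent.ZCy.F
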