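import Pool.Agent.Lib.MP_751085_ag.ZF.W.Ca
import Pool.Agent.Lib.MP_751085_ag.ZF.W.Cb
import Pool.Agent.Lib.MP_751085_ag.ZF.E.N2
import Pool.Agent.Lib.MP_751085_ag.ZF.E.V1

/-! The corestriction of a unit class from a field with one place above the base. -/

namespace Pool.Agent.ZCy.F

open scoped Classical WithZero
open groupCohomology Module

variable {O Z T E K κ : Type} [CommRing O] [Field Z] [Field T] [Field E] [Field K] [Field κ]
  [Algebra Z T] [Algebra Z E] {w : Vl E} {U : UC O} {ψ : O →+* T}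

/-- points of the covering above all embeddings, with equal residues along the inertia group -/
structure Pts (w : Vl E) (U : UC O) (ψ : O →+* T) (q : EmE Z T E → U.A →+* E)
    (γ : (E ≃ₐ[Z] E) → EmE Z T E → U.G) : Prop where
  base : ∀ s o, q s (U.i o) = s.hom (ψ o)
  fam : U.Fam q γ
  int : ∀ s y, w (q s y) ≤ 1
  red : ∀ i ∈ Ine Z w, ∀ s y, w (q (i • s) y - q s y) < 1

variable {q : EmE Z T E → U.A →+* E} {γ : (E ≃ₐ[Z] E) → EmE Z T E → U.G}

/-- Let `t s` be the chosen point (`Quotient.out`) of the orbit of `s` under `Ine Z w`,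
`s = i s • t s` with `i s` in `Ine Z w`, `t = g t • s₀` (`eme_trans`), and
`q s = i s ∘ g (t s) ∘ q₀`. `UC.exists_fam`, `UC.integral`, `le_one_of_int`. -/
theorem exists_pts [Normal Z E] (hD : Dec Z w = ⊤) (s₀ : EmE Z T E)
    (hψ : ∀ o, w (s₀.hom (ψ o)) ≤ 1) (q₀ : U.A →+* E) (h₀ : ∀ o, q₀ (U.i o) = s₀.hom (ψ o)) :
    ∃ (q : EmE Z T E → U.A →+* E) (γ : (E ≃ₐ[Z] E) → EmE Z T E → U.G), Pts w U ψ q γ := by
  let t : EmE Z T E → EmE Z T E := fun s =>
    (Quotient.mk (MulAction.orbitRel (Ine Z w) (EmE Z T E)) s).out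
  have ht : ∀ s, ∃ i : Ine Z w, i • t s = s := fun s =>
    MulAction.orbitRel_apply.1 (Quotient.exact (Quotient.out_eq (s := MulAction.orbitRel
      (Ine Z w) (EmE Z T E)) (Quotient.mk _ s)).symm)
  have ht' : ∀ i ∈ Ine Z w, ∀ s, t (i • s) = t s := fun i hi s => congrArg Quotient.out
    (Quotient.sound (MulAction.orbitRel_apply.2 ⟨⟨i, hi⟩, rfl⟩))
  choose i hi using ht
  choose g hg using fun s => eme_trans s₀ s
  have hd : ∀ (a : E ≃ₐ[Z] E) x, w (a x) = w x := fun a => (hD ▸ Subgroup.mem_top a : a ∈ Dec Z w)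
  have h1 : ∀ y, w (q₀ y) ≤ 1 := fun y =>
    le_one_of_int (f := q₀.comp U.i) (fun o => (congrArg w (h₀ o)).trans_le (hψ o))
      ((U.integral y).map q₀)
  let q : EmE Z T E → U.A →+* E := fun s =>
    ((i s).1 * g (t s) : E ≃ₐ[Z] E).toRingEquiv.toRingHom.comp q₀
  have hq : ∀ s y, q s y = (i s).1 (g (t s) (q₀ y)) := fun _ _ => rfl
  have hb : ∀ s o, q s (U.i o) = s.hom (ψ o) := fun s o => by
    rw [hq, h₀, ← EmE.smul_hom, ← hg, ← EmE.smul_hom]
    exact congrArg (fun s : EmE Z T E => s.hom (ψ o)) (hi s)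
  obtain ⟨γ, hγ⟩ := UC.exists_fam (Γ := E ≃ₐ[Z] E) (ρ := q) fun a s o => by
    rw [hb, hb, AlgEquiv.smul_def, ← EmE.smul_hom, smul_inv_smul]
  refine ⟨q, γ, hb, hγ, fun s y => by rw [hq, hd, hd]; exact h1 y, fun j hj s y => ?_⟩
  have h2 : w (g (t s) (q₀ y)) ≤ 1 := (hd _ _).trans_le (h1 y)
  rw [hq, hq, ht' j hj, ← sub_sub_sub_cancel_right _ _ (g (t s) (q₀ y))]
  exact w.map_sub_lt ((i _).2.2 _ h2) ((i _).2.2 _ h2)

/-- `UC.eq_one` for the reduction of `q s` (`exists_resf`) -/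
theorem Pts.ine (h : Pts w U ψ q γ) {i : E ≃ₐ[Z] E} (hi : i ∈ Ine Z w) (s : EmE Z T E) :
    γ i s = 1 := by
  obtain ⟨k, _, ρ, hρ, -⟩ := exists_resf w
  refine U.eq_one (ρ.comp ((q s).codRestrict w.integer (h.int s))) fun y => ?_
  rw [← sub_eq_zero, ← map_sub, RingHom.comp_apply, hρ]
  change w (q s (γ i s • y - y)) < 1
  rw [map_sub, h.fam, ← sub_add_sub_cancel _ (q (i⁻¹ • s) y)]
  exact w.map_add_lt (hi.2 _ (h.int _ y)) (h.red _ (inv_mem hi) s y)

variable [FiniteDimensional Z T]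

/-- `UC.Fam.mul`, `Pts.ine`, `ine_conj` give `γ (g * i) s = γ g s = γ g (i • s)`; `ind_prod_smul` -/
theorem Pts.infl (h : Pts w U ψ q γ) (hD : Dec Z w = ⊤) :
    Infl ⊤ (Ine Z w) fun p => ∏ s, U.fam q γ p s := by
  have hc : ∀ g, ∀ i ∈ Ine Z w, g * i * g⁻¹ ∈ Ine Z w := fun g =>
    ine_conj g (hD ▸ Subgroup.mem_top g)
  have h1 : ∀ g, ∀ i ∈ Ine Z w, ∀ s, γ (g * i) s = γ g s := fun g i hi s => by
    rw [h.fam.mul, h.ine hi, mul_one]
  have h2 : ∀ g, ∀ i ∈ Ine Z w, ∀ s, γ g (i⁻¹ • s) = γ g s := fun g i hi s => by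
    rw [← h1 g _ (hc g⁻¹ i hi) s, show g * (g⁻¹ * i * g⁻¹⁻¹) = i * g by group, h.fam.mul,
      h.ine hi, one_mul]
  refine ⟨fun g _ g' _ i hi i' hi' => Finset.prod_congr rfl fun s _ => ?_,
    fun g _ g' _ i hi => ?_⟩
  · simp only [UC.fam, h1 _ _ hi, h1 _ _ hi', mul_inv_rev, mul_smul, h2 _ _ hi]
  · refine (ind_prod_smul i (U.fam q γ (g, g'))).symm.trans (Finset.prod_congr rfl fun s _ => ?_)
    have e : g⁻¹ • i⁻¹ • s = (g⁻¹ * i * g⁻¹⁻¹)⁻¹ • g⁻¹ • s := by
      rw [← mul_smul, ← mul_smul]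
      congr 1
      group
    have e' := fun y => h.fam i s y
    simp only [h.ine hi, one_smul] at e'
    simp only [Ind.smul_apply, UC.fam, h2 _ _ hi, e, h2 _ _ (hc g⁻¹ i hi)]
    exact Units.ext (e' _).symm

theorem Pts.unit (h : Pts w U ψ q γ) (p : (E ≃ₐ[Z] E) × (E ≃ₐ[Z] E)) (s : EmE Z T E) :
    w (U.fam q γ p s : E) = 1 := by
  let a := U.c (γ p.1 s, γ p.2 (p.1⁻¹ • s))
  have h1 : w (q s a.1) * w (q s a⁻¹.1) = 1 := by
    rw [← map_mul, ← map_mul, a.mul_inv, map_one, map_one]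
  exact le_antisymm (h.int s a.1) (h1.symm.trans_le (mul_le_of_le_one_right' (h.int s _)))

section res

variable [Algebra K κ] {v : Vl Z} {u : Vl T}

/-- compatible residue maps -/
structure RsD (v : Vl Z) (u : Vl T) (w : Vl E) (ρ : v.integer →+* K) (π : u.integer →+* κ)
    (ρ' : w.integer →+* AlgebraicClosure K) : Prop where
  dec : Dec Z w = ⊤
  ov : Over (algebraMap Z T) v u
  ou : ∀ s : EmE Z T E, Over (s.hom : T →+* E) u w
  ow : Over (algebraMap Z E) v w
  sv : Function.Surjective ρ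
  ru : IsRed u π
  su : Function.Surjective π
  rw : IsRed w ρ'
  cu : Cmp (algebraMap Z T) ρ π (algebraMap K κ)
  cw : Cmp (algebraMap Z E) ρ ρ' (algebraMap K _)

variable {ρ : v.integer →+* K} {π : u.integer →+* κ} {ρ' : w.integer →+* AlgebraicClosure K}

omit [FiniteDimensional Z T] in
theorem RsD.exists_red (R : RsD v u w ρ π ρ') :
    ∃ m : EmE Z T E → κ →ₐ[K] AlgebraicClosure K, ∀ s, Cmp s.hom π ρ' (m s) := by
  choose i hi using fun s : EmE Z T E => R.ru.factor R.su (R.rw.comp_int (R.ou s))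
  refine ⟨fun s => { i s with commutes' := fun a => ?_ }, fun s x y e => ?_⟩
  · obtain ⟨b, rfl⟩ := R.sv a
    exact (congrArg (i s) (R.cu b (R.ov.int b) rfl)).symm.trans
      ((hi s _).trans (R.cw b _ (s.hom.commutes b)))
  · exact (congrArg ρ' (Subtype.ext e)).trans (hi s x).symm

variable {m : EmE Z T E → κ →ₐ[K] AlgebraicClosure K}

omit [FiniteDimensional Z T] in
theorem RsD.red_smul (R : RsD v u w ρ π ρ') (hm : ∀ s, Cmp s.hom π ρ' (m s)) {g : E ≃ₐ[Z] E}
    {σ : AlgebraicClosure K → AlgebraicClosure K} (hg : Cmp g ρ' ρ' σ) (s : EmE Z T E) (x : κ) :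
    m (g • s) x = σ (m s x) := by
  obtain ⟨a, rfl⟩ := R.su x
  rw [← hm (g • s) a ((R.ou (g • s)).int a) rfl, ← hm s a ((R.ou s).int a) rfl]
  exact hg _ _ rfl

variable [FiniteDimensional Z E] [IsGalois Z E]

omit [FiniteDimensional Z T] in
theorem RsD.lift (R : RsD v u w ρ π ρ') (σ : AlgebraicClosure K →ₐ[K] AlgebraicClosure K) :
    ∃ g : E ≃ₐ[Z] E, Cmp g ρ' ρ' σ := by
  obtain ⟨g, -, hg⟩ := exists_dec (K := Z) R.rw (σ : _ →+* _) fun a y e => by
    have h : w (algebraMap Z E a) ≤ 1 := e ▸ y.2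
    rw [R.cw ⟨a, (R.ow a).1 h⟩ y e]
    exact σ.commutes _
  exact ⟨g, hg⟩

omit [FiniteDimensional Z T] in
theorem RsD.orb (R : RsD v u w ρ π ρ') (hm : ∀ s, Cmp s.hom π ρ' (m s)) {s s' : EmE Z T E}
    (h : m s = m s') : ∃ i ∈ Ine Z w, s' = i • s := by
  let : Algebra T E := (s.hom : T →+* E).toAlgebra
  have : IsScalarTower Z T E := .of_algebraMap_eq fun a => (s.hom.commutes a).symm
  obtain ⟨i, hi, e⟩ := w1_trans (ev := (m s : κ →+* AlgebraicClosure K).comp π) R.rw (R.ou s)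
    (hm s) (j := s'.hom) ⟨R.ou s', by rw [h]; exact hm s'⟩
  exact ⟨i, hi, EmE.ext fun x => (e x).symm⟩

/-- the fibres of `m` have the same number of elements -/
theorem RsD.card_fib (R : RsD v u w ρ π ρ') (hm : ∀ s, Cmp s.hom π ρ' (m s)) (s₀ : EmE Z T E)
    [FiniteDimensional K κ] {e : ℕ} (hn : finrank Z T = e * finrank K κ)
    (τ : κ →ₐ[K] AlgebraicClosure K) :
    (Finset.univ.filter fun s => m s = τ).card = e * Field.finInsepDegree K κ := by
  have : Algebra.IsSeparable Z T := .of_algHom Z E s₀.hom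
  have h1 : ∀ τ τ' : κ →ₐ[K] AlgebraicClosure K, (Finset.univ.filter fun s => m s = τ).card ≤
      (Finset.univ.filter fun s => m s = τ').card := fun τ τ' => by
    obtain ⟨σ, hσ⟩ := exists_twist_sub (τ : κ →+* AlgebraicClosure K) τ.commutes (RingHom.id _)
      (τ' : κ →+* AlgebraicClosure K) τ'.commutes
    obtain ⟨g, hg⟩ := R.lift (σ : AlgebraicClosure K →ₐ[K] AlgebraicClosure K)
    refine Finset.card_le_card_of_injOn (g • ·) (fun s hs => ?_) (MulAction.injective g).injOn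
    refine Finset.mem_filter.2 ⟨Finset.mem_univ _, AlgHom.ext fun x => ?_⟩
    rw [R.red_smul hm hg, (Finset.mem_filter.1 hs).2]
    exact (hσ x).symm
  have h2 := Finset.card_eq_sum_card_fiberwise (f := m) (s := Finset.univ) (t := Finset.univ)
    fun _ _ => Finset.mem_univ _
  rw [Finset.sum_congr rfl fun τ' _ => le_antisymm (h1 τ' τ) (h1 τ τ'), Finset.sum_const,
    Finset.card_univ, Finset.card_univ, eme_card s₀, hn, ← Nat.card_eq_fintype_card,
    ← Field.finSepDegree_eq_of_isAlgClosed, ← Field.finSepDegree_mul_finInsepDegree,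
    mul_left_comm] at h2
  exact (Nat.eq_of_mul_eq_mul_left (NeZero.pos _) h2).symm

end res

variable (K κ) in
/-- `IsPurelyInseparable.bijective_restrictDomain`; the image of a separable element is separable -/
theorem exists_res_em [Algebra K κ] [FiniteDimensional K κ] :
    ∃ f : (κ →ₐ[K] AlgebraicClosure K) ≃ Em K (separableClosure K κ),
      ∀ τ (x : separableClosure K κ), SC.val K ((f τ).hom x) = τ x := by
  let f : (κ →ₐ[K] AlgebraicClosure K) → Em K (separableClosure K κ) := fun τ =>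
    (τ.comp (separableClosure K κ).val).codRestrict
      (separableClosure K (AlgebraicClosure K)).toSubalgebra fun x =>
        mem_separableClosure_iff.2 ((mem_separableClosure_iff.1 x.2).map τ τ.injective)
  have hf : ∀ τ (x : separableClosure K κ), SC.val K ((f τ).hom x) = τ x := fun _ _ => rfl
  have hb := IsPurelyInseparable.bijective_restrictDomain (separableClosure K κ) κ K
    (AlgebraicClosure K)
  refine ⟨Equiv.ofBijective f ⟨fun τ τ' e => hb.1 (AlgHom.ext fun x => ?_), fun j => ?_⟩, hf⟩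
  · exact (hf τ x).symm.trans ((congrArg (fun j => SC.val K (Em.hom j x)) e).trans (hf τ' x))
  · obtain ⟨τ, hτ⟩ := hb.2 ((SC.val K).comp j.hom)
    exact ⟨τ, AlgHom.ext fun x => (SC.val K).injective ((hf τ x).trans (AlgHom.congr_fun hτ x))⟩

variable (K) in
/-- `AlgHom.liftNormal`, or `IsAlgClosed.lift` -/
theorem exists_ext : ∃ ext : Gm K → AlgebraicClosure K →ₐ[K] AlgebraicClosure K,
    ∀ σ z, ext σ (SC.val K z) = SC.val K (σ z) := by
  choose ext h using fun σ : Gm K => (IsPurelyInseparable.bijective_restrictDomain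
    (separableClosure K (AlgebraicClosure K)) (AlgebraicClosure K) K (AlgebraicClosure K)).2
      ((SC.val K).comp (σ : SC K →ₐ[K] SC K))
  exact ⟨ext, fun σ z => AlgHom.congr_fun (h σ) z⟩

end Pool.Agent.ZCy.F
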