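import Pool.Agent.Lib.MP_751085_ag.ZF.W.Cc

/-! The value of the corestriction at the closed point. -/

namespace Pool.Agent.ZCy.F

open scoped Classical WithZero
open groupCohomology Module

variable {O Z T E K κ : Type} [CommRing O] [Field Z] [Field T] [Field E] [Field K] [Field κ]
  [Algebra Z T] [Algebra Z E] [FiniteDimensional Z T] [FiniteDimensional Z E] [IsGalois Z E]
  {v : Vl Z} {u : Vl T} {w : Vl E} {U : UC O} {ψ : O →+* u.integer}
  {q : EmE Z T E → U.A →+* E} {γ : (E ≃ₐ[Z] E) → EmE Z T E → U.G}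

theorem cd_inj (K : Type) [Field K] : Function.Injective (SC.val K) := (SC.val K).injective

section

variable [Algebra K κ] [FiniteDimensional K κ] {ρ : v.integer →+* K} {π : u.integer →+* κ}
  {ρ' : w.integer →+* AlgebraicClosure K} {m : EmE Z T E → κ →ₐ[K] AlgebraicClosure K}

omit [FiniteDimensional Z T] in
/-- The power `n = finInsepDegree K κ` of the residue of `q s`. It depends only on `m s` (`RsD.orb`,
`Pts.red`); it is a ring map (`finInsepDegree_eq_pow`, `iterateFrobenius`) above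
`m s ∘ frS ∘ π ∘ ψ` (`frS_spec`), so its values are separable over `K` (`UC.sep` with `M` the
separable closure of `K` in `κ`). -/
theorem Pts.exists_bar (h : Pts w U (u.integer.subtype.comp ψ) q γ) (R : RsD v u w ρ π ρ')
    (hm : ∀ s, Cmp s.hom π ρ' (m s)) (hs : Function.Surjective m)
    {f : (κ →ₐ[K] AlgebraicClosure K) ≃ Em K (separableClosure K κ)}
    (hf : ∀ τ (x : separableClosure K κ), SC.val K ((f τ).hom x) = τ x) :
    ∃ b : Em K (separableClosure K κ) → U.A →+* SC K,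
      (∀ t o, b t (U.i o) = t.hom (frS K κ (π (ψ o)))) ∧
      ∀ s y, SC.val K (b (f (m s)) y) = ρ' ⟨q s y, h.int s y⟩ ^ Field.finInsepDegree K κ := by
  obtain ⟨p, _⟩ := ExpChar.exists K
  obtain ⟨n, hn⟩ := finInsepDegree_eq_pow K κ p
  have : ExpChar (AlgebraicClosure K) p :=
    expChar_of_injective_algebraMap (algebraMap K _).injective p
  let B : EmE Z T E → U.A →+* AlgebraicClosure K := fun s =>
    (iterateFrobenius _ p n).comp (ρ'.comp ((q s).codRestrict w.integer (h.int s)))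
  have hB : ∀ s y, B s y = ρ' ⟨q s y, h.int s y⟩ ^ Field.finInsepDegree K κ := fun s y => by
    rw [hn]
    rfl
  have h1 : ∀ s o, B s (U.i o) = SC.val K ((f (m s)).hom (frS K κ (π (ψ o)))) := fun s o => by
    rw [hB, hf, frS_spec, map_pow, hm s (ψ o) _ (h.base s o)]
  have h2 : ∀ s y, B s y ∈ separableClosure K (AlgebraicClosure K) := fun s y => by
    let j := (SC.val K).comp (f (m s)).hom
    let := (j : separableClosure K κ →+* AlgebraicClosure K).toAlgebra
    have : IsScalarTower K (separableClosure K κ) (AlgebraicClosure K) :=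
      IsScalarTower.of_algebraMap_eq fun a => (j.commutes a).symm
    exact IsSeparable.of_algebra_isSeparable_of_isSeparable K (E := separableClosure K κ)
      (U.sep ((frS K κ).comp (π.comp ψ)) (B s) (h1 s) y)
  choose t ht using fun t : Em K (separableClosure K κ) => hs (f.symm t)
  refine ⟨fun t' => (B (t t')).codRestrict (separableClosure K (AlgebraicClosure K)) (h2 _),
    fun t' o => cd_inj K ((h1 _ o).trans (by rw [ht, f.apply_symm_apply])),
    fun s y => (hB _ y).trans ?_⟩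
  obtain ⟨i, hi, e⟩ := R.orb hm ((ht (f (m s))).trans (f.symm_apply_apply _)).symm
  rw [e]
  exact congrArg (· ^ _) ((R.rw.eq_iff _ _).2 (h.red i hi s y))

/-- Take `m`, `f`, `b`, and `δ` with `U.Fam b δ` (`UC.exists_fam`); `δ σ (f (m s)) = γ (d σ) s` by
`UC.eq_of`, `RsD.red_smul`. Put `y p = (∏ t, U.fam b δ p t) ^ e`; `Finset.prod_fiberwise`,
`RsD.card_fib`, `UC.Fam.cor_eq`, `cl_pow`, `corN_def`, `UC.val_comp`. -/
theorem Pts.val (h : Pts w U (u.integer.subtype.comp ψ) q γ) (R : RsD v u w ρ π ρ')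
    (s₀ : EmE Z T E) {e : ℕ} (hn : finrank Z T = e * finrank K κ) {d : Gm K → E ≃ₐ[Z] E}
    {ext : Gm K → AlgebraicClosure K →ₐ[K] AlgebraicClosure K}
    (he : ∀ σ z, ext σ (SC.val K z) = SC.val K (σ z)) (hd : ∀ σ, Cmp (d σ) ρ' ρ' (ext σ)) :
    ∃ y : Gm K × Gm K → (SC K)ˣ, (∀ p (z : w.integer),
      (z : E) = (∏ s, U.fam q γ (d p.1, d p.2) s : Eˣ) → SC.val K (y p) = ρ' z) ∧
      cl K _ y = e • corN K κ (U.val (π.comp ψ)) := by
  obtain ⟨m, hm⟩ := R.exists_red
  have hc := R.card_fib hm s₀ hn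
  have hs : Function.Surjective m := fun τ => by
    obtain ⟨s, hs⟩ := Finset.card_ne_zero.1 ((hc τ).trans_ne (mul_ne_zero (fun h0 =>
      (finrank_pos (R := Z) (M := T)).ne' (by rw [hn, h0, zero_mul])) (NeZero.ne _)))
    exact ⟨s, (Finset.mem_filter.1 hs).2⟩
  obtain ⟨f, hf⟩ := exists_res_em K κ
  obtain ⟨b, hb, hb'⟩ := h.exists_bar R hm hs hf
  obtain ⟨δ, hδ⟩ := UC.exists_fam (Γ := Gm K) (ρ := b) fun g t o => by
    rw [hb, hb]
    exact (g.apply_symm_apply _).symm
  have h1 : ∀ σ s, σ⁻¹ • f (m s) = f (m ((d σ)⁻¹ • s)) := fun σ s =>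
    inv_smul_eq_iff.2 (a3c_em_ext fun x => cd_inj K (by
      rw [Em.smul_hom, ← he, hf, hf, ← R.red_smul hm (hd σ), smul_inv_smul]))
  have h2 : ∀ σ s, δ σ (f (m s)) = γ (d σ) s := fun σ s =>
    UC.eq_of (b (f (m s))) fun y => cd_inj K (by
      rw [hδ, h1, hb', hd σ ⟨_, h.int ((d σ)⁻¹ • s) y⟩ _ (h.fam (d σ) s y), ← map_pow, ← hb', he]
      rfl)
  have h3 := hδ.cor_eq (ψ := (frS K κ).comp (π.comp ψ)) hb
  refine ⟨(fun p => ∏ t, U.fam b δ p t) ^ e, fun p z hz => ?_,
    (cl_pow h3.1 e).trans (congrArg (e • ·) (h3.2.symm.trans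
      ((congrArg _ (U.val_comp _ _)).trans (corN_def _).symm)))⟩
  obtain ⟨r, _⟩ := ExpChar.exists K
  obtain ⟨n, hr⟩ := finInsepDegree_eq_pow K κ r
  have : ExpChar (AlgebraicClosure K) r :=
    expChar_of_injective_algebraMap (algebraMap K _).injective r
  have h4 : z = ∏ s, ⟨q s (U.c (γ (d p.1) s, γ (d p.2) ((d p.1)⁻¹ • s))), h.int _ _⟩ :=
    Subtype.ext (by
      rw [hz, Units.coe_prod, SubmonoidClass.coe_finsetProd]
      rfl)
  have h5 : ∀ s, ρ' ⟨q s (U.c (γ (d p.1) s, γ (d p.2) ((d p.1)⁻¹ • s))), h.int _ _⟩ ^ r ^ n =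
      SC.val K (U.fam b δ p (f (m s))) := fun s => by
    rw [← hr, ← hb', ← h2, ← h2, ← h1]
    rfl
  refine iterateFrobenius_inj _ r n ?_
  rw [iterateFrobenius_def, iterateFrobenius_def, h4, map_prod, ← Finset.prod_pow,
    Finset.prod_congr rfl fun s _ => h5 s,
    ← Finset.prod_fiberwise' _ m fun τ => SC.val K (U.fam b δ p (f τ))]
  simp only [Finset.prod_const, hc, Finset.prod_pow, hr, Pi.pow_apply, Units.val_pow_eq_pow_val,
    map_pow, Units.coe_prod, map_prod, pow_mul]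
  rw [f.prod_comp fun t => SC.val K (U.fam b δ p t)]

end

/-- `exists_pts`, `uc_of_infl`, `UC.Fam.cor_fin`; for the value `exists_red_over` gives `ρ'` above
`algebraMap K _ ∘ ρ`, then `exists_ext`, `RsD.lift`, `Pts.val`. -/
theorem cor_loc [Algebra.IsSeparable Z T] (hD : Dec Z w = ⊤) (s₀ : EmE Z T E)
    (hv : Over (algebraMap Z T) v u) (hu : Over (s₀.hom : T →+* E) u w) (U : UC O)
    (ψ : O →+* u.integer) (q₀ : U.A →+* E) (h₀ : ∀ o, q₀ (U.i o) = s₀.hom (ψ o)) :
    ∃ V : UC v.integer, V.val v.integer.subtype = cor Z T (U.val (u.integer.subtype.comp ψ)) ∧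
      ∀ (K κ : Type) [Field K] [Field κ] [Algebra K κ] (ρ : v.integer →+* K)
        (π : u.integer →+* κ) (e : ℕ), IsRed v ρ → Function.Surjective ρ → IsRed u π →
        Function.Surjective π → Cmp (algebraMap Z T) ρ π (algebraMap K κ) →
        finrank Z T = e * finrank K κ → V.val ρ = e • corN K κ (U.val (π.comp ψ)) := by
  have ou : ∀ s : EmE Z T E, Over (s.hom : T →+* E) u w := fun s x => by
    obtain ⟨g, rfl⟩ := eme_trans s₀ s
    exact (congrArg (· ≤ 1) ((hD ▸ Subgroup.mem_top g : g ∈ Dec Z w) (s₀.hom x))).to_iff.trans (hu x)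
  have ow : Over (algebraMap Z E) v w := fun x => by
    rw [← s₀.hom.commutes]
    exact (hu _).trans (hv x)
  obtain ⟨q, γ, h⟩ := exists_pts (ψ := u.integer.subtype.comp ψ) hD s₀
    (fun o => (hu _).2 (ψ o).2) q₀ h₀
  obtain ⟨V, h1, h2⟩ := uc_of_infl ow hD (ind_prod_coc h.fam.coc) (h.infl hD) fun p => by
    rw [Units.coe_prod, map_prod]
    exact Finset.prod_eq_one fun s _ => h.unit p s
  refine ⟨V, h1.trans (h.fam.cor_fin s₀ h.base).symm, fun K κ _ _ _ ρ π e hρ sρ hπ sπ hc hn => ?_⟩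
  have : FiniteDimensional K κ := FiniteDimensional.of_finrank_pos (Nat.pos_of_ne_zero fun h0 =>
    (finrank_pos (R := Z) (M := T)).ne' (by rw [hn, h0, mul_zero]))
  obtain ⟨ρ', hρ', hc'⟩ := exists_red_over ow (hρ.comp (algebraMap K (AlgebraicClosure K)))
  have R : RsD v u w ρ π ρ' := ⟨hD, hv, ou, ow, sρ, hπ, sπ, hρ', hc,
    fun x y e => (congrArg ρ' (Subtype.ext e)).trans (hc' x)⟩
  obtain ⟨ext, he⟩ := exists_ext K
  choose d hd using fun σ => R.lift (ext σ)
  obtain ⟨y, hy, hy'⟩ := h.val R s₀ hn he hd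
  exact (h2 K ρ ρ' d (fun σ => ext σ) y hρ' R.cw he hd hy).trans hy'

end Pool.Agent.ZCy.F
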