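import Pool.Agent.Lib.MP_751085_ag.ZF.D.Jac

/-! Adjoining a `p`-th root; the Euler derivation. -/

namespace Pool.Agent.ZCy.F

open scoped Classical Polynomial

section defs

variable {p : ℕ} {E E' : Type} [Field E] [Field E'] [Algebra E E']

/-- the element with the coordinates `x` -/
noncomputable def cmb (α : E') (x : Fin p → E) : E' := ∑ i, algebraMap E E' (x i) * α ^ (i : ℕ)

/-- the additive map whose cokernel is the relative Brauer group -/
noncomputable def Ps [NeZero p] {A : Type} [CommRing A] (u : A) (x : Fin p → A) : A :=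
  ∑ i, x i ^ p * u ^ (i : ℕ) - x 0

/-- `E'` arises from `E` by adjoining a `p`-th root `α` of `u` -/
structure Rad (p : ℕ) (α : E') (u : E) : Prop where
  pow : α ^ p = algebraMap E E' u
  np : ∀ y : E, y ^ p ≠ u
  gen : IntermediateField.adjoin E {α} = ⊤

/-- `δ` is the derivation `α d / d α` -/
def IsEu (p : ℕ) (E : Type) [Field E] [Algebra E E'] (δ : Derivation ℤ E' E') (α : E') : Prop :=
  ∀ x : Fin p → E, δ (cmb α x) = cmb α fun i => ((i : ℕ) : E) * x i

end defs

variable {p : ℕ} [Fact p.Prime] {E E' E₁ E₁' : Type} [Field E] [Field E'] [Algebra E E']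
  [Field E₁] [Field E₁'] [Algebra E₁ E₁'] {α : E'} {u : E} {α₁ : E₁'} {u₁ : E₁}
  {δ : Derivation ℤ E' E'} {δ₁ : Derivation ℤ E₁' E₁'}

omit [Fact p.Prime] in
theorem cmb_add (x y : Fin p → E) : cmb α (x + y) = cmb α x + cmb α y := by
  simp only [cmb, Pi.add_apply, map_add, add_mul, Finset.sum_add_distrib]

omit [Fact p.Prime] in
theorem cmb_sub (x y : Fin p → E) : cmb α (x - y) = cmb α x - cmb α y := by
  simp only [cmb, Pi.sub_apply, map_sub, sub_mul, Finset.sum_sub_distrib]

theorem cmb_single (a : E) : cmb α (Pi.single (0 : Fin p) a) = algebraMap E E' a := by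
  rw [cmb, Finset.sum_eq_single 0 (fun i _ hi => by simp [Pi.single_eq_of_ne hi]) (by simp)]
  simp

omit [Fact p.Prime] in
theorem cmb_map {σ : E →+* E₁} {σ' : E' →+* E₁'}
    (h : ∀ x, σ' (algebraMap E E' x) = algebraMap E₁ E₁' (σ x)) (hα : σ' α = α₁) (x : Fin p → E) :
    σ' (cmb α x) = cmb α₁ (σ ∘ x) := by
  simp only [cmb, map_sum, map_mul, map_pow, h, hα, Function.comp_apply]

section ps

variable {A B : Type} [CommRing A] [CommRing B]

theorem Ps_add [CharP A p] (u : A) (x y : Fin p → A) : Ps u (x + y) = Ps u x + Ps u y := by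
  simp only [Ps, Pi.add_apply, add_pow_char, add_mul, Finset.sum_add_distrib]
  ring

theorem Ps_sub [CharP A p] (u : A) (x y : Fin p → A) : Ps u (x - y) = Ps u x - Ps u y := by
  simp only [Ps, Pi.sub_apply, sub_pow_char, sub_mul, Finset.sum_sub_distrib]
  ring

theorem Ps_map (φ : A →+* B) (u : A) (x : Fin p → A) : φ (Ps u x) = Ps (φ u) (φ ∘ x) := by
  simp only [Ps, map_sub, map_sum, map_mul, map_pow, Function.comp_apply]

theorem Ps_single (u a : A) : Ps u (Pi.single (0 : Fin p) a) = a ^ p - a := by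
  rw [Ps, Finset.sum_eq_single 0 (fun i _ hi => by
    simp [Pi.single_eq_of_ne hi, (Fact.out : p.Prime).ne_zero]) (by simp)]
  simp

theorem Ps_mem (O : Subring A) {u : A} (hu : u ∈ O) {x : Fin p → A} (hx : ∀ i, x i ∈ O) :
    Ps u x ∈ O :=
  O.sub_mem (O.sum_mem fun i _ => O.mul_mem (O.pow_mem (hx i) _) (O.pow_mem hu _)) (hx 0)

end ps

/-- `X_pow_sub_C_irreducible_of_prime`, `minpoly.eq_of_irreducible_of_monic` -/
theorem Rad.minpoly_eq (h : Rad p α u) : minpoly E α = Polynomial.X ^ p - Polynomial.C u :=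
  (minpoly.eq_of_irreducible_of_monic (X_pow_sub_C_irreducible_of_prime Fact.out h.np)
    (by simp [h.pow]) (Polynomial.monic_X_pow_sub_C u (Fact.out : p.Prime).ne_zero)).symm

theorem Rad.pa_int (h : Rad p α u) : IsIntegral E α :=
  ⟨_, Polynomial.monic_X_pow_sub_C u (Fact.out : p.Prime).ne_zero, by simp [h.pow]⟩

theorem Rad.pa_top (h : Rad p α u) : Algebra.adjoin E {α} = ⊤ := by
  rw [← IntermediateField.adjoin_simple_toSubalgebra_of_isAlgebraic h.pa_int.isAlgebraic, h.gen]
  rfl

theorem Rad.pa_pb (h : Rad p α u) : ∃ pb : PowerBasis E E', pb.gen = α ∧ pb.dim = p := by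
  refine ⟨PowerBasis.ofAdjoinEqTop h.pa_int h.pa_top, by simp, ?_⟩
  rw [← PowerBasis.natDegree_minpoly, PowerBasis.ofAdjoinEqTop_gen, h.minpoly_eq,
    Polynomial.natDegree_X_pow_sub_C]

/-- `IntermediateField.adjoin.powerBasis`, or `linearIndependent_pow` and
`Algebra.adjoin_singleton_eq_range_aeval` with division by the minimal polynomial -/
theorem Rad.bij (h : Rad p α u) : Function.Bijective (cmb α : (Fin p → E) → E') := by
  obtain ⟨pb, rfl, rfl⟩ := h.pa_pb
  have : (cmb pb.gen : (Fin pb.dim → E) → E') = pb.basis.equivFun.symm := funext fun x => by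
    simp only [cmb, Module.Basis.equivFun_symm_apply, pb.basis_eq_pow, Algebra.smul_def]
  rw [this]
  exact pb.basis.equivFun.symm.bijective

/-- `AdjoinRoot (X ^ p - C u)` -/
theorem exists_rad (h : ∀ y : E, y ^ p ≠ u) :
    ∃ (E' : Type) (_ : Field E') (_ : Algebra E E') (α : E'), Rad p α u := by
  have : Fact (Irreducible (Polynomial.X ^ p - Polynomial.C u)) :=
    ⟨X_pow_sub_C_irreducible_of_prime Fact.out h⟩
  refine ⟨AdjoinRoot (Polynomial.X ^ p - Polynomial.C u), inferInstance, inferInstance,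
    AdjoinRoot.root _, ?_, h, ?_⟩
  · have := AdjoinRoot.eval₂_root (Polynomial.X ^ p - Polynomial.C u)
    rwa [Polynomial.eval₂_sub, Polynomial.eval₂_X_pow, Polynomial.eval₂_C, sub_eq_zero] at this
  · refine IntermediateField.toSubalgebra_injective (top_unique ?_)
    exact (AdjoinRoot.adjoinRoot_eq_top (f := Polynomial.X ^ p - Polynomial.C u)).ge.trans
      (IntermediateField.algebra_adjoin_le_adjoin _ _)

theorem Rad.hom_ext (h : Rad p α u) {T : Type} [Semiring T] {f g : E' →+* T}
    (h1 : ∀ x, f (algebraMap E E' x) = g (algebraMap E E' x)) (h2 : f α = g α) : f = g := by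
  refine RingHom.ext fun z => ?_
  obtain ⟨x, rfl⟩ := h.bij.2 z
  simp only [cmb, map_sum, map_mul, map_pow, h1, h2]

/-- `PowerBasis.lift` for the structure of an `E`-algebra given by `σ` -/
theorem Rad.exists_map (h : Rad p α u) {T : Type} [Field T] (σ : E →+* T) {a : T}
    (ha : a ^ p = σ u) : ∃ σ' : E' →+* T, (∀ x, σ' (algebraMap E E' x) = σ x) ∧ σ' α = a := by
  obtain ⟨pb, rfl, -⟩ := h.pa_pb
  let _ := σ.toAlgebra
  have ha' : Polynomial.aeval a (minpoly E pb.gen) = 0 := by
    rw [h.minpoly_eq, map_sub, map_pow, Polynomial.aeval_X, Polynomial.aeval_C, ha]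
    exact sub_self _
  exact ⟨(pb.lift a ha').toRingHom, (pb.lift a ha').commutes, pb.lift_gen a ha'⟩

/-- `exists_map` for every `g`, `hom_ext` -/
theorem Rad.exists_act (h : Rad p α u) (G : Type) [Group G] [MulSemiringAction G E]
    (hu : ∀ g : G, g • u = u) : ∃ _ : MulSemiringAction G E',
      (∀ (g : G) x, g • algebraMap E E' x = algebraMap E E' (g • x)) ∧ ∀ g : G, g • α = α := by
  choose σ h1 h2 using fun g : G => h.exists_map
    ((algebraMap E E').comp (MulSemiringAction.toRingHom G E g)) (a := α)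
    (h.pow.trans (congrArg (algebraMap E E') (hu g).symm))
  have h1' : ∀ g x, σ g (algebraMap E E' x) = algebraMap E E' (g • x) := h1
  refine ⟨{ smul := fun g x => σ g x
            one_smul := fun x => DFunLike.congr_fun (h.hom_ext (f := σ 1) (g := RingHom.id E')
              (fun y => by rw [h1', one_smul, RingHom.id_apply]) (h2 1)) x
            mul_smul := fun g g' x => DFunLike.congr_fun (h.hom_ext (f := σ (g * g'))
              (g := (σ g).comp (σ g')) (fun y => by rw [RingHom.comp_apply, h1', h1', h1', mul_smul])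
              (by rw [RingHom.comp_apply, h2, h2, h2])) x
            smul_zero := fun g => map_zero (σ g)
            smul_add := fun g => map_add (σ g)
            smul_one := fun g => map_one (σ g)
            smul_mul := fun g => map_mul (σ g) }, h1', h2⟩

variable [CharP E p]

/-- the second component of the map `α ↦ α + α ε` to the dual numbers -/
theorem Rad.exists_eu (h : Rad p α u) : ∃ δ : Derivation ℤ E' E', IsEu p E δ α := by
  have hc : CharP E' p := charP_of_injective_algebraMap (algebraMap E E').injective p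
  obtain ⟨pb, rfl, -⟩ := h.pa_pb
  let a : TrivSqZeroExt E' E' := TrivSqZeroExt.inl pb.gen + TrivSqZeroExt.inr pb.gen
  have ha : Polynomial.aeval a (minpoly E pb.gen) = 0 := by
    rw [h.minpoly_eq, map_sub, map_pow, Polynomial.aeval_X, Polynomial.aeval_C, sub_eq_zero]
    refine TrivSqZeroExt.ext ?_ ?_
    · simp [a, h.pow, TrivSqZeroExt.algebraMap_eq_inl']
    · simp [a, TrivSqZeroExt.snd_pow, TrivSqZeroExt.algebraMap_eq_inl']
  let φ := pb.lift a ha
  have h1 : ∀ x, φ (algebraMap E E' x) = TrivSqZeroExt.inl (algebraMap E E' x) := φ.commutes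
  have h2 : φ pb.gen = a := pb.lift_gen a ha
  have h3 : ∀ z, (φ z).fst = z := fun z => DFunLike.congr_fun (h.hom_ext
    (f := (TrivSqZeroExt.fstHom E E' E').toRingHom.comp φ.toRingHom) (g := RingHom.id E')
    (fun x => congrArg TrivSqZeroExt.fst (h1 x))
    ((congrArg TrivSqZeroExt.fst h2).trans (by simp [a]))) z
  let δ : Derivation ℤ E' E' := Derivation.mk' ((TrivSqZeroExt.sndHom E' E').toAddMonoidHom.comp
    φ.toRingHom.toAddMonoidHom).toIntLinearMap fun x y => by
      change (φ (x * y)).snd = x • (φ y).snd + y • (φ x).snd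
      rw [map_mul, TrivSqZeroExt.snd_mul, h3, h3, op_smul_eq_smul]
  have d1 : ∀ x, δ (algebraMap E E' x) = 0 := fun x => congrArg TrivSqZeroExt.snd (h1 x)
  have d2 : δ pb.gen = pb.gen := (congrArg TrivSqZeroExt.snd h2).trans (by simp [a])
  refine ⟨δ, fun x => ?_⟩
  simp only [cmb, map_sum, δ.leibniz, d1, δ.leibniz_pow, d2, smul_eq_mul, map_mul, map_natCast,
    mul_zero, add_zero, nsmul_eq_mul]
  refine Finset.sum_congr rfl fun i _ => ?_
  rcases (i : ℕ) with _ | n
  · simp
  · rw [Nat.add_sub_cancel]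
    ring

omit [CharP E p] in
theorem IsEu.alg (hδ : IsEu p E δ α) (a : E) : δ (algebraMap E E' a) = 0 := by
  rw [← cmb_single (p := p) (α := α), hδ, cmb]
  refine Finset.sum_eq_zero fun i _ => ?_
  by_cases hi : i = 0 <;> simp [hi]

theorem pa2_ne {i : Fin p} (hi : i ≠ 0) : ((i : ℕ) : E) ≠ 0 := fun h =>
  Nat.not_dvd_of_pos_of_lt (Fin.pos_iff_ne_zero.2 hi) i.2 ((CharP.cast_eq_zero_iff E p i).1 h)

theorem pa2_pow (n : ℕ) : (n : E) ^ p = n := map_natCast (frobenius E p) n

omit [Fact p.Prime] [CharP E p] in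
theorem pa2_it (hδ : IsEu p E δ α) (x : Fin p → E) (n : ℕ) :
    (fun y => δ y)^[n] (cmb α x) = cmb α fun i => ((i : ℕ) : E) ^ n * x i := by
  induction n with
  | zero => simp
  | succ n ih =>
    rw [Function.iterate_succ_apply', ih, hδ]
    simp only [pow_succ', mul_assoc]

/-- the numbers `0 < i < p` are units -/
theorem IsEu.ker (h : Rad p α u) (hδ : IsEu p E δ α) {z : E'} (hz : δ z = 0) :
    ∃ a, algebraMap E E' a = z := by
  obtain ⟨x, rfl⟩ := h.bij.2 z
  have e := h.bij.1 ((hδ x).symm.trans (hz.trans (show 0 = cmb α (0 : Fin p → E) by simp [cmb])))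
  refine ⟨x 0, (cmb_single _).symm.trans (congrArg _ (funext fun i => ?_))⟩
  by_cases hi : i = 0
  · rw [hi, Pi.single_eq_same]
  · rw [Pi.single_eq_of_ne hi]
    exact ((mul_eq_zero.1 (congrFun e i)).resolve_left (pa2_ne hi)).symm

omit [CharP E p] in
theorem IsEu.map (h : Rad p α u) (hδ : IsEu p E δ α) (hδ₁ : IsEu p E₁ δ₁ α₁) {σ : E →+* E₁}
    {σ' : E' →+* E₁'} (h1 : ∀ x, σ' (algebraMap E E' x) = algebraMap E₁ E₁' (σ x))
    (h2 : σ' α = α₁) (z : E') : δ₁ (σ' z) = σ' (δ z) := by
  obtain ⟨x, rfl⟩ := h.bij.2 z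
  rw [hδ, cmb_map h1 h2, cmb_map h1 h2, hδ₁]
  exact congrArg _ (funext fun i => by simp)

/-- `δ^[n] (cmb α x) = cmb α fun i => i ^ n * x i`, and `i ^ p = i`, `i ^ (p - 1) = 1` for
`0 < i < p`. So `δ^[p] = δ` and `z ^ p + δ^[p - 1] z - z = Ps u x`; `ZFd.jacobson`. -/
theorem IsEu.iter (h : Rad p α u) (hδ : IsEu p E δ α) (x : Fin p → E) (f : E') :
    (fun y => δ y + cmb α x * y)^[p] f = δ f + cmb α x * f + algebraMap E E' (Ps u x) * f := by
  have hc : CharP E' p := charP_of_injective_algebraMap (algebraMap E E').injective p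
  have hp : p.Prime := Fact.out
  obtain ⟨y, rfl⟩ := h.bij.2 f
  have e1 : (fun i : Fin p => ((i : ℕ) : E) ^ (p - 1) * x i) = x - Pi.single 0 (x 0) := by
    funext i
    by_cases hi : i = 0
    · simp [hi, Nat.sub_ne_zero_of_lt hp.one_lt]
    · rw [Pi.sub_apply, Pi.single_eq_of_ne hi, sub_zero, mul_left_cancel₀ (pa2_ne (E := E) hi)
        (show _ * ((i : ℕ) : E) ^ (p - 1) = _ * 1 by
          rw [← pow_succ', Nat.sub_add_cancel hp.one_lt.le, pa2_pow, mul_one]), one_mul]
  have e2 : cmb α x ^ p = algebraMap E E' (∑ i, x i ^ p * u ^ (i : ℕ)) := by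
    simp only [cmb, sum_pow_char, map_sum, map_mul, map_pow, mul_pow, ← h.pow, ← pow_mul,
      mul_comm p]
  rw [ZFd.jacobson, pa2_it hδ, pa2_it hδ, hδ, e1, cmb_sub, cmb_single, e2, Ps, map_sub]
  simp only [pa2_pow]
  ring

open Polynomial in
theorem pa2_eig {K V : Type} [Field K] [AddCommGroup V] [Module K V] (T : Module.End K V)
    (m : Multiset K) : ∀ x, x ≠ 0 → aeval T (m.map fun c => X - C c).prod x = 0 →
      ∃ y, y ≠ 0 ∧ ∃ c : K, T y = c • y := by
  induction m using Multiset.induction_on with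
  | empty => exact fun x h0 h => absurd (by simpa using h) h0
  | cons c m ih =>
    intro x h0 h
    by_cases e : T x - c • x = 0
    · exact ⟨x, h0, c, sub_eq_zero.1 e⟩
    refine ih _ e ?_
    rw [Multiset.map_cons, Multiset.prod_cons, mul_comm, map_mul, Module.End.mul_apply] at h
    simpa [Module.algebraMap_end_apply] using h

open Polynomial in
theorem pa2_prod : ((Finset.univ : Finset (ZMod p)).val.map fun c => X - C c).prod = X ^ p - X := by
  have h1 : 1 < p := (Fact.out : p.Prime).one_lt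
  have hr := FiniteField.roots_X_pow_card_sub_X (ZMod p)
  rw [ZMod.card] at hr
  rw [← hr]
  refine prod_multiset_X_sub_C_of_monic_of_roots_card_eq
    (monic_X_pow_sub (by rw [degree_X]; exact_mod_cast h1)) ?_
  rw [hr, FiniteField.X_pow_card_sub_X_natDegree_eq _ h1, Finset.card_val, Finset.card_univ,
    ZMod.card]

/-- `T = δ - z` satisfies `T ^ p = T`, so it has an eigenvector with eigenvalue in the prime field -/
theorem IsEu.dlog_iff (h : Rad p α u) (hδ : IsEu p E δ α) (x : Fin p → E) :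
    (∃ f : E'ˣ, δ f = cmb α x * f) ↔ Ps u x = 0 := by
  have hc : CharP E' p := charP_of_injective_algebraMap (algebraMap E E').injective p
  have hp : p.Prime := Fact.out
  have e0 : Ps u (0 - x) = - Ps u x := by
    rw [Ps_sub, ← sub_self x, Ps_sub, sub_self, zero_sub]
  have e1 : cmb α (0 - x) = - cmb α x := by
    rw [cmb_sub, ← sub_self x, cmb_sub, sub_self, zero_sub]
  have it := hδ.iter h (0 - x)
  simp only [e0, e1] at it
  refine ⟨fun ⟨f, hf⟩ => ?_, fun h0 => ?_⟩
  · have e2 : δ f + -cmb α x * f = 0 := by rw [hf]; ring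
    have e3 : ∀ n, n ≠ 0 → (fun y => δ y + -cmb α x * y)^[n] f = 0 := by
      rintro (_ | n) hn
      · exact absurd rfl hn
      · rw [Function.iterate_succ_apply, e2, Function.iterate_fixed (by simp)]
    have := it f
    rw [e3 p hp.ne_zero, e2, zero_add] at this
    simpa using this
  let _ := ZMod.algebra E' p
  let T : Module.End (ZMod p) E' :=
    (δ.toLinearMap.toAddMonoidHom + AddMonoidHom.mulLeft (-cmb α x)).toZModLinearMap p
  obtain ⟨f, f0, c, hf⟩ := pa2_eig T Finset.univ.val 1 one_ne_zero (by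
    rw [pa2_prod, map_sub, map_pow, Polynomial.aeval_X, LinearMap.sub_apply, Module.End.pow_apply,
      sub_eq_zero]
    exact (it 1).trans (by rw [h0, neg_zero, map_zero, zero_mul, add_zero]; rfl))
  obtain ⟨n, rfl⟩ := ZMod.natCast_zmod_surjective c
  rw [Nat.cast_smul_eq_nsmul, nsmul_eq_mul] at hf
  replace hf : δ f + -cmb α x * f = n * f := hf
  have a0 : α ≠ 0 := fun e => h.np 0 ((algebraMap E E').injective (by
    rw [← h.pow, e, map_pow, map_zero]))
  have d1 : δ α = α := by
    have e : ∀ a : E, cmb α (Pi.single (⟨1, hp.one_lt⟩ : Fin p) a) = algebraMap E E' a * α :=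
      fun a => by
        rw [cmb, Finset.sum_eq_single ⟨1, hp.one_lt⟩
          (fun i _ hi => by simp [Pi.single_eq_of_ne hi]) (by simp)]
        simp
    have := hδ (Pi.single ⟨1, hp.one_lt⟩ 1)
    rw [show (fun i : Fin p => ((i : ℕ) : E) * (Pi.single ⟨1, hp.one_lt⟩ 1 : Fin p → E) i) =
      Pi.single ⟨1, hp.one_lt⟩ 1 from funext fun i => by
        by_cases hi : i = ⟨1, hp.one_lt⟩ <;> simp [hi], e] at this
    simpa using this
  have d2 : δ (α ^ n) = n * α ^ n := by
    rw [δ.leibniz_pow, d1]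
    rcases n with _ | n
    · simp
    · rw [Nat.add_sub_cancel, smul_eq_mul, nsmul_eq_mul, pow_succ]
  obtain ⟨g, rfl⟩ : ∃ g, f = α ^ n * g := ⟨_, (mul_div_cancel₀ f (pow_ne_zero n a0)).symm⟩
  refine ⟨Units.mk0 g (right_ne_zero_of_mul f0), mul_left_cancel₀ (pow_ne_zero n a0) ?_⟩
  rw [δ.leibniz, d2, smul_eq_mul, smul_eq_mul] at hf
  rw [Units.val_mk0]
  linear_combination hf

end Pool.Agent.ZCy.F
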