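import Pool.Agent.Lib.MP_751085_ag.ZC.W2a
import Pool.Agent.Lib.MP_751085_ag.ZC.W3b

/-! Partial fractions. -/

namespace Pool.Agent.ZCy.F

open scoped Classical WithZero Polynomial IntermediateField

variable {K F : Type} [Field K] [Field F] [Algebra K F] {t : F}

theorem pb1_le {v : Vl F} (hv : Triv (algebraMap K F) v) (h : v t ≤ 1) (p : K[X]) :
    v (Polynomial.aeval t p) ≤ 1 := by
  rw [Polynomial.aeval_eq_sum_range]
  refine v.map_sum_le fun i _ => ?_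
  rw [Algebra.smul_def, map_mul, map_pow]
  exact mul_le_one' (w2a_C hv _) (pow_le_one' h _)

theorem pb1_fac {v : Vl F} (hv : Triv (algebraMap K F) v) (h : v t ≤ 1) (a : K[X]) :
    a ≠ 0 → v (Polynomial.aeval t a) < 1 → ∃ P : MI K, v (Polynomial.aeval t P.1) < 1 := by
  induction a using WfDvdMonoid.induction_on_irreducible with
  | zero => simp
  | unit u hu =>
    obtain ⟨c, hc, rfl⟩ := Polynomial.isUnit_iff.1 hu
    simp [hv c hc.ne_zero]
  | mul a i ha hi ih =>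
    refine fun _ h1 => (pb1_le hv h a).eq_or_lt.elim (fun h2 => ?_) (ih ha)
    refine ⟨⟨_, Polynomial.monic_mul_leadingCoeff_inv hi.ne_zero,
      Polynomial.irreducible_mul_leadingCoeff_inv.2 hi⟩, ?_⟩
    rw [map_mul, map_mul, h2, mul_one] at h1
    rw [map_mul, map_mul]
    exact (mul_le_of_le_one_right' (pb1_le hv h _)).trans_lt h1

theorem pb1_cen {v : Vl F} (hv : Triv (algebraMap K F) v) (h : v t ≤ 1) {P : K[X]}
    (hP : Irreducible P) (h1 : v (Polynomial.aeval t P) < 1) (a : K[X]) :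
    v (Polynomial.aeval t a) < 1 ↔ P ∣ a := by
  have h2 : ∀ b c, v (Polynomial.aeval t c) < 1 → v (Polynomial.aeval t (b * c)) < 1 :=
    fun b c hc => by
      rw [map_mul, map_mul]
      exact (mul_le_of_le_one_left' (pb1_le hv h b)).trans_lt hc
  refine ⟨fun ha => by_contra fun hn => ?_, fun ⟨b, e⟩ => by rw [e, mul_comm]; exact h2 _ _ h1⟩
  obtain ⟨b, c, e⟩ := hP.coprime_iff_not_dvd.2 hn
  have := v.map_add_lt (h2 b _ h1) (h2 c _ ha)
  rw [← map_add, e, map_one, map_one] at this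
  exact this.false

theorem pb1_fin (ht : Transcendental K t) (hF : K⟮t⟯ = ⊤) : ∃ w : MI K → Vl F,
    (∀ P, Nrm (w P) ∧ Triv (algebraMap K F) (w P)) ∧
    (∀ P (a : K[X]), w P (Polynomial.aeval t a) ≤ 1 ∧ (w P (Polynomial.aeval t a) < 1 ↔ P.1 ∣ a)) ∧
    (∀ x, {P | ord (w P) x ≠ 0}.Finite) ∧
    ∀ v, Nrm v → Triv (algebraMap K F) v → v t ≤ 1 → ∃ P, v = w P := by
  obtain ⟨_, _, e⟩ := w3b_frac ht hF
  obtain ⟨w, h1, h2, -, h4, -⟩ := poly_div K F
  have hn : ∀ P, Nrm (w P) := fun P => ⟨algebraMap K[X] F P.1, by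
    rw [ord_eq ((map_ne_zero_iff _ (IsFractionRing.injective K[X] F)).2 P.2.2.ne_zero), h2,
      if_pos rfl]⟩
  refine ⟨w, fun P => ⟨hn P, fun a ha => ?_⟩, fun P a => e a ▸ ⟨(h1 P).1 a, (h1 P).2 a⟩, h4,
    fun v hv hv' h => ?_⟩
  · rw [← Polynomial.aeval_C t a, ← e]
    exact ((h1 P).eq_one _).2 fun h =>
      P.2.2.not_isUnit (isUnit_of_dvd_unit h (Polynomial.isUnit_C.2 ha.isUnit))
  · obtain ⟨π, h0, hπ⟩ := hv.exists_ord
    have h5 := (ord_pos h0).1 (hπ ▸ one_pos)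
    obtain ⟨a, b, -, rfl⟩ := IsFractionRing.div_surjective (A := K[X]) π
    rw [map_div₀, e, e, div_lt_one₀ ((Valuation.pos_iff v).2 (e b ▸ (div_ne_zero_iff.1 h0).2))]
      at h5
    obtain ⟨P, hP⟩ := pb1_fac hv' h a (by rintro rfl; simp at h0) (h5.trans_le (pb1_le hv' h b))
    exact ⟨P, vn_eq (hn P) hv (vn_cen P.2.2.prime (h1 P) ⟨fun a => e a ▸ pb1_le hv' h a,
      fun a => e a ▸ pb1_cen hv' h P.2.2 hP a⟩).1⟩

theorem pb1_inv {v : Vl F} : 1 < v t ↔ t ≠ 0 ∧ v t⁻¹ < 1 :=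
  ⟨fun h => have h0 : t ≠ 0 := fun e => by simp [e] at h
    ⟨h0, (v.one_lt_val_iff h0).1 h⟩, fun h => (v.one_lt_val_iff h.1).2 h.2⟩

theorem pf_places (ht : Transcendental K t) (hF : K⟮t⟯ = ⊤) : ∃ w : MI K → Vl F,
    (∀ P, Nrm (w P) ∧ Triv (algebraMap K F) (w P)) ∧
    (∀ P (a : K[X]), w P (Polynomial.aeval t a) ≤ 1 ∧ (w P (Polynomial.aeval t a) < 1 ↔ P.1 ∣ a)) ∧
    (∀ x, {P | ord (w P) x ≠ 0}.Finite) ∧
    (∀ v, Nrm v → Triv (algebraMap K F) v → v t ≤ 1 → ∃ P, v = w P) ∧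
    (∀ v v' : Vl F, Nrm v → Nrm v' → Triv (algebraMap K F) v → Triv (algebraMap K F) v' →
      1 < v t → 1 < v' t → v = v') ∧
    ∃ v : Vl F, Nrm v ∧ Triv (algebraMap K F) v ∧ 1 < v t := by
  obtain ⟨w, h1, h2, h3, h4⟩ := pb1_fin ht hF
  obtain ⟨u, k1, k2, -⟩ := pb1_fin (fun h => ht (IsAlgebraic.inv_iff.1 h)) (w3b_inv_top hF)
  refine ⟨w, h1, h2, h3, h4, fun v v' hv hv' h h' e e' => vn_eq hv' hv
    ((ratfunc_val (w3b_inv_top hF) h' (pb1_inv.1 e').2).2 v h (pb1_inv.1 e).2),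
    u ⟨_, Polynomial.monic_X, Polynomial.irreducible_X⟩, (k1 _).1, (k1 _).2,
    pb1_inv.2 ⟨fun e => ht (e ▸ isAlgebraic_zero), ?_⟩⟩
  simpa using (k2 ⟨_, Polynomial.monic_X, Polynomial.irreducible_X⟩ Polynomial.X).2.2 dvd_rfl

theorem pf_inf {v : Vl F} (hv : Triv (algebraMap K F) v) (h : 1 < v t) {a : K[X]} (ha : a ≠ 0) :
    v (Polynomial.aeval t a) = v t ^ a.natDegree := by
  let := invertibleOfNonzero (pb1_inv.1 h).1
  rw [Polynomial.aeval_def, ← Polynomial.eval₂_reverse_mul_pow, map_mul, map_pow, invOf_eq_inv,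
    ← Polynomial.aeval_def, w2a_one hv (pb1_inv.1 h).2 (by simpa using ha), one_mul]

theorem pf_fin (ht : Transcendental K t) (hF : K⟮t⟯ = ⊤) (y : F) :
    {v : Vl F | Nrm v ∧ Triv (algebraMap K F) v ∧ 1 < v y}.Finite := by
  obtain ⟨w, -, -, h3, h4, h5, u, k1, k2, k3⟩ := pf_places ht hF
  refine (((h3 y).image w).insert u).subset fun v ⟨hv, hv', h⟩ => ?_
  rcases le_or_gt (v t) 1 with h1 | h1
  · obtain ⟨P, rfl⟩ := h4 v hv hv' h1
    exact .inr ⟨P, fun e => h.ne' ((ord_eq_zero (pb1_inv.1 h).1).1 e), rfl⟩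
  · exact .inl (h5 v u hv k1 hv' k2 h1 k3)

theorem pf_const (ht : Transcendental K t) (hF : K⟮t⟯ = ⊤) {y : F}
    (h : ∀ v : Vl F, Nrm v → Triv (algebraMap K F) v → v y ≤ 1) : ∃ c, algebraMap K F c = y := by
  obtain ⟨w, h1, h2, -, -, -, u, k1, k2, k3⟩ := pf_places ht hF
  obtain ⟨_, _, e⟩ := w3b_frac ht hF
  obtain ⟨a, b, hab, rfl⟩ := IsFractionRing.exists_reduced_fraction K[X] y
  have hb := (map_ne_zero_iff _ (IsFractionRing.injective K[X] F)).2 (nonZeroDivisors.ne_zero b.2)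
  rw [IsFractionRing.mk'_eq_div] at h ⊢
  obtain ⟨c, hc, e1⟩ := Polynomial.isUnit_iff.1 (show IsUnit (b : K[X]) by
    by_contra hn
    obtain ⟨P, hm, hP, hd⟩ := Polynomial.exists_monic_irreducible_factor _ hn
    have h3 := h _ (h1 ⟨P, hm, hP⟩).1 (h1 _).2
    rw [map_div₀, div_le_one₀ ((Valuation.pos_iff _).2 hb), e, e] at h3
    exact hP.not_isUnit (hab ((h2 _ a).2.1 (h3.trans_lt ((h2 _ _).2.2 hd))) hd))
  rcases eq_or_ne a 0 with rfl | ha
  · exact ⟨0, by simp⟩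
  have h3 := h u k1 k2
  rw [map_div₀, ← e1, e, e, Polynomial.aeval_C, k2 c hc.ne_zero, div_one, pf_inf k2 k3 ha] at h3
  refine ⟨a.coeff 0 / c, ?_⟩
  rw [map_div₀, ← e1, e, e, Polynomial.aeval_C, ← Polynomial.aeval_C t,
    ← Polynomial.eq_C_of_natDegree_eq_zero
      (by_contra fun hn => (one_lt_pow' k3 hn).not_ge h3)]

theorem pf_alg (ht : Transcendental K t) (hF : K⟮t⟯ = ⊤) {y : F} (h : IsAlgebraic K y) :
    ∃ c, algebraMap K F c = y := by
  exact pf_const ht hF fun _ _ hv => r0_alg hv h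

theorem pb2_fr (ht : Transcendental K t) (hF : K⟮t⟯ = ⊤) :
    IsFr (Polynomial.aeval t : K[X] →ₐ[K] F).toRingHom := by
  obtain ⟨_, _, h⟩ := w3b_frac ht hF
  exact (RingHom.ext h : algebraMap K[X] F = (Polynomial.aeval t : K[X] →ₐ[K] F).toRingHom) ▸
    isFr_alg K[X] F

theorem pb2_inf {v : Vl F} (hv : Triv (algebraMap K F) v) (h : 1 < v t) {a b : K[X]}
    (hd : a.degree < b.degree) : v (Polynomial.aeval t a / Polynomial.aeval t b) ≤ 1 := by
  by_cases ha : a = 0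
  · simp [ha]
  rw [map_div₀, pf_inf hv h ha, pf_inf hv h (Polynomial.ne_zero_of_degree_gt hd),
    div_le_one₀ (pow_pos (zero_lt_one.trans h) _)]
  exact pow_le_pow_right₀ h.le (Polynomial.natDegree_le_natDegree hd.le)

/-- the principal part -/
theorem pf_part (ht : Transcendental K t) (hF : K⟮t⟯ = ⊤) {v : Vl F} (hv : Nrm v)
    (hv' : Triv (algebraMap K F) v) (x : F) : ∃ x', v (x - x') ≤ 1 ∧
      ∀ v' : Vl F, Nrm v' → Triv (algebraMap K F) v' → v' ≠ v → v' x' ≤ 1 := by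
  obtain ⟨w, -, h2, -, h4, h5, -⟩ := pf_places ht hF
  obtain ⟨hi, hs⟩ := pb2_fr ht hF
  obtain ⟨a, b, hb, e⟩ := hs x
  have h0 : ∀ b : K[X], b ≠ 0 → Polynomial.aeval t b ≠ 0 := fun b => (map_ne_zero_iff _ hi).2
  obtain rfl : x = Polynomial.aeval t a / Polynomial.aeval t b := eq_div_of_mul_eq (h0 b hb) e
  have h1 : ∀ (P : MI K) (a b : K[X]), ¬P.1 ∣ b →
      w P (Polynomial.aeval t a / Polynomial.aeval t b) ≤ 1 := fun P a b h => by
    rw [map_div₀, le_antisymm (h2 P b).1 (not_lt.1 (mt (h2 P b).2.1 h)), div_one]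
    exact (h2 P a).1
  rcases lt_or_ge 1 (v t) with h | h
  · refine ⟨Polynomial.aeval t (a / b), le_of_eq_of_le (congrArg v ?_)
      (pb2_inf hv' h (Polynomial.degree_mod_lt a hb)), fun u hu hu' hn => ?_⟩
    · rw [EuclideanDomain.mod_eq_sub_mul_div, map_sub, map_mul, sub_div,
        mul_div_cancel_left₀ _ (h0 b hb)]
    · obtain ⟨P, rfl⟩ := h4 u hu hu' (not_lt.1 fun h' => hn (h5 u v hu hv hu' hv' h' h))
      exact (h2 P _).1
  obtain ⟨P, rfl⟩ := h4 v hv hv' h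
  obtain ⟨n, d, hd, rfl⟩ := WfDvdMonoid.max_power_factor' hb P.2.2.not_isUnit
  obtain ⟨u, c, huc⟩ := (P.2.2.coprime_iff_not_dvd.2 hd).pow_left (m := n)
  have hm := P.2.1.pow n
  refine ⟨Polynomial.aeval t (a * c %ₘ P.1 ^ n) / Polynomial.aeval t (P.1 ^ n),
    le_of_eq_of_le (congrArg (w P) ?_) (h1 P (a * u + d * (a * c /ₘ P.1 ^ n)) d hd),
    fun u hu hu' hn => ?_⟩
  · have k1 := h0 _ hm.ne_zero
    have k2 := h0 _ (right_ne_zero_of_mul hb)
    have k3 := congrArg (Polynomial.aeval t) huc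
    rw [Polynomial.modByMonic_eq_sub_mul_div]
    generalize P.1 ^ n = Q at *
    simp only [map_add, map_sub, map_mul, map_one] at k3 ⊢
    field_simp
    linear_combination (-Polynomial.aeval t a) * k3
  · rcases lt_or_ge 1 (u t) with h' | h'
    · exact pb2_inf hu' h' (Polynomial.degree_modByMonic_lt _ hm)
    obtain ⟨Q, rfl⟩ := h4 u hu hu' h'
    exact h1 Q _ _ fun h => hn (congrArg w (Subtype.ext (Polynomial.eq_of_monic_of_associated
      Q.2.1 P.2.1 (Q.2.2.associated_of_dvd P.2.2 (Q.2.2.prime.dvd_of_dvd_pow h)))))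

/-- subtract the images of the principal parts at the poles of `y` -/
theorem pf_main (ht : Transcendental K t) (hF : K⟮t⟯ = ⊤) {ι : Type} (Ψ : (ι → F) →+ F)
    (hΨ : ∀ v : Vl F, Triv (algebraMap K F) v → ∀ x, (∀ i, v (x i) ≤ 1) → v (Ψ x) ≤ 1) {y : F}
    (h : ∀ v : Vl F, Nrm v → Triv (algebraMap K F) v → ∃ x, v (y - Ψ x) ≤ 1) :
    ∃ x c, y = Ψ x + algebraMap K F c := by
  have hS := pf_fin ht hF y
  choose! x hx using h
  choose! z hz hz' using fun (v : Vl F) hv hv' a => pf_part (v := v) ht hF hv hv' a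
  obtain ⟨c, hc⟩ := pf_const ht hF (y := y - Ψ (∑ u ∈ hS.toFinset, fun i => z u (x u i)))
    fun v hv hv' => by
      have h1 : ∀ s ⊆ hS.toFinset, v ∉ s → v (Ψ (∑ u ∈ s, fun i => z u (x u i))) ≤ 1 :=
        fun s hs hn => by
          rw [map_sum]
          refine v.map_sum_le fun u hu => hΨ v hv' _ fun i => ?_
          obtain ⟨h1, h2, -⟩ := hS.mem_toFinset.1 (hs hu)
          exact hz' u h1 h2 _ v hv hv' fun e => hn (e ▸ hu)
      by_cases hm : v ∈ hS.toFinset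
      · rw [← Finset.add_sum_erase _ _ hm, map_add, ← sub_sub, ← sub_add_sub_cancel y (Ψ (x v)),
          ← map_sub]
        exact v.map_sub_le (v.map_add_le (hx v hv hv') (hΨ v hv' _ fun i => hz v hv hv' _))
          (h1 _ (Finset.erase_subset _ _) (Finset.notMem_erase _ _))
      · exact v.map_sub_le (not_lt.1 fun h => hm (hS.mem_toFinset.2 ⟨hv, hv', h⟩))
          (h1 _ subset_rfl hm)
  exact ⟨_, c, by rw [hc, add_sub_cancel]⟩

/-- the residue fields are algebraic over `K` -/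
theorem pf_res (ht : Transcendental K t) (hF : K⟮t⟯ = ⊤) {v : Vl F} (hv : Nrm v)
    (hv' : Triv (algebraMap K F) v) {y : F} (hy : v y ≤ 1) :
    ∃ q : K[X], q.Monic ∧ v (Polynomial.aeval y q) < 1 := by
  rcases lt_or_ge 1 (v t) with h | h
  · obtain ⟨z, hz⟩ := (ratfunc_val (w3b_inv_top hF) hv'
      (by rw [map_inv₀]; exact inv_lt_one_of_one_lt₀ h)).1 y hy
    exact ⟨_, Polynomial.monic_X_sub_C z, by simpa using hz⟩
  obtain ⟨w, -, h2, -, h4, -⟩ := pf_places ht hF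
  obtain ⟨P, rfl⟩ := h4 v hv hv' h
  have hc : Cen (Polynomial.aeval t : K[X] →ₐ[K] F).toRingHom (w P) P.1 :=
    ⟨fun a => (h2 P a).1, fun a => (h2 P a).2⟩
  obtain ⟨a, b, hb, e⟩ := (hc.le_one_iff (pb2_fr ht hF) P.2.2.prime y).1 hy
  obtain ⟨κ, _, ρ, hρ, -⟩ := exists_resf (w P)
  let ψ : K[X] →+* (w P).integer := RingHom.codRestrict _ _ hc.1
  let := (ρ.comp (ψ.comp Polynomial.C)).toAlgebra
  have k1 : ∀ (p : K[X]) (y : (w P).integer),
      ρ (p.eval₂ (ψ.comp Polynomial.C) y) = Polynomial.aeval (ρ y) p := fun p y =>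
    Polynomial.hom_eval₂ _ _ _ _
  have k2 : ∀ p : K[X], ρ (ψ p) = Polynomial.aeval (ρ (ψ Polynomial.X)) p := fun p => by
    rw [← k1, ← Polynomial.hom_eval₂, Polynomial.eval₂_C_X]
  have k3 : IsIntegral K (ρ (ψ Polynomial.X)) := IsAlgebraic.isIntegral
    ⟨P.1, P.2.1.ne_zero, (k2 _).symm.trans ((hρ _).2 ((hc.2 _).2 dvd_rfl))⟩
  have k4 : ∀ p : K[X], ρ (ψ p) ∈ algebraicClosure K κ := fun p =>
    k2 p ▸ adjoin_le_integralClosure k3 (Polynomial.aeval_mem_adjoin_singleton K _)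
  have k5 : ρ ⟨y, hy⟩ * ρ (ψ b) = ρ (ψ a) :=
    (map_mul _ _ _).symm.trans (congrArg ρ (Subtype.ext e))
  obtain ⟨q, hq, k6⟩ : IsIntegral K (ρ ⟨y, hy⟩) :=
    eq_div_of_mul_eq ((hρ.ne_zero _).2 ((hc.eq_one b).2 hb)) k5 ▸ div_mem (k4 a) (k4 b)
  refine ⟨q, hq, lt_of_eq_of_lt (congrArg (w P) ?_) ((hρ _).1 ((k1 q ⟨y, hy⟩).trans k6))⟩
  refine Eq.trans ?_ (Polynomial.hom_eval₂ q (ψ.comp Polynomial.C) (w P).integer.subtype _).symm
  exact congrArg (fun f => q.eval₂ f y) (RingHom.ext fun c => (Polynomial.aeval_C t c).symm)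

end Pool.Agent.ZCy.F
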