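import Pool.Agent.Lib.MP_751085_ag.ZF.W.Pa
import Pool.Agent.Lib.MP_751085_ag.ZC.G2

/-! Cocycles that split after adjoining a `p`-th root. -/

namespace Pool.Agent.ZCy.F

open scoped Classical
open groupCohomology

/-- additive form of Hilbert 90 -/
theorem add_h90 {G B : Type} [Group G] [Finite G] [Field B] [MulSemiringAction G B]
    [FaithfulSMul G B] {a : G → B} (h : ∀ g g', a (g * g') = g • a g' + a g) :
    ∃ z, ∀ g, a g = g • z - z := by
  have := Fintype.ofFinite G
  let χ : G → (B →* B) := fun g => (MulSemiringAction.toRingHom G B g : B →+* B)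
  have hχ : Function.Injective χ := fun g g' e => eq_of_smul_eq_smul (DFunLike.congr_fun e)
  obtain ⟨t, ht⟩ : ∃ t : B, ∑ g : G, g • t ≠ 0 := by
    by_contra h0
    refine one_ne_zero (Fintype.linearIndependent_iff.1
      ((linearIndependent_monoidHom B B).comp χ hχ) (fun _ => 1) (funext fun t => ?_) 1)
    rw [Finset.sum_apply]
    simp only [one_smul]
    exact not_not.1 fun h1 => h0 ⟨t, h1⟩
  refine ⟨-(∑ k, a k * k • t) / ∑ k : G, k • t, fun g => ?_⟩
  have h1 : g • ∑ k : G, k • t = ∑ k : G, k • t := by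
    rw [Finset.smul_sum]
    exact Fintype.sum_equiv (Equiv.mulLeft g) _ _ fun k => (mul_smul g k t).symm
  have h2 : g • ∑ k, a k * k • t = ∑ k, a k * k • t - a g * ∑ k : G, k • t := by
    rw [← h1, Finset.smul_sum, Finset.smul_sum, Finset.mul_sum, eq_sub_iff_add_eq,
      ← Finset.sum_add_distrib]
    refine Fintype.sum_equiv (Equiv.mulLeft g) _ _ fun k => ?_
    rw [Equiv.coe_mulLeft, h, smul_mul', mul_smul, add_mul]
  rw [smul_div₀', smul_neg, h1, h2]
  field_simp
  ring

variable {p : ℕ} [Fact p.Prime] {G E E' : Type} [Group G] [Finite G] [Field E] [Field E']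
  [CharP E p] [Algebra E E'] [MulSemiringAction G E] [FaithfulSMul G E] [MulSemiringAction G E']
  {α : E'} {u : E} {δ : Derivation ℤ E' E'} {c : G × G → Eˣ} {e : G → E'ˣ} {x : Fin p → E}

/-- the setting: the action on `E'` extends the action on `E` and fixes `α` -/
structure RadG (p : ℕ) (G : Type) {E E' : Type} [Group G] [Field E] [Field E'] [Algebra E E']
    [MulSemiringAction G E] [MulSemiringAction G E'] (α : E') (u : E)
    (δ : Derivation ℤ E' E') : Prop where
  rad : Rad p α u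
  eu : IsEu p E δ α
  alg : ∀ (g : G) x, g • algebraMap E E' x = algebraMap E E' (g • x)
  fix : ∀ g : G, g • α = α

/-- `c` splits in `E'` by `e`, and `x` splits the logarithmic derivative of `e` -/
structure Spl (α : E') (δ : Derivation ℤ E' E') (c : G × G → Eˣ) (e : G → E'ˣ) (x : Fin p → E) :
    Prop where
  cob : ∀ q, Units.map (algebraMap E E' : E →* E') (c q) = dd e q
  dl : ∀ g, δ (e g) = cmb α (fun i => g • x i - x i) * e g

section

omit [Finite G] [CharP E p] [FaithfulSMul G E]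

/-- the logarithmic derivative -/
def pcL (δ : Derivation ℤ E' E') (f : E'ˣ) : E' := δ f / f

theorem pc_iff {f : E'ˣ} {z : E'} : δ f = z * f ↔ pcL δ f = z := (div_eq_iff f.ne_zero).symm

theorem pc_mul (f f' : E'ˣ) : pcL δ (f * f') = pcL δ f + pcL δ f' := by
  rw [pcL, pcL, pcL, Units.val_mul, Derivation.leibniz, smul_eq_mul, smul_eq_mul]
  field_simp
  ring

theorem pc_div (f f' : E'ˣ) : pcL δ (f / f') = pcL δ f - pcL δ f' := by
  rw [eq_sub_iff_add_eq, ← pc_mul, div_mul_cancel]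

theorem pc_alg (h : RadG p G α u δ) (v : Eˣ) :
    pcL δ (Units.map (algebraMap E E' : E →* E') v) = 0 :=
  pc_iff.1 ((h.eu.alg v).trans (zero_mul _).symm)

theorem pc_smul (h : RadG p G α u δ) (g : G) (f : E'ˣ) : pcL δ (g • f) = g • pcL δ f := by
  rw [pcL, pcL, smul_div₀']
  exact congrArg (· / g • (f : E')) (h.eu.map h.rad h.eu (σ := MulSemiringAction.toRingHom G E g)
    (σ' := MulSemiringAction.toRingHom G E' g) (h.alg g) (h.fix g) f)

omit [Fact p.Prime] in
theorem pc_cmb (h : RadG p G α u δ) (g : G) (x : Fin p → E) :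
    g • cmb α x = cmb α fun i => g • x i :=
  cmb_map (σ := MulSemiringAction.toRingHom G E g) (σ' := MulSemiringAction.toRingHom G E' g)
    (h.alg g) (h.fix g) x

omit [Fact p.Prime] in
theorem pc_sub (h : RadG p G α u δ) (g : G) (x : Fin p → E) :
    (cmb α fun i => g • x i - x i) = g • cmb α x - cmb α x := by
  rw [pc_cmb h, ← cmb_sub]
  rfl

omit [Fact p.Prime] in
theorem pc_dl (h : RadG p G α u δ) (hx : Spl α δ c e x) (g : G) :
    pcL δ (e g) = g • cmb α x - cmb α x := (pc_iff.1 (hx.dl g)).trans (pc_sub h g x)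

end

omit [Fact p.Prime] [Finite G] [CharP E p] in
theorem pc_faith (h : RadG p G α u δ) : FaithfulSMul G E' :=
  ⟨fun H => eq_of_smul_eq_smul fun y : E => (algebraMap E E').injective
    ((h.alg _ y).symm.trans ((H _).trans (h.alg _ y)))⟩

omit [Fact p.Prime] [Finite G] [CharP E p] in
theorem pc_dd (h : RadG p G α u δ) (ε : G → Eˣ) (q : G × G) :
    Units.map (algebraMap E E' : E →* E') (dd ε q) =
      dd (fun g => Units.map (algebraMap E E' : E →* E') (ε g)) q :=
  congrFun (pull_dd (j := algebraMap E E') (r := id) (fun g y => (h.alg g y).symm) ε) q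

theorem RadG.exists_spl (h : RadG p G α u δ)
    (he : ∀ q, Units.map (algebraMap E E' : E →* E') (c q) = dd e q) :
    ∃ x : Fin p → E, Spl α δ c e x := by
  have := pc_faith h
  obtain ⟨z, hz⟩ := add_h90 (a := fun g => pcL δ (e g)) fun g g' => by
    have h1 := pc_alg h (c (g, g'))
    rw [he, dd_apply, pc_mul, pc_div, pc_smul h] at h1
    linear_combination -h1
  obtain ⟨x, rfl⟩ := h.rad.bij.2 z
  exact ⟨x, he, fun g => pc_iff.2 ((hz g).trans (pc_sub h g x).symm)⟩

theorem RadG.fix_ps (h : RadG p G α u δ) (hx : Spl α δ c e x) (g : G) : g • Ps u x = Ps u x := by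
  have h1 := (h.eu.dlog_iff h.rad ((fun i => g • x i) - x)).1 ⟨e g, hx.dl g⟩
  have h2 : g • u = u := (algebraMap E E').injective (by
    rw [← h.alg, ← h.rad.pow, smul_pow', h.fix])
  rw [Ps_sub, sub_eq_zero] at h1
  refine (Ps_map (MulSemiringAction.toRingHom G E g) u x).trans (Eq.trans ?_ h1)
  exact congrArg (fun v => Ps v fun i => g • x i) h2

theorem RadG.loc (h : RadG p G α u δ) (hx : Spl α δ c e x) {H : Subgroup G} (hc : CobOn H c) :
    ∃ x' : Fin p → E, (∀ g ∈ H, ∀ i, g • x' i = x' i) ∧ Ps u x' = Ps u x := by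
  have := pc_faith h
  obtain ⟨ε, hε⟩ := hc
  obtain ⟨f, hf⟩ := h90 H (e / fun g => Units.map (algebraMap E E' : E →* E') (ε g))
    fun g hg g' hg' => by
      have h1 : dd (e / fun g => Units.map (algebraMap E E' : E →* E') (ε g)) (g, g') = 1 := by
        rw [dd_div, Pi.div_apply, ← hx.cob, ← pc_dd h, hε g hg g' hg', div_self']
      rw [dd_apply, div_mul_eq_mul_div, div_eq_one] at h1
      exact h1.symm
  obtain ⟨y, hy⟩ := h.rad.bij.2 (pcL δ f)
  refine ⟨x - y, fun g hg => congrFun (h.rad.bij.1 ?_), ?_⟩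
  · have h1 := congrArg (pcL δ) (hf g hg)
    rw [Pi.div_apply, pc_div, pc_div, pc_alg h, pc_smul h, pc_dl h hx, ← hy] at h1
    rw [← pc_cmb h, cmb_sub, smul_sub]
    linear_combination h1
  · rw [Ps_sub, (h.eu.dlog_iff h.rad y).1 ⟨f, pc_iff.2 hy.symm⟩, sub_zero]

theorem RadG.cob (h : RadG p G α u δ) (hx : Spl α δ c e x) {x₀ : Fin p → E}
    (h0 : ∀ (g : G) i, g • x₀ i = x₀ i) (h1 : Ps u x₀ = Ps u x) : ∃ ε, c = dd ε := by
  obtain ⟨f, hf⟩ := (h.eu.dlog_iff h.rad (x - x₀)).2 (by rw [Ps_sub, h1, sub_self])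
  have h2 : ∀ g : G, ∃ ε : Eˣ,
      Units.map (algebraMap E E' : E →* E') ε = e g / (g • f / f) := fun g => by
    have h3 : pcL δ (e g / (g • f / f)) = 0 := by
      rw [pc_div, pc_div, pc_smul h, pc_dl h hx, pc_iff.1 hf, cmb_sub, smul_sub, pc_cmb h g x₀,
        funext (h0 g)]
      ring
    obtain ⟨a, ha⟩ := h.eu.ker h.rad ((pc_iff.2 h3).trans (zero_mul _))
    exact ⟨Units.mk0 a fun h4 => Units.ne_zero _ (ha.symm.trans (h4 ▸ map_zero _)), Units.ext ha⟩
  choose ε hε using h2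
  refine ⟨ε, funext fun q => Units.map_injective (f := (algebraMap E E' : E →* E'))
    (algebraMap E E').injective ?_⟩
  have h3 : dd (fun g : G => g • f / f) q = 1 := by
    rw [dd, smul_div', mul_smul, div_mul_eq_mul_div, div_mul_div_cancel, div_self']
  rw [pc_dd h, funext hε, hx.cob]
  exact (div_one _).symm.trans ((congrArg _ h3.symm).trans
    (congrFun (dd_div e fun g : G => g • f / f) q).symm)

theorem RadG.up (h : RadG p G α u δ) (hx : Spl α δ c e x) {G₁ E₁ E₁' : Type} [Group G₁] [Field E₁]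
    [Field E₁'] [Algebra E₁ E₁'] [MulSemiringAction G₁ E₁] [MulSemiringAction G₁ E₁'] {α₁ : E₁'}
    {δ₁ : Derivation ℤ E₁' E₁'} {j : E →+* E₁} {r : G₁ → G} (hr : ∀ g y, j (r g • y) = g • j y)
    (h₁ : RadG p G₁ α₁ (j u) δ₁) : ∃ e₁, Spl α₁ δ₁ (pull j r c) e₁ (j ∘ x) := by
  have := pc_faith h
  obtain ⟨σ, h1, h2⟩ := h.rad.exists_map ((algebraMap E₁ E₁').comp j) h₁.rad.pow
  have h3 : ∀ g y, σ (r g • y) = g • σ y := fun g => RingHom.congr_fun (h.rad.hom_ext
    (f := σ.comp (MulSemiringAction.toRingHom G E' (r g)))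
    (g := (MulSemiringAction.toRingHom G₁ E₁' g).comp σ) (fun y => by
      change σ (r g • algebraMap E E' y) = g • σ (algebraMap E E' y)
      rw [h.alg, h1, h1, RingHom.comp_apply, RingHom.comp_apply, hr, h₁.alg]) (by
      change σ (r g • α) = g • σ α
      rw [h.fix, h2, h₁.fix]))
  refine ⟨fun g => Units.map (σ : E' →* E₁') (e (r g)), fun q => ?_, fun g => ?_⟩
  · rw [← pull_dd h3, pull, pull, ← hx.cob]
    exact Units.ext (h1 _).symm
  · refine (h.eu.map h.rad h₁.eu h1 h2 _).trans ?_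
    rw [hx.dl, map_mul, cmb_map h1 h2]
    exact congrArg (fun y => cmb α₁ y * σ (e (r g))) (funext fun i =>
      (map_sub j _ _).trans (congrArg (· - j (x i)) (hr g _)))

omit [Finite G] [FaithfulSMul G E] in
theorem exists_radG (hu : ∀ y : E, y ^ p ≠ u) (hG : ∀ g : G, g • u = u) :
    ∃ (E' : Type) (_ : Field E') (_ : Algebra E E') (_ : MulSemiringAction G E') (α : E')
      (δ : Derivation ℤ E' E'), RadG p G α u δ := by
  obtain ⟨E', _, _, α, h⟩ := exists_rad hu
  obtain ⟨_, h1, h2⟩ := h.exists_act G hG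
  obtain ⟨δ, h3⟩ := h.exists_eu
  exact ⟨E', _, _, _, α, δ, h, h3, h1, h2⟩

end Pool.Agent.ZCy.F
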