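import Pool.Agent.Lib.MP_751085_ag.ZF.W.Pb
import Pool.Agent.Lib.MP_751085_ag.ZF.W.Pc
import Pool.Agent.Lib.MP_751085_ag.ZF.R3b
import Pool.Agent.Lib.MP_751085_ag.ZC.V.Dec

/-! One radical step on the projective line over a separably closed field. -/

namespace Pool.Agent.ZCy.F

open scoped Classical WithZero Polynomial IntermediateField
open groupCohomology

variable {K F E : Type} [Field K] [Field F] [Field E] [Algebra K F] [Algebra F E]
  [FiniteDimensional F E] [IsGalois F E] {t : F}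

/-- The residue field of `w` is algebraic, so purely inseparable, over `K`. -/
theorem dec_le_ine [IsSepClosed K] (ht : Transcendental K t) (hF : K⟮t⟯ = ⊤) {v : Vl F}
    (hv : Nrm v) (hv' : Triv (algebraMap K F) v) {w : Vl E} (hw : Over (algebraMap F E) v w) :
    Dec F w ≤ Ine F w := by
  intro d hd
  obtain ⟨κ, _, σ, hσ, hs⟩ := exists_resf v
  obtain ⟨κ', _, σ', hσ', hs'⟩ := exists_resf w
  obtain ⟨i, hi⟩ := hσ.factor hs (hσ'.comp_int hw)
  let ι : K →+* v.integer := (algebraMap K F).codRestrict v.integer fun a => by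
    rcases eq_or_ne a 0 with rfl | ha
    · simp
    · exact (hv' a ha).le
  let : Algebra K κ := (σ.comp ι).toAlgebra
  let : Algebra κ κ' := i.toAlgebra
  let : Algebra K κ' := (i.comp (σ.comp ι)).toAlgebra
  have : IsScalarTower K κ κ' := IsScalarTower.of_algebraMap_eq fun _ => rfl
  have : Algebra.IsAlgebraic K κ := ⟨fun y => by
    obtain ⟨x, rfl⟩ := hs y
    obtain ⟨q, hq, h⟩ := pf_res ht hF hv hv' (show v x ≤ 1 from x.2)
    refine ⟨q, hq.ne_zero, (Polynomial.hom_eval₂ q ι σ x).symm.trans ((hσ _).2 ?_)⟩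
    exact (congrArg v (Polynomial.hom_eval₂ q ι v.integer.subtype x)).trans_lt h⟩
  have : Algebra.IsAlgebraic κ κ' := ⟨fun y => by
    obtain ⟨x, rfl⟩ := hs' y
    obtain ⟨f, ⟨n, hn⟩, hf⟩ := exists_poly_red hw x
    refine ⟨f.map σ, fun e => (hσ.ne_zero _).2 hn ?_, ?_⟩
    · rw [← Polynomial.coeff_map, e, Polynomial.coeff_zero]
    · rw [Polynomial.aeval_def, Polynomial.eval₂_map,
        show (algebraMap κ κ').comp σ = σ'.comp hw.int from RingHom.ext hi, ← Polynomial.hom_eval₂,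
        hf, map_zero]⟩
  have : Algebra.IsAlgebraic K κ' := .trans K κ κ'
  let D : w.integer →+* w.integer :=
    ((d : E →+* E).comp w.integer.subtype).codRestrict _ fun x => (hd x).trans_le x.2
  have hD : IsRed w (σ'.comp D) := fun x => (hσ' _).trans (by rw [← hd x]; rfl)
  obtain ⟨j, hj⟩ := hσ'.factor hs' hD
  let J : κ' →ₐ[K] κ' := ⟨j, fun a => by
    have h1 : algebraMap K κ' a = σ' (hw.int (ι a)) := hi (ι a)
    rw [h1]
    exact (hj _).trans (congrArg σ' (Subtype.ext (d.commutes _)))⟩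
  have hJ : J = AlgHom.id K κ' := Subsingleton.elim _ _
  exact ⟨hd, fun y hy => (hσ'.eq_iff (D ⟨y, hy⟩) ⟨y, hy⟩).1
    ((hj _).symm.trans (DFunLike.congr_fun hJ (σ' ⟨y, hy⟩)))⟩

/-- on `Dec` the cocycle is the constant `c (1, 1)` -/
theorem cob_of_rd [IsSepClosed K] (ht : Transcendental K t) (hF : K⟮t⟯ = ⊤) {v : Vl F}
    (hv : Nrm v) (hv' : Triv (algebraMap K F) v) {b : BR F} (R : RD v b) :
    CobOn (Dec F R.w) R.c := by
  have h := dec_le_ine ht hF hv hv' (R.idq.isOver R.e_pos)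
  refine ⟨fun _ => R.c (1, 1), fun g hg g' hg' => ?_⟩
  have h1 := R.infl.eq 1 (one_mem _) 1 (one_mem _) g (h hg) g' (h hg')
  rw [one_mul, one_mul] at h1
  rw [h1, dd, div_mul_cancel, R.infl.fix 1 (one_mem _) 1 (one_mem _) g (h hg)]

variable {p : ℕ} [Fact p.Prime]

/-- a root `y` is fixed by the group: `(g y - y) ^ p = 0` -/
theorem np_up [CharP F p] {u : F} (h : ∀ y : F, y ^ p ≠ u) (y : E) :
    y ^ p ≠ algebraMap F E u := by
  intro hy
  have : CharP E p := charP_of_injective_algebraMap (algebraMap F E).injective p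
  obtain ⟨a, rfl⟩ := (IsGalois.mem_range_algebraMap_iff_fixed (F := F) y).2 fun g => by
    rw [← sub_eq_zero, ← pow_eq_zero_iff (Fact.out : p.Prime).ne_zero, sub_pow_char, ← map_pow, hy,
      g.commutes, sub_self]
  exact h a ((algebraMap F E).injective (by rw [map_pow, hy]))

variable {E' : Type} [Field E'] [Algebra E E'] [MulSemiringAction (E ≃ₐ[F] E) E'] {α' : E'}
  {δ : Derivation ℤ E' E'} {c : (E ≃ₐ[F] E) × (E ≃ₐ[F] E) → Eˣ}

/-- `E'` is Galois over `F'` with the same group. -/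
theorem rad_start [CharP F p] {F' : Type} [Field F'] [Algebra F F'] {α : F'} {u : F}
    (h : Rad p α u) (h' : RadG p (E ≃ₐ[F] E) α' (algebraMap F E u) δ) (hc : IsMulCocycle₂ c)
    (h0 : rs (algebraMap F F') (cls F c) = 0) :
    ∃ e : (E ≃ₐ[F] E) → E'ˣ, ∀ q, Units.map (algebraMap E E' : E →* E') (c q) = dd e q := by
  obtain ⟨σ, h1, h2⟩ := h.exists_map ((algebraMap E E').comp (algebraMap F E)) h'.rad.pow
  let : Algebra F' E' := σ.toAlgebra
  have hf : ∀ (g : E ≃ₐ[F] E) a, g • σ a = σ a := fun g => DFunLike.congr_fun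
    (h.hom_ext (f := (MulSemiringAction.toRingHom _ E' g).comp σ) (g := σ)
      (fun x => by
        change g • σ _ = _
        rw [h1, RingHom.comp_apply, h'.alg, AlgEquiv.smul_def, g.commutes])
      (by change g • σ _ = _; rw [h2, h'.fix]))
  have : IsGaloisGroup (E ≃ₐ[F] E) F' E' :=
    ⟨⟨fun {g g'} e => AlgEquiv.ext fun x => (algebraMap E E').injective
        ((h'.alg g x).symm.trans ((e _).trans (h'.alg g' x)))⟩,
      ⟨fun g a z => by
        change g • (σ a * z) = σ a * g • z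
        rw [smul_mul', hf]⟩,
      ⟨fun z hz => by
        obtain ⟨x, rfl⟩ := h'.rad.bij.2 z
        have h3 : ∀ i, x i ∈ Set.range (algebraMap F E) := fun i =>
          (IsGalois.mem_range_algebraMap_iff_fixed (F := F) _).2 fun g => congrFun (h'.rad.bij.1
            ((cmb_map (σ := (g : E →+* E)) (σ' := MulSemiringAction.toRingHom _ E' g) (h'.alg g)
              (h'.fix g) x).symm.trans (hz g))) i
        choose y hy using h3
        exact ⟨cmb α y, (cmb_map h1 h2 y).trans (congrArg _ (funext hy))⟩⟩⟩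
  have hr : ∀ (g : E ≃ₐ[F] E) x, algebraMap E E' (id g • x) = g • algebraMap E E' x :=
    fun g x => (h'.alg g x).symm
  have h4 := rs_cls (K' := F') (G := E ≃ₐ[F] E) (G' := E ≃ₐ[F] E) (c := c) (r := id)
    (j := algebraMap E E') (algebraMap F F') (fun a => (h1 a).symm) hr hc
  exact ((cls_eq_zero (K := F') (pull_coc hr hc)).1 (h4.symm.trans h0)).imp fun e he q =>
    congrFun he q

omit [Algebra F E] [FiniteDimensional F E] [IsGalois F E] in
theorem pd2_le {v : Vl F} (hv : Triv (algebraMap K F) v) (u : K) : v (algebraMap K F u) ≤ 1 := by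
  rcases eq_or_ne u 0 with rfl | h
  · simp
  · exact (hv u h).le

theorem rad_loc [CharP F p] [IsSepClosed K] (ht : Transcendental K t) (hF : K⟮t⟯ = ⊤) {u : K}
    (hu : ∀ y : F, y ^ p ≠ algebraMap K F u)
    (h' : RadG p (E ≃ₐ[F] E) α' (algebraMap F E (algebraMap K F u)) δ) (hc : IsMulCocycle₂ c)
    {e : (E ≃ₐ[F] E) → E'ˣ} {x : Fin p → E} (hx : Spl α' δ c e x) {y : F}
    (hy : algebraMap F E y = Ps (algebraMap F E (algebraMap K F u)) x) {v : Vl F} (hv : Nrm v)
    (hv' : Triv (algebraMap K F) v) (hb : Unram v (cls F c)) :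
    ∃ x₀ : Fin p → F, v (y - Ps (algebraMap K F u) x₀) ≤ 1 := by
  obtain ⟨w, hw⟩ := vn_exists (E := E) v
  obtain ⟨R, j, -, -⟩ := hb.up hw
  obtain ⟨r, hr⟩ := exists_pull (G := E ≃ₐ[F] E) (G' := R.E ≃ₐ[F] R.E) (γ := RingHom.id F)
    (j := (j : E →+* R.E)) j.commutes
  have e1 : cls F (pull (j : E →+* R.E) r c) = cls F R.c :=
    (rs_cls (RingHom.id F) j.commutes hr hc).symm.trans ((res_id _).trans R.cls_eq.symm)
  obtain ⟨ε, hε⟩ := (cls_eq_iff (pull_coc hr hc) R.coc).1 e1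
  have : CharP E p := charP_of_injective_algebraMap (algebraMap F E).injective p
  have : CharP R.E p := charP_of_injective_algebraMap (algebraMap F R.E).injective p
  have e2 : ∀ a, algebraMap F R.E a = (j : E →+* R.E) (algebraMap F E a) :=
    fun a => (j.commutes a).symm
  obtain ⟨E₁, _, _, _, α₁, δ₁, h₁⟩ := exists_radG (G := R.E ≃ₐ[F] R.E) (np_up (E := R.E) hu)
    fun g => g.commutes _
  obtain ⟨e₁, h2⟩ := h'.up hx hr (e2 _ ▸ h₁)
  obtain ⟨x', h3, h4⟩ := h₁.loc h2 (hε ▸ (cob_of_rd ht hF hv hv' R).mul (cobOn_dd _ ε))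
  choose x₀ h5 using fun i => dns_of_dec (fun g hg => h3 g hg i) 0
  have ho := R.idq.isOver R.e_pos
  refine ⟨x₀, (ho _).1 ?_⟩
  rw [map_sub, e2 y, hy, Ps_map, Ps_map, ← e2, ← h4, ← Ps_sub]
  exact Ps_mem R.w.integer ((ho _).2 (pd2_le hv' u)) fun i => (h5 i).trans_eq (by simp)

theorem rad_step [CharP F p] [IsSepClosed K] (ht : Transcendental K t) (hF : K⟮t⟯ = ⊤) {F' : Type}
    [Field F'] [Algebra F F'] {α : F'} {u : K} (h : Rad p α (algebraMap K F u)) {b : BR F}
    (hb : ∀ v : Vl F, Nrm v → Triv (algebraMap K F) v → Unram v b)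
    (h0 : rs (algebraMap F F') b = 0) : b = 0 := by
  obtain ⟨L, _, _, c, -, hc, rfl⟩ := exists_cls b ∅
  have : CharP L p := charP_of_injective_algebraMap (algebraMap F L).injective p
  have : CharP K p := (algebraMap K F).charP (algebraMap K F).injective p
  obtain ⟨E', _, _, _, α', δ, h'⟩ := exists_radG (G := L ≃ₐ[F] L) (np_up (E := L) h.np)
    fun g => g.commutes _
  obtain ⟨e, he⟩ := rad_start h h' hc h0
  obtain ⟨x, hx⟩ := h'.exists_spl he
  obtain ⟨y, hy⟩ := mem_range_of_fix (K := F) (h'.fix_ps hx)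
  obtain ⟨x₀, k, e1⟩ := pf_main ht hF (.mk' (Ps (p := p) (algebraMap K F u)) (Ps_add _))
    (fun v hv x hx => Ps_mem v.integer (pd2_le hv u) hx)
    fun v hv hv' => rad_loc ht hF h.np h' hc hx hy hv hv' (hb v hv hv')
  obtain ⟨z, hz⟩ := IsSepClosed.exists_root_C_mul_X_pow_add_C_mul_X_add_C (1 : K) (-1) (-k)
    (CharP.cast_eq_zero K p) (Fact.out : p.Prime).two_le (by simp)
  refine (cls_eq_zero hc).2 (h'.cob hx
    (x₀ := algebraMap F L ∘ (x₀ + Pi.single 0 (algebraMap K F z))) (fun g i => g.commutes _) ?_)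
  rw [← Ps_map, Ps_add, Ps_single, ← hy, e1, ← map_pow, ← map_sub,
    show z ^ p - z = k by linear_combination hz]
  rfl

end Pool.Agent.ZCy.F
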