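import Pool.Agent.Lib.MP_751085_ag.ZF.W.Pd
import Pool.Agent.Lib.MP_751085_ag.ZF.E.N2

/-! The projective line over a separably closed field has no Brauer group. -/

namespace Pool.Agent.ZCy.F

open scoped Classical WithZero Polynomial IntermediateField
open groupCohomology

variable {K F : Type} [Field K] [Field F] [Algebra K F] {t : F}

/-- `T` is generated by the images of `φ` and `ψ` -/
def Cx {A B T : Type} [Field A] [Field B] [Field T] (φ : A →+* T) (ψ : B →+* T) : Prop :=
  ∀ R : Subfield T, (∀ y, φ y ∈ R) → (∀ z, ψ z ∈ R) → ∀ x, x ∈ R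

/-- algebraic extensions of the constants -/
theorem ratF_up (ht : Transcendental K t) (hF : K⟮t⟯ = ⊤) {K₁ F₁ : Type} [Field K₁] [Field F₁]
    [Algebra K K₁] [Algebra.IsAlgebraic K K₁] [Algebra K₁ F₁] (φ : F →+* F₁)
    (h : ∀ a, φ (algebraMap K F a) = algebraMap K₁ F₁ (algebraMap K K₁ a))
    (hg : Cx φ (algebraMap K₁ F₁)) : Transcendental K₁ (φ t) ∧ K₁⟮φ t⟯ = ⊤ := by
  constructor
  · let : Algebra K F₁ := ((algebraMap K₁ F₁).comp (algebraMap K K₁)).toAlgebra
    have : IsScalarTower K K₁ F₁ := IsScalarTower.of_algebraMap_eq fun _ => rfl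
    let φ' : F →ₐ[K] F₁ := { φ with commutes' := h }
    have h1 : Transcendental K (φ' t) := fun e =>
      ht ((isAlgebraic_algHom_iff φ' φ.injective).1 e)
    exact h1.extendScalars K₁
  · refine eq_top_iff.2 fun x _ => hg (K₁⟮φ t⟯).toSubfield (fun y => a5b_mem (K := K) (s := {t}) φ _
      (fun a => ?_) ?_ (by rw [hF]; trivial)) (K₁⟮φ t⟯).algebraMap_mem x
    · rw [h]
      exact (K₁⟮φ t⟯).algebraMap_mem _
    · rintro _ rfl
      exact IntermediateField.mem_adjoin_simple_self K₁ _

theorem pe_root {K K' : Type} [Field K] [Field K'] [Algebra K K'] [IsPurelyInseparable K K']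
    {x : K'} (hx : x ∉ (algebraMap K K').range) : ∃ (p : ℕ) (_ : Fact p.Prime) (_ : CharP K p)
      (α : K') (u : K), α ^ p = algebraMap K K' u ∧ α ∉ (algebraMap K K').range := by
  obtain ⟨q, hq⟩ := ExpChar.exists K
  have h := IsPurelyInseparable.pow_mem K q x
  have h1 := Nat.find_spec h
  obtain ⟨m, hm⟩ : ∃ m, Nat.find h = m + 1 :=
    Nat.exists_eq_succ_of_ne_zero fun e => hx (by rwa [e, pow_zero, pow_one] at h1)
  have h2 := Nat.find_min h (m := m) (by omega)
  rw [hm, pow_succ, pow_mul] at h1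
  cases hq with
  | zero => exact absurd (by rwa [pow_one] at h1) h2
  | prime hp =>
    obtain ⟨u, hu⟩ := h1
    exact ⟨q, ⟨hp⟩, inferInstance, _, u, hu.symm, h2⟩

/-- Induction on the degree of `K' / K`, one `p`-th root at a time. -/
theorem p1_fin (n : ℕ) : ∀ (K F K' T : Type) [Field K] [Field F] [Field K'] [Field T] [Algebra K F]
    [Algebra K K'] [FiniteDimensional K K'] [IsSepClosed K] (t : F), Transcendental K t →
    K⟮t⟯ = ⊤ → Module.finrank K K' = n → ∀ (φ : F →+* T) (ψ : K' →+* T),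
    (∀ a, φ (algebraMap K F a) = ψ (algebraMap K K' a)) → Cx φ ψ → ∀ b : BR F,
    (∀ v : Vl F, Triv (algebraMap K F) v → Unram v b) → rs φ b = 0 → b = 0 := by
  induction n using Nat.strong_induction_on with
  | _ n ih =>
  intro K F K' T _ _ _ _ _ _ _ _ t ht hF hn φ ψ h hg b hb h0
  by_cases hs : ∀ x, x ∈ (algebraMap K K').range
  · have h1 : Function.Surjective φ := hg φ.fieldRange (fun y => ⟨y, rfl⟩) fun z => by
      obtain ⟨a, rfl⟩ := hs z
      exact ⟨_, h a⟩
    exact res_injective_of_bijective (Ω' := SC T) ⟨φ.injective, h1⟩ (h0.trans (map_zero _).symm)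
  obtain ⟨x, hx⟩ := not_forall.1 hs
  obtain ⟨p, _, _, α, u, hu, hα⟩ := pe_root hx
  have : CharP F p := charP_of_injective_algebraMap (algebraMap K F).injective p
  have : CharP K' p := charP_of_injective_algebraMap (algebraMap K K').injective p
  let : Algebra F T := φ.toAlgebra
  obtain ⟨ι, hι⟩ := a5b_hom (K := K) (k := F) ψ α fun a => ⟨_, (h a).symm⟩
  let : Algebra K⟮α⟯ F⟮ψ α⟯ := ι.toAlgebra
  have h1 : ∀ a, algebraMap F F⟮ψ α⟯ (algebraMap K F a) = ι (algebraMap K K⟮α⟯ a) := fun a =>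
    Subtype.ext ((h a).trans (hι (algebraMap K K⟮α⟯ a)).symm)
  obtain ⟨h2, h3⟩ := ratF_up (K₁ := K⟮α⟯) ht hF (algebraMap F F⟮ψ α⟯) h1 fun R a1 a2 y => by
    obtain ⟨w, hw, e⟩ := a5b_mem (K := F) (s := {ψ α}) (RingHom.id T)
      (R.map (algebraMap F⟮ψ α⟯ T)) (fun z => ⟨_, a1 z, rfl⟩)
      (by
        rintro _ rfl
        exact ⟨_, a2 (IntermediateField.AdjoinSimple.gen K α), hι _⟩) y.2
    exact (Subtype.ext e : w = y) ▸ hw
  have : IsSepClosed K⟮α⟯ := Algebra.IsAlgebraic.isSepClosed (F := K)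
  have h4 : Module.finrank K⟮α⟯ K' < n := by
    rw [← hn, ← Module.finrank_mul_finrank K K⟮α⟯ K']
    exact lt_mul_left Module.finrank_pos (lt_of_le_of_ne Module.finrank_pos fun e =>
      hα (IntermediateField.mem_bot.1 (IntermediateField.finrank_adjoin_simple_eq_one_iff.1 e.symm)))
  have h5 := ih _ h4 K⟮α⟯ F⟮ψ α⟯ K' T _ h2 h3 rfl (algebraMap F⟮ψ α⟯ T) ψ hι
    (fun R a1 a2 => hg R (fun y => a1 (algebraMap F F⟮ψ α⟯ y)) a2) (rs (algebraMap F F⟮ψ α⟯) b)
    (fun v hv => Unram.comap _ (hb _ fun a ha =>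
      (congrArg v (h1 a)).trans (hv _ ((map_ne_zero _).2 ha))))
    ((res_res _ _ b).trans h0)
  refine rad_step (p := p) (α := IntermediateField.AdjoinSimple.gen F (ψ α)) (u := u) ht hF
    ⟨Subtype.ext ?_, fun y hy => hα ?_, IntermediateField.lift_injective _ ?_⟩
    (fun v _ => hb v) h5
  · exact (map_pow ψ α p).symm.trans ((congrArg ψ hu).trans (h u).symm)
  · obtain ⟨c, rfl⟩ := pf_alg ht hF (y := y)
      (IsAlgebraic.of_pow (Fact.out : p.Prime).pos (hy ▸ isAlgebraic_algebraMap u))
    refine ⟨c, (frobenius K' p).injective ?_⟩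
    rw [← map_pow] at hy
    rw [frobenius_def, frobenius_def, hu, ← (algebraMap K F).injective hy, map_pow]
  · rw [IntermediateField.lift_adjoin_simple, IntermediateField.lift_top]
    rfl

/-- the field generated by the image of `j` is a compositum -/
theorem pe2_cx {A Ω : Type} [Field A] [Field Ω] [Algebra F Ω] (j : A →+* Ω) :
    Cx (algebraMap F (IntermediateField.adjoin F (Set.range j)))
      (j.codRestrict (IntermediateField.adjoin F (Set.range j))
        fun y => IntermediateField.subset_adjoin F _ (Set.mem_range_self y)) := fun R h1 h2 x => by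
  obtain ⟨w, hw, e⟩ := a5b_mem (K := F) (s := Set.range j) (RingHom.id _)
    (R.map (algebraMap (IntermediateField.adjoin F (Set.range j)) Ω)) (fun y => ⟨_, h1 y, rfl⟩)
    (by rintro _ ⟨z, rfl⟩; exact ⟨_, h2 z, rfl⟩) x.2
  exact (Subtype.ext e : w = x) ▸ hw

theorem p1_sep [IsSepClosed K] (ht : Transcendental K t) (hF : K⟮t⟯ = ⊤) {b : BR F}
    (hb : ∀ v : Vl F, Triv (algebraMap K F) v → Unram v b) : b = 0 := by
  obtain ⟨p, hp⟩ := ExpChar.exists K
  let J : AlgebraicClosure K →ₐ[K] AlgebraicClosure F := IsAlgClosed.lift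
  let T₁ := IntermediateField.adjoin F (Set.range (J : AlgebraicClosure K →+* AlgebraicClosure F))
  have : ExpChar F p := expChar_of_injective_algebraMap (algebraMap K F).injective p
  have : IsPurelyInseparable F T₁ :=
    (IntermediateField.isPurelyInseparable_adjoin_iff_pow_mem _ _ p).2 (by
      rintro _ ⟨x, rfl⟩
      obtain ⟨n, z, hz⟩ := IsPurelyInseparable.pow_mem K p x
      exact ⟨n, algebraMap K F z, by rw [← map_pow, ← hz]; exact (J.commutes z).symm⟩)
  have : FiniteDimensional K⟮t⟯ F := by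
    rw [hF]
    exact Module.Finite.of_surjective (Algebra.linearMap _ F) fun x => ⟨⟨x, trivial⟩, rfl⟩
  have h0 : rs (algebraMap F T₁) b = 0 := by
    let : Algebra (AlgebraicClosure K) T₁ := ((J : AlgebraicClosure K →+* _).codRestrict T₁
      fun y => IntermediateField.subset_adjoin F _ (Set.mem_range_self y)).toAlgebra
    exact n2_comp (k := AlgebraicClosure K) t (algebraMap F T₁)
      (fun x => ⟨algebraMap K _ x, Subtype.ext (J.commutes x).symm⟩) (pe2_cx _) _
  obtain ⟨S, _, hS⟩ := rs_pi_fin h0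
  let e := Module.finBasis F S
  choose u hu hu' using fun i => IntermediateField.exists_finset_of_mem_adjoin (e i).1.2
  have : Finite (⋃ i, J ⁻¹' (u i) : Set _) := Set.finite_iUnion fun i =>
    (u i).finite_toSet.preimage J.injective.injOn
  let K' := IntermediateField.adjoin K (⋃ i, J ⁻¹' (u i) : Set _)
  have : FiniteDimensional K K' :=
    IntermediateField.finiteDimensional_adjoin fun _ _ => Algebra.IsIntegral.isIntegral _
  let j := (J : AlgebraicClosure K →+* AlgebraicClosure F).comp (algebraMap K' _)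
  let T := IntermediateField.adjoin F (Set.range j)
  let η : S →+* AlgebraicClosure F := (algebraMap T₁ _).comp (algebraMap S T₁)
  have h3 : ∀ y : S, η y ∈ T := fun y => by
    rw [← e.sum_repr y, map_sum]
    refine sum_mem fun i _ => ?_
    rw [Algebra.smul_def, map_mul]
    refine mul_mem (T.algebraMap_mem _) (IntermediateField.adjoin.mono F _ _ (fun x hx => ?_) (hu' i))
    obtain ⟨z, rfl⟩ := hu i hx
    exact ⟨⟨z, IntermediateField.subset_adjoin _ _ (Set.mem_iUnion.2 ⟨i, hx⟩)⟩, rfl⟩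
  exact p1_fin _ K F K' T t ht hF rfl _ _ (fun a => Subtype.ext (J.commutes a).symm) (pe2_cx j) b hb
    (n2_zero (ρ := RingHom.id T) (η := η.codRestrict T h3) Function.bijective_id rfl hS)

theorem dies_fin {a : BR F} (j : SC K →ₐ[K] AlgebraicClosure F)
    (h0 : rs (algebraMap F (IntermediateField.adjoin F (Set.range j))) a = 0) :
    ∃ (K' : IntermediateField K (SC K)) (_ : FiniteDimensional K K')
      (_ : IsGalois K K'), ∀ (T : Type) [Field T] (φ : F →+* T) (ψ : K' →+* T),
        (∀ x, ψ (algebraMap K K' x) = φ (algebraMap K F x)) → rs φ a = 0 := by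
  let T₀ := IntermediateField.adjoin F (Set.range j)
  have : Algebra.IsSeparable F T₀ := (IntermediateField.isSeparable_adjoin_iff_isSeparable _ _).2 (by
    rintro _ ⟨z, rfl⟩
    exact ((Algebra.IsSeparable.isSeparable K z).map j j.injective).tower_top F)
  obtain ⟨S, _, hS⟩ := exists_finite_of_rs h0
  obtain ⟨θ, hθ⟩ := Field.exists_primitive_element F S
  obtain ⟨t, ht, hθt⟩ := IntermediateField.exists_finset_of_mem_adjoin θ.1.2
  obtain ⟨K', _, _, hK'⟩ := exists_level (K := K) (t.preimage j j.injective.injOn)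
  refine ⟨K', inferInstance, inferInstance, fun T _ φ ψ hφ => ?_⟩
  obtain ⟨Φ, -, hΦ, -⟩ := ZCy.exists_lk (Ω := AlgebraicClosure F) (Ω' := AlgebraicClosure T) φ
  let R := (algebraMap T (AlgebraicClosure T)).fieldRange
  have h1 : ∀ y : F, Φ (algebraMap F _ y) ∈ R := fun y => ⟨φ y, (hΦ y).symm⟩
  have h2 : ∀ y ∈ (t : Set (AlgebraicClosure F)), Φ y ∈ R := by
    intro y hy
    obtain ⟨z, rfl⟩ := ht hy
    obtain ⟨w, hw⟩ := n2_range (K := K) ((algebraMap T (AlgebraicClosure T)).comp ψ)
      ((Φ.comp (j : SC K →+* _)).comp (algebraMap K' (SC K)))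
      (fun x => by
        rw [RingHom.comp_apply, RingHom.comp_apply, RingHom.comp_apply, hφ, ← hΦ]
        exact congrArg Φ (j.commutes x)) ⟨z, hK' z (Finset.mem_preimage.2 hy)⟩
    exact ⟨ψ w, hw⟩
  let η : S →+* AlgebraicClosure T :=
    (Φ.comp (algebraMap T₀ (AlgebraicClosure F))).comp (algebraMap S T₀)
  have h3 : ∀ y : S, η y ∈ R := fun y =>
    a5b_mem (K := F) (s := {θ}) η R h1
      (by
        rintro _ rfl
        exact a5b_mem Φ R h1 h2 hθt) (by rw [hθ]; trivial)
  have h4 : (algebraMap T (AlgebraicClosure T)).rangeRestrictField.comp φ =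
      (η.codRestrict R h3).comp (algebraMap F S) :=
    RingHom.ext fun y => Subtype.ext (hΦ y).symm
  exact n2_zero (algebraMap T (AlgebraicClosure T)).rangeRestrictField_bijective h4 hS

theorem p1_dies (ht : Transcendental K t) (hF : K⟮t⟯ = ⊤) {b : BR F}
    (hb : ∀ v : Vl F, Triv (algebraMap K F) v → Unram v b) :
    ∃ (K' : IntermediateField K (SC K)) (_ : FiniteDimensional K K')
      (_ : IsGalois K K'), ∀ (T : Type) [Field T] (φ : F →+* T) (ψ : K' →+* T),
        (∀ x, ψ (algebraMap K K' x) = φ (algebraMap K F x)) → rs φ b = 0 := by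
  let j : SC K →ₐ[K] AlgebraicClosure F := IsSepClosed.lift
  let T₀ := IntermediateField.adjoin F (Set.range (j : SC K →+* AlgebraicClosure F))
  let : Algebra (SC K) T₀ := ((j : SC K →+* _).codRestrict T₀
    fun y => IntermediateField.subset_adjoin F _ (Set.mem_range_self y)).toAlgebra
  have h : ∀ a, algebraMap F T₀ (algebraMap K F a) = algebraMap (SC K) T₀ (algebraMap K _ a) :=
    fun a => Subtype.ext (j.commutes a).symm
  obtain ⟨h1, h2⟩ := ratF_up ht hF (algebraMap F T₀) h (pe2_cx _)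
  refine dies_fin j (p1_sep h1 h2 fun v hv => Unram.comap _ (hb _ fun x hx => ?_))
  exact (congrArg v (h x)).trans (hv _ ((map_ne_zero _).2 hx))

end Pool.Agent.ZCy.F
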