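import Pool.Agent.Lib.MP_751085_ag.ZF.EIf
import Pool.Agent.Lib.MP_751085_ag.ZF.W.Cb
import Pool.Agent.Lib.MP_751085_ag.ZF.E.U3
import Pool.Agent.Lib.MP_751085_ag.ZC.W3b
import Pool.Agent.Lib.MP_751085_ag.ZC.W5

/-! Separating elements, rational places, values at places. -/

namespace Pool.Agent.ZCy.F

open scoped Classical WithZero IntermediateField
open Module

variable {k K L F : Type} [Field k] [Field K] [Field L] [Field F] [Algebra K F] {t f : F}

/-- A derivation that kills a separating element vanishes. -/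
theorem der_zero [Algebra.IsSeparable K⟮t⟯ F] {M : Type} [AddCommGroup M] [Module F M] [Module K M]
    [IsScalarTower K F M] (D : Derivation K F M) (h : D t = 0) (x : F) : D x = 0 := by
  have h0 : ∀ y ∈ K⟮t⟯, D y = 0 := fun y hy => by
    induction hy using IntermediateField.adjoin_induction with
    | mem y hy => rwa [Set.mem_singleton_iff.1 hy]
    | algebraMap a => exact D.map_algebraMap a
    | add a b _ _ ha hb => rw [map_add, ha, hb, add_zero]
    | inv a _ ha => rw [D.leibniz_inv, ha, smul_zero]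
    | mul a b _ _ ha hb => rw [D.leibniz, ha, hb, smul_zero, smul_zero, add_zero]
  let D' : Derivation K⟮t⟯ F M :=
    { toFun := D
      map_add' := map_add D
      map_smul' := fun a y => by
        change D ((a : F) * y) = (a : F) • D y
        rw [D.leibniz, h0 _ a.2, smul_zero, add_zero]
      map_one_eq_zero' := D.map_one_eq_zero
      leibniz' := D.leibniz }
  have h1 := D'.map_aeval (minpoly K⟮t⟯ x) x
  rw [minpoly.aeval, map_zero] at h1
  exact (smul_eq_zero.1 h1.symm).resolve_left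
    ((Algebra.IsSeparable.isSeparable K⟮t⟯ x).aeval_derivative_ne_zero (minpoly.aeval _ x))

theorem wa1_sep [FiniteDimensional K⟮t⟯ F] [Algebra.IsSeparable K⟮t⟯ F] {u : F}
    (h : ∀ D : Derivation K F Ω[F⁄K⟮u⟯], D u = 0 → D t = 0) : Algebra.IsSeparable K⟮u⟯ F := by
  have : Algebra.EssFiniteType K K⟮t⟯ := IntermediateField.essFiniteType_iff.2
    (IntermediateField.fg_adjoin_of_finite (Set.finite_singleton t))
  have := Algebra.EssFiniteType.comp K K⟮t⟯ F
  have := Algebra.EssFiniteType.of_comp K K⟮u⟯ F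
  refine (Algebra.FormallyUnramified.iff_isSeparable _ _).1 ⟨subsingleton_of_forall_eq 0 fun x => ?_⟩
  have h1 := der_zero ((KaehlerDifferential.D K⟮u⟯ F).restrictScalars K) (h _
    ((KaehlerDifferential.D K⟮u⟯ F).map_algebraMap (IntermediateField.AdjoinSimple.gen K u)))
  have h2 : x ∈ Submodule.span F (Set.range (KaehlerDifferential.D K⟮u⟯ F)) := by
    rw [KaehlerDifferential.span_range_derivation]; trivial
  rwa [Submodule.span_eq_bot.2 (by rintro _ ⟨y, rfl⟩; exact h1 y)] at h2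

/-- One of `f`, `f * t` is separating. -/
theorem sep_or [FiniteDimensional K⟮t⟯ F] [Algebra.IsSeparable K⟮t⟯ F] (hf : f ≠ 0) :
    Algebra.IsSeparable K⟮f⟯ F ∨ Algebra.IsSeparable K⟮f * t⟯ F := by
  have h1 := der_zero (t := t) ((Submodule.span F {KaehlerDifferential.D K F t}).mkQ.compDer
    (KaehlerDifferential.D K F)) ((Submodule.Quotient.mk_eq_zero _).2
      (Submodule.mem_span_singleton_self _)) f
  obtain ⟨a, ha : _ = KaehlerDifferential.D K F f⟩ :=
    Submodule.mem_span_singleton.1 ((Submodule.Quotient.mk_eq_zero _).1 h1)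
  have h2 : ∀ {u : F} (D : Derivation K F Ω[F⁄K⟮u⟯]), D f = a • D t := fun D => by
    rw [← D.liftKaehlerDifferential_comp_D, ← ha, map_smul, D.liftKaehlerDifferential_comp_D]
  rcases eq_or_ne a 0 with rfl | h0
  · refine Or.inr (wa1_sep (t := t) fun D hD => ?_)
    rw [D.leibniz, h2, zero_smul, smul_zero, add_zero] at hD
    exact (smul_eq_zero.1 hD).resolve_left hf
  · exact Or.inl (wa1_sep (t := t) fun D hD =>
      (smul_eq_zero.1 ((h2 D).symm.trans hD)).resolve_left h0)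

theorem transc_of_sep (ht : Transcendental K t) [Algebra.IsSeparable K⟮f⟯ F] :
    Transcendental K f := by
  intro hf
  have := (IntermediateField.isAlgebraic_adjoin_simple hf.isIntegral).trans K K⟮f⟯ F
  exact ht (Algebra.IsAlgebraic.isAlgebraic t)

theorem wa2_le {φ : K →+* L} {v : Vl L} (h : Triv φ v) (z : K) : v (φ z) ≤ 1 := by
  rcases eq_or_ne z 0 with rfl | hz
  · simp
  · exact (h z hz).le

theorem wa2_smul {ι : Type} {G : MvPolynomial ι K} {m : ℕ} (hG : G.IsHomogeneous m) (c : F)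
    (x : ι → F) : MvPolynomial.aeval (c • x) G = c ^ m * MvPolynomial.aeval x G := by
  rw [MvPolynomial.aeval_def, MvPolynomial.aeval_def, MvPolynomial.eval₂_eq,
    MvPolynomial.eval₂_eq, Finset.mul_sum]
  refine Finset.sum_congr rfl fun e he => ?_
  simp only [Pi.smul_apply, smul_eq_mul, mul_pow, Finset.prod_mul_distrib,
    Finset.prod_pow_eq_pow_sum]
  rw [← hG.degree_eq_sum_deg_support he]
  ring

theorem exists_v0 [Algebra K L] {τ : L} (hτ : Transcendental K τ) (hL : K⟮τ⟯ = ⊤) :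
    ∃ (v : Vl L) (ρ : v.integer →+* K), v τ = WithZero.exp (-1) ∧ Triv (algebraMap K L) v ∧
      IsRed v ρ ∧ (∀ z, ∃ h, ρ ⟨algebraMap K L z, h⟩ = z) ∧
      ∀ v' : Vl L, Triv (algebraMap K L) v' → v' τ < 1 → ∀ x, v' x ≤ 1 ↔ v x ≤ 1 := by
  obtain ⟨_, _, e⟩ := w3b_frac hτ hL
  obtain ⟨v, hc, h1⟩ := vn_prime (K := L) (Polynomial.prime_X (R := K))
  rw [e, Polynomial.aeval_X] at h1
  have ht : Triv (algebraMap K L) v := fun x hx => by
    rw [← Polynomial.aeval_C τ, ← e]
    refine le_antisymm (hc.1 _) (not_lt.1 fun hl => hx ?_)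
    simpa [Polynomial.X_dvd_iff] using (hc.2 _).1 hl
  obtain ⟨h2, h3⟩ := ratfunc_val hL ht (h1.trans_lt ((lt_one_iff_le_exp _).2 le_rfl))
  have h4 : ∀ z : K, (1 : Vl K) z ≤ 1 := Valuation.one_apply_le_one
  obtain ⟨ρ, h5, h6⟩ := dns_red (P := (1 : Vl K)) (fun z => iff_of_true (wa2_le ht z) (h4 z)) h2
    (π := (1 : Vl K).integer.subtype) fun _ => Valuation.one_apply_lt_one_iff.symm
  exact ⟨v, ρ, h1, ht, h5, fun z => ⟨wa2_le ht z, h6 ⟨z, h4 z⟩ _ rfl⟩, h3⟩

theorem fin_ord (hf : Transcendental K f) [FiniteDimensional K⟮f⟯ F] [Algebra.IsSeparable K⟮f⟯ F] :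
    {Q : Vl F | Nrm Q ∧ Triv (algebraMap K F) Q ∧ ord Q f ≠ 0}.Finite := by
  have ht : Transcendental K (IntermediateField.AdjoinSimple.gen K f) := fun h =>
    hf (h.algebraMap (A := F))
  obtain ⟨v, -, -, -, -, -, h⟩ := exists_v0 ht (w3b_gen_top f)
  obtain ⟨v', -, -, -, -, -, h'⟩ := exists_v0 (fun h => ht (IsAlgebraic.inv_iff.1 h))
    (w3b_inv_top (w3b_gen_top f))
  have h0 : f ≠ 0 := fun e => hf (e ▸ isAlgebraic_zero)
  refine ((fin_over (F := F) v).union (fin_over v')).subset fun Q ⟨h1, h2, h3⟩ => ?_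
  rcases lt_or_gt_of_ne h3 with h3 | h3
  · refine Or.inr ⟨h1, h' (Q.comap (algebraMap K⟮f⟯ F)) h2 ?_⟩
    rw [Valuation.comap_apply, map_inv₀]
    exact (ord_pos (inv_ne_zero h0)).1 (by rw [ord_inv]; exact neg_pos.2 h3)
  · exact Or.inl ⟨h1, h (Q.comap (algebraMap K⟮f⟯ F)) h2 ((ord_pos h0).1 h3)⟩

theorem exists_enl {A B : Type} (g : A → B) (s : Finset A) (hs : Set.InjOn g s) {S : Set B}
    (hS : S.Finite) : ∃ s' : Finset A, s ⊆ s' ∧ Set.InjOn g s' ∧
      ∀ a, g a ∈ S → ∃ b ∈ s', g a = g b := by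
  induction S, hS using Set.Finite.induction_on with
  | empty => exact ⟨s, subset_rfl, hs, fun _ h => h.elim⟩
  | @insert y S _ _ ih =>
    obtain ⟨s', h1, h2, h3⟩ := ih
    by_cases h : ∀ a, g a = y → ∃ b ∈ s', g a = g b
    · exact ⟨s', h1, h2, fun a ha => ha.elim (h a) (h3 a)⟩
    obtain ⟨c, hc⟩ := not_forall.1 h
    obtain ⟨hc, hn⟩ := Classical.not_imp.1 hc
    refine ⟨insert c s', h1.trans (Finset.subset_insert _ _), ?_, fun a ha => ?_⟩
    · rw [Finset.coe_insert]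
      exact (Set.injOn_insert fun h4 => hn ⟨c, h4, rfl⟩).2
        ⟨h2, fun ⟨b, hb, e⟩ => hn ⟨b, hb, e.symm⟩⟩
    · rcases ha with ha | ha
      · exact ⟨c, Finset.mem_insert_self _ _, ha.trans hc.symm⟩
      · obtain ⟨b, hb, e⟩ := h3 a ha
        exact ⟨b, Finset.mem_insert_of_mem hb, e⟩

/-- divide by the coordinate of largest value -/
theorem exists_scale {ι : Type} [Finite ι] (P : Vl F) {g : ι → F} (hg : g ≠ 0) :
    ∃ c, (∀ i, P (c * g i) ≤ 1) ∧ ∃ i, P (c * g i) = 1 := by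
  obtain ⟨j, hj⟩ := Function.ne_iff.1 hg
  have : Nonempty ι := ⟨j⟩
  obtain ⟨i, hi⟩ := Finite.exists_max fun i => P (g i)
  have h0 : 0 < P (g i) := ((Valuation.pos_iff P).2 hj).trans_le (hi j)
  exact ⟨(g i)⁻¹, fun l => by rw [map_mul, map_inv₀, inv_mul_le_one₀ h0]; exact hi l,
    i, by rw [map_mul, map_inv₀, inv_mul_cancel₀ h0.ne']⟩

/-- the residue map onto the residue field -/
noncomputable def plH (P : ZeroCyc.Place K F (AlgebraicClosure K)) : P.v.integer →+* plF P :=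
  P.ev.codRestrict (plF P) fun x => IntermediateField.subset_adjoin _ _ ⟨x, rfl⟩

theorem plH_spec (P : ZeroCyc.Place K F (AlgebraicClosure K)) :
    IsRed P.v (plH P) ∧ Function.Surjective (plH P) ∧
      ∀ z, ∃ h, plH P ⟨algebraMap K F z, h⟩ = algebraMap K _ z := by
  have h := (place_facts P).2.1
  refine ⟨fun x => Subtype.ext_iff.trans (h x), fun y => ?_,
    fun z => (P.ev_alg z).imp fun _ e => Subtype.ext e⟩
  obtain ⟨S, hS⟩ := h.subfield
  have : plF P ≤ S.toIntermediateField fun z => (hS _).2 ⟨_, (P.ev_alg z).choose_spec⟩ :=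
    IntermediateField.adjoin_le_iff.2 fun z hz => (hS z).2 hz
  obtain ⟨x, hx⟩ := (hS _).1 (this y.2)
  exact ⟨x, Subtype.ext hx⟩

variable {X : Var k} [Algebra k K] [Algebra k F] [IsScalarTower k K F] {a : BR X.F}
  {g : Fin (X.N + 1) → F}

theorem EvApi.pt_uc (h : EvApi X) (ha : a ∈ X.Bw) (hg : X.On g) {P : Vl F}
    (hP : Triv (algebraMap K F) P) {c : F} (hc : ∀ i, c * g i ∈ P.integer)
    (h1 : ∃ i, P (c * g i) = 1) : ∃ U : UC P.integer, U.val P.integer.subtype = X.vl a F g ∧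
      ∀ (M : Type) [Field M] [Algebra k M] (π : P.integer →+* M),
        (∀ z hz, π ⟨algebraMap k F z, hz⟩ = algebraMap k M z) →
          U.val π = X.vl a M fun i => π ⟨c * g i, hc i⟩ := by
  have hk : ∀ z, algebraMap k F z ∈ P.integer := fun z => by
    rw [IsScalarTower.algebraMap_apply k K F]
    exact wa2_le hP _
  let : Algebra k P.integer := ((algebraMap k F).codRestrict _ hk).toAlgebra
  let φ : P.integer →ₐ[k] F := ⟨P.integer.subtype, fun _ => rfl⟩
  obtain ⟨i, hi⟩ := h1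
  have h0 : c ≠ 0 := fun e => by simp [e] at hi
  obtain ⟨U, hU⟩ := h.pt a ha P.integer (fun i => ⟨c * g i, hc i⟩)
    ⟨i, (Valuation.integer.integers P).isUnit_iff_valuation_eq_one.2 hi⟩ fun G hG =>
      Subtype.ext ((MvPolynomial.comp_aeval_apply _ φ G).trans
        ((wa2_smul hG.1.choose_spec c g).trans (by rw [hg.2 G hG, mul_zero]; rfl)))
  exact ⟨U, (hU F φ).symm.trans (h.val_smul a ha F g c hg h0),
    fun M _ _ π hπ => (hU M ⟨π, fun z => hπ z _⟩).symm⟩

theorem EvApi.mem_loc (h : EvApi X) (ha : a ∈ X.Bw) (hg : X.On g) {P : Vl F}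
    (hP : Triv (algebraMap K F) P) : X.vl a F g ∈ Loc P.integer := by
  obtain ⟨c, h1, h2⟩ := exists_scale P hg.1
  obtain ⟨U, hU, -⟩ := h.pt_uc ha hg hP h1 h2
  exact AddSubgroup.subset_closure ⟨U, hU⟩

theorem EvApi.place_uc (h : EvApi X) (ha : a ∈ X.Bw) (hg : X.On g)
    (P : ZeroCyc.Place K F (AlgebraicClosure K)) {x : Fin (X.N + 1) → AlgebraicClosure K} (h0 : x ≠ 0)
    {c : F} (hx : ∀ i, P.Val (c * g i) (x i)) : ∃ U : UC P.v.integer,
      U.val P.v.integer.subtype = X.vl a F g ∧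
        corN K (plF P) (U.val (plH P)) = X.ptv a (plF P) x := by
  choose hc hx using hx
  obtain ⟨i, hi⟩ := Function.ne_iff.1 h0
  obtain ⟨U, h1, h2⟩ := h.pt_uc ha hg (place_facts P).2.2 hc ⟨i, le_antisymm (hc i)
    (not_lt.1 fun e => hi ((hx i).symm.trans (((place_facts P).2.1 _).2 e)))⟩
  obtain rfl : (fun i => P.ev ⟨_, hc i⟩) = x := funext hx
  refine ⟨U, h1, ?_⟩
  have hm : ∀ i, P.ev ⟨_, hc i⟩ ∈ plF P := fun i => (plH P ⟨_, hc i⟩).2
  rw [Var.ptv, dif_pos hm, h2 (plF P) (plH P) fun z hz => ?_]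
  · rfl
  · obtain ⟨h3, h4⟩ := (plH_spec P).2.2 (algebraMap k K z)
    exact (congrArg (plH P) (Subtype.ext (IsScalarTower.algebraMap_apply k K F z))).trans h4

end Pool.Agent.ZCy.F
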